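import Pool.Agent.Lib_MP_ae71a2_nt.Defs

set_option autoImplicit false

/-! Part A: creative telescoping in the abstract deformation `HG`, and the polynomial reduction of
all moments to three of them. -/

namespace Pool.Agent.Apery5

open Finset

section A
variable {S : Type*} [CommRing S] {δ : S} {F : ℕ → ℕ → S}

/-- (T4) -/
theorem HG.exact (h : HG δ F) (n d : ℕ) :
    ∑ K ∈ range (n + 1), F n K *
      (((K : S) + δ + 1) ^ d * (((n : S) - (K + δ)) * ((n : S) + (K + δ) + 1)) ^ 2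
        - ((K : S) + δ) ^ (d + 4)) = 0 := by
  have h1 : ∀ K ∈ range (n + 1), F n K *
      (((K : S) + δ + 1) ^ d * (((n : S) - (K + δ)) * ((n : S) + (K + δ) + 1)) ^ 2
        - ((K : S) + δ) ^ (d + 4))
      = (((K + 1 : ℕ) : S) + δ) ^ (d + 4) * F n (K + 1) - ((K : S) + δ) ^ (d + 4) * F n K := by
    intro K _
    have h2 := h.N1 n K
    push_cast
    have h3 : ((K : S) + 1 + δ) ^ (d + 4) * F n (K + 1)
        = ((K : S) + δ + 1) ^ d * (((K : S) + δ + 1) ^ 4 * F n (K + 1)) := by ring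
    rw [h3, h2]
    ring
  rw [sum_congr rfl h1, sum_range_sub (fun K : ℕ => ((K : S) + δ) ^ (d + 4) * F n K) (n + 1)]
  have h2 : δ ^ (d + 4) = 0 := by
    rw [show d + 4 = 2 + (d + 2) by ring, pow_add, h.sq, zero_mul]
  rw [h.out n (n + 1) (Nat.lt_succ_self n)]
  simp [h2]

/-- the square relation, all `k ≤ n` -/
lemma HG.N2' (h : HG δ F) (n k : ℕ) (hn : 1 ≤ n) (hk : k ≤ n) :
    ((n : S) + (k + δ)) ^ 2 * F (n - 1) k = ((n : S) - (k + δ)) ^ 2 * F n k := by
  obtain ⟨m, rfl⟩ : ∃ m, n = m + 1 := ⟨n - 1, by omega⟩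
  rw [Nat.add_sub_cancel]
  rcases Nat.lt_or_ge m k with h1 | h1
  · have hk' : k = m + 1 := by omega
    subst hk'
    rw [h.out m (m + 1) (Nat.lt_succ_self m)]
    have h2 : (((m + 1 : ℕ) : S) - (((m + 1 : ℕ) : S) + δ)) ^ 2 = δ ^ 2 := by ring
    rw [h2, h.sq]
    ring
  · have h2 := h.N2 m k h1
    push_cast
    rw [h2]

/-- general telescoping with a certificate divided by `(n+x)^2` -/
lemma HG.tele (h : HG δ F) (n : ℕ) (hn : 1 ≤ n) (q s r : S → S)
    (hid : ∀ x : S, q x * ((n : S) + x) ^ 2 - s x * ((n : S) - x) ^ 2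
      = r (x + 1) * (((n : S) - x) ^ 2 * ((n : S) + x) ^ 2) - r x * x ^ 4) :
    ∑ K ∈ range (n + 1), (q ((K : S) + δ) * F n K - s ((K : S) + δ) * F (n - 1) K) = 0 := by
  have hu : ∀ K : ℕ, ∃ e : S, e * ((n : S) + (K + δ)) = 1 := by
    intro K
    have h1 := h.up (n + K) (by omega)
    obtain ⟨e, he⟩ := h1.exists_left_inv
    refine ⟨e, ?_⟩
    rw [← he]
    push_cast
    ring
  choose e he using hu
  have h1 : ∀ K ∈ range (n + 1), (q ((K : S) + δ) * F n K - s ((K : S) + δ) * F (n - 1) K)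
      = r (((K + 1 : ℕ) : S) + δ) * (((K + 1 : ℕ) : S) + δ) ^ 4 * F n (K + 1) * e (K + 1) ^ 2
        - r ((K : S) + δ) * ((K : S) + δ) ^ 4 * F n K * e K ^ 2 := by
    intro K hK
    have hK' : K ≤ n := by have := mem_range.1 hK; omega
    have h2 := h.N1 n K
    have h3 := h.N2' n K hn hK'
    have h4 := hid ((K : S) + δ)
    have h5 := he K
    have h6 := he (K + 1)
    push_cast at h6 ⊢
    have e1 : r ((K : S) + 1 + δ) = r ((K : S) + δ + 1) := by ring_nf
    have h7 : ((K : S) + 1 + δ) ^ 4 * F n (K + 1) * e (K + 1) ^ 2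
        = ((n : S) - (K + δ)) ^ 2 * F n K := by
      have h8 : ((K : S) + 1 + δ) ^ 4 * F n (K + 1) * e (K + 1) ^ 2
        = (((K : S) + δ + 1) ^ 4 * F n (K + 1)) * e (K + 1) ^ 2 := by ring
      rw [h8, h2]
      have h9 : ((n : S) - (K + δ)) ^ 2 * ((n : S) + (K + δ) + 1) ^ 2 * F n K * e (K + 1) ^ 2
        = ((n : S) - (K + δ)) ^ 2 * F n K * (e (K + 1) * ((n : S) + (K + 1 + δ))) ^ 2 := by ring
      rw [h9, h6]
      ring
    have h10 : q ((K : S) + δ) * F n K - s ((K : S) + δ) * F (n - 1) K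
        = (e K * ((n : S) + (K + δ))) ^ 2 *
          (q ((K : S) + δ) * F n K - s ((K : S) + δ) * F (n - 1) K) := by
      rw [h5]; ring
    rw [h10]
    have h11 : (e K * ((n : S) + (K + δ))) ^ 2 *
          (q ((K : S) + δ) * F n K - s ((K : S) + δ) * F (n - 1) K)
        = e K ^ 2 * (q ((K : S) + δ) * ((n : S) + (K + δ)) ^ 2 * F n K
          - s ((K : S) + δ) * (((n : S) + (K + δ)) ^ 2 * F (n - 1) K)) := by ring
    rw [h11, h3]
    have h12 : e K ^ 2 * (q ((K : S) + δ) * ((n : S) + (K + δ)) ^ 2 * F n K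
          - s ((K : S) + δ) * (((n : S) - (K + δ)) ^ 2 * F n K))
        = e K ^ 2 * ((q ((K : S) + δ) * ((n : S) + (K + δ)) ^ 2
          - s ((K : S) + δ) * ((n : S) - (K + δ)) ^ 2) * F n K) := by ring
    rw [h12, h4, e1]
    have h13 : r ((K : S) + δ + 1) * ((K : S) + 1 + δ) ^ 4 * F n (K + 1) * e (K + 1) ^ 2
        = r ((K : S) + δ + 1) * (((K : S) + 1 + δ) ^ 4 * F n (K + 1) * e (K + 1) ^ 2) := by ring
    rw [h13, h7]
    have h14 : e K ^ 2 * ((r ((K : S) + δ + 1) * (((n : S) - (K + δ)) ^ 2 *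
          ((n : S) + (K + δ)) ^ 2) - r ((K : S) + δ) * ((K : S) + δ) ^ 4) * F n K)
        = r ((K : S) + δ + 1) * ((n : S) - (K + δ)) ^ 2 * F n K *
            (e K * ((n : S) + (K + δ))) ^ 2
          - r ((K : S) + δ) * ((K : S) + δ) ^ 4 * F n K * e K ^ 2 := by ring
    rw [h14, h5]
    ring
  rw [sum_congr rfl h1, sum_range_sub (fun K : ℕ =>
    r ((K : S) + δ) * ((K : S) + δ) ^ 4 * F n K * e K ^ 2) (n + 1)]
  have h2 : δ ^ 4 = 0 := by
    rw [show 4 = 2 + 2 by norm_num, pow_add, h.sq, zero_mul]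
  rw [h.out n (n + 1) (Nat.lt_succ_self n)]
  simp [h2]

lemma HG.mom_pred (h : HG δ F) (n m : ℕ) (hn : 1 ≤ n) :
    mom δ F (n - 1) m = ∑ K ∈ range (n + 1), F (n - 1) K * ((K : S) + δ) ^ m := by
  obtain ⟨k, rfl⟩ : ∃ k, n = k + 1 := ⟨n - 1, by omega⟩
  unfold mom
  rw [Nat.add_sub_cancel, sum_range_succ _ (k + 1), h.out k (k + 1) (Nat.lt_succ_self k)]
  ring

/-- (T2) -/
theorem HG.rec2 (h : HG δ F) (n : ℕ) (hn : 1 ≤ n) :
    (n : S) ^ 3 * mom δ F (n - 1) 0
      = 12 * mom δ F n 2 - 24 * (n : S) * ((n : S) + 1) * mom δ F n 1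
        + (17 * (n : S) ^ 3 + 12 * (n : S) ^ 2) * mom δ F n 0 := by
  have h1 := h.tele n hn
    (fun x => 12 * x ^ 2 - 24 * (n : S) * ((n : S) + 1) * x
      + (17 * (n : S) ^ 3 + 12 * (n : S) ^ 2))
    (fun _ => (n : S) ^ 3) (fun x => 16 * (n : S) + 12 * x) (by intro x; ring)
  rw [h.mom_pred n 0 hn]
  unfold mom
  rw [mul_sum, mul_sum, mul_sum, mul_sum, ← sum_sub_distrib, ← sum_add_distrib,
    ← sub_eq_zero, ← sum_sub_distrib, ← neg_eq_zero, ← sum_neg_distrib]
  rw [← h1]
  apply sum_congr rfl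
  intro K _
  ring

/-- (T3) -/
theorem HG.rec3 (h : HG δ F) (n : ℕ) (hn : 1 ≤ n) :
    (n : S) ^ 2 * mom δ F (n - 1) 1
      = -8 * mom δ F n 2 + (17 * (n : S) ^ 2 + 16 * (n : S)) * mom δ F n 1
        - (12 * (n : S) ^ 3 + 8 * (n : S) ^ 2) * mom δ F n 0 := by
  have h1 := h.tele n hn
    (fun x => -8 * x ^ 2 + (17 * (n : S) ^ 2 + 16 * (n : S)) * x
      - (12 * (n : S) ^ 3 + 8 * (n : S) ^ 2))
    (fun x => (n : S) ^ 2 * x) (fun x => -(12 * (n : S) + 8 * x)) (by intro x; ring)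
  rw [h.mom_pred n 1 hn]
  unfold mom
  rw [mul_sum, mul_sum, mul_sum, mul_sum, ← sum_add_distrib, ← sum_sub_distrib,
    ← sub_eq_zero, ← sum_sub_distrib, ← neg_eq_zero, ← sum_neg_distrib]
  rw [← h1]
  apply sum_congr rfl
  intro K _
  ring

/-- (T1) Apery recurrence -/
theorem HG.rec1 (h : HG δ F) (n : ℕ) (hn : 1 ≤ n) :
    ((n : S) + 1) ^ 3 * mom δ F (n + 1) 0
      = P (n : S) * mom δ F n 0 - (n : S) ^ 3 * mom δ F (n - 1) 0 := by
  -- certificate
  set B : ℕ → S := fun K => 4 * (2 * (n : S) + 1) *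
    (((K : S) + δ) * (2 * ((K : S) + δ) + 1) - (2 * (n : S) + 1) ^ 2) * F n K with hB
  set B' : ℕ → S := fun K => if K = 0 then 0 else B (K - 1) with hB'
  have hδ4 : δ ^ 4 = 0 := by
    rw [show 4 = 2 + 2 by norm_num, pow_add, h.sq, zero_mul]
  have key : ∀ K ∈ range (n + 2), ((n : S) + 1) ^ 3 * F (n + 1) K - P (n : S) * F n K
      + (n : S) ^ 3 * F (n - 1) K = B' (K + 1) - B' K := by
    intro K hK
    have hK' : K ≤ n + 1 := by have := mem_range.1 hK; omega
    have hB1 : B' (K + 1) = B K := by simp [hB']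
    rw [hB1]
    rcases Nat.lt_or_ge n K with h1 | h1
    · -- boundary `K = n+1`
      have hKn : K = n + 1 := by omega
      subst hKn
      have e1 : B (n + 1) = 0 := by
        rw [hB]; simp only
        rw [h.out n (n + 1) (Nat.lt_succ_self n), mul_zero]
      have e2 : B' (n + 1) = B n := by simp [hB']
      rw [e1, e2, h.out n (n + 1) (Nat.lt_succ_self n), h.out (n - 1) (n + 1) (by omega)]
      obtain ⟨v, hv⟩ := (h.up (n + 1) (by omega)).exists_left_inv
      have f1 := h.N1 (n + 1) n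
      have f2 := h.N2 n n le_rfl
      push_cast at f1 hv ⊢
      have f3 : ((n : S) + δ + 1) ^ 4 * F (n + 1) (n + 1)
          = (2 * (n : S) + 2 + δ) ^ 2 * (2 * (n : S) + 1 + δ) ^ 2 * F n n := by
        rw [f1]
        have f4 : ((n : S) + 1 - (n + δ)) ^ 2 * ((n : S) + 1 + (n + δ) + 1) ^ 2 * F (n + 1) n
          = ((n : S) + 1 + (n + δ) + 1) ^ 2 * (((n : S) + 1 - (n + δ)) ^ 2 * F (n + 1) n) := by
          ring
        rw [f4, f2]
        ring
      have f5 : ((n : S) + 1) ^ 3 * F (n + 1) (n + 1) - P (n : S) * 0 + (n : S) ^ 3 * 0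
          - (0 - B n)
          = (v * ((n : S) + 1 + δ)) ^ 4 * (((n : S) + 1) ^ 3 * F (n + 1) (n + 1) + B n) := by
        rw [hv]; ring
      rw [← sub_eq_zero, f5]
      have f6 : (v * ((n : S) + 1 + δ)) ^ 4 * (((n : S) + 1) ^ 3 * F (n + 1) (n + 1) + B n)
          = v ^ 4 * (((n : S) + 1) ^ 3 * (((n : S) + δ + 1) ^ 4 * F (n + 1) (n + 1))
              + ((n : S) + δ + 1) ^ 4 * B n) := by ring
      rw [f6, f3, hB]
      simp only
      have f7 : (((n : S) + 1) ^ 3 * ((2 * (n : S) + 2 + δ) ^ 2 * (2 * (n : S) + 1 + δ) ^ 2 *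
          F n n) + ((n : S) + δ + 1) ^ 4 * (4 * (2 * (n : S) + 1) *
          (((n : S) + δ) * (2 * ((n : S) + δ) + 1) - (2 * (n : S) + 1) ^ 2) * F n n)) = 0 := by
        have hδ := h.sq
        linear_combination (F n n) * (
          4 * (2 * (n : S) + 1) * (((n : S) + 1 + δ) * (2 * ((n : S) + 1 + δ) + 1)
            - (2 * (n : S) + 1) ^ 2) * (2 * (n : S) + 1 + δ) ^ 2
          + (34 * (n : S) ^ 3 + 51 * (n : S) ^ 2 + 27 * (n : S) + 5) *
            (2 * (n : S) + 1 + δ) ^ 2 - (n : S) ^ 3 * (1 + δ) ^ 2) * hδ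
      rw [f7, mul_zero]
    · -- `K ≤ n`
      have g1 := h.N2 n K h1
      have g2 := h.N2' n K hn h1
      obtain ⟨v, hv⟩ := (h.up (n + K) (by omega)).exists_left_inv
      obtain ⟨v', hv'⟩ := (h.um (n + 1 - K) (by omega)).exists_left_inv
      have hv1 : v * ((n : S) + (K + δ)) = 1 := by rw [← hv]; push_cast; ring
      have hv2 : v' * ((n : S) + 1 - (K + δ)) = 1 := by
        have e : (n : S) + 1 - (K + δ) = ((n + 1 - K : ℕ) : S) - δ := by
          rw [Nat.cast_sub (by omega)]; push_cast; ring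
        rw [e]; exact hv'
      have g3 : ((K : S) + δ) ^ 4 * F n K
          * (4 * (2 * (n : S) + 1) *
            (((K : S) + δ - 1) * (2 * ((K : S) + δ) - 1) - (2 * (n : S) + 1) ^ 2))
          = ((n : S) + (K + δ)) ^ 2 * ((n : S) + 1 - (K + δ)) ^ 2 * B' K := by
        rcases Nat.eq_zero_or_pos K with hK0 | hK0
        · subst hK0
          have : B' 0 = 0 := by simp [hB']
          rw [this]
          simp [hδ4]
        · obtain ⟨k, rfl⟩ : ∃ k, K = k + 1 := ⟨K - 1, by omega⟩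
          have : B' (k + 1) = B k := by simp [hB']
          rw [this, hB]
          simp only
          have g4 := h.N1 n k
          push_cast
          have g5 : ((k : S) + 1 + δ) ^ 4 * F n (k + 1)
            = ((n : S) - (k + δ)) ^ 2 * ((n : S) + (k + δ) + 1) ^ 2 * F n k := by
            rw [← g4]; ring
          rw [g5]
          ring
      rw [← sub_eq_zero]
      have g6 : ((n : S) + 1) ^ 3 * F (n + 1) K - P (n : S) * F n K + (n : S) ^ 3 * F (n - 1) K
          - (B K - B' K)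
          = (v * ((n : S) + (K + δ))) ^ 2 * (v' * ((n : S) + 1 - (K + δ))) ^ 2 *
            (((n : S) + 1) ^ 3 * F (n + 1) K - P (n : S) * F n K + (n : S) ^ 3 * F (n - 1) K
          - (B K - B' K)) := by rw [hv1, hv2]; ring
      rw [g6]
      have g7 : (v * ((n : S) + (K + δ))) ^ 2 * (v' * ((n : S) + 1 - (K + δ))) ^ 2 *
            (((n : S) + 1) ^ 3 * F (n + 1) K - P (n : S) * F n K + (n : S) ^ 3 * F (n - 1) K
          - (B K - B' K))
          = v ^ 2 * v' ^ 2 * (((n : S) + 1) ^ 3 * ((n : S) + (K + δ)) ^ 2 *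
              (((n : S) + 1 - (K + δ)) ^ 2 * F (n + 1) K)
            - P (n : S) * ((n : S) + (K + δ)) ^ 2 * ((n : S) + 1 - (K + δ)) ^ 2 * F n K
            + (n : S) ^ 3 * ((n : S) + 1 - (K + δ)) ^ 2 *
              (((n : S) + (K + δ)) ^ 2 * F (n - 1) K)
            - ((n : S) + (K + δ)) ^ 2 * ((n : S) + 1 - (K + δ)) ^ 2 * B K
            + ((n : S) + (K + δ)) ^ 2 * ((n : S) + 1 - (K + δ)) ^ 2 * B' K) := by ring
      rw [g7, g1, g2, ← g3, hB]
      simp only [P]
      ring
  have hsum : ∑ K ∈ range (n + 2), (((n : S) + 1) ^ 3 * F (n + 1) K - P (n : S) * F n K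
      + (n : S) ^ 3 * F (n - 1) K) = 0 := by
    rw [sum_congr rfl key, sum_range_sub]
    have e1 : B' (n + 2) = 0 := by
      have : B' (n + 2) = B (n + 1) := by simp [hB']
      rw [this, hB]; simp only
      rw [h.out n (n + 1) (Nat.lt_succ_self n), mul_zero]
    have e2 : B' 0 = 0 := by simp [hB']
    rw [e1, e2, sub_zero]
  have m1 : mom δ F (n + 1) 0 = ∑ K ∈ range (n + 2), F (n + 1) K := by
    unfold mom; simp
  have m2 : mom δ F n 0 = ∑ K ∈ range (n + 2), F n K := by
    unfold mom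
    rw [sum_range_succ _ (n + 1), h.out n (n + 1) (Nat.lt_succ_self n)]
    simp
  have m3 : mom δ F (n - 1) 0 = ∑ K ∈ range (n + 2), F (n - 1) K := by
    rw [h.mom_pred n 0 hn, sum_range_succ _ (n + 1), h.out (n - 1) (n + 1) (by omega)]
    simp
  rw [m1, m2, m3]
  rw [sum_add_distrib, sum_sub_distrib, ← mul_sum, ← mul_sum, ← mul_sum] at hsum
  linear_combination hsum

/-- coefficients of the exact elements -/
lemma exact_coeffs (d : ℕ) : ∃ c : ℕ → Polynomial ℤ, ∀ (n : ℕ) (x : S),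
    (x + 1) ^ d * (((n : S) - x) * ((n : S) + x + 1)) ^ 2 - x ^ (d + 4)
      = ((d : S) + 2) * x ^ (d + 3)
        + ∑ j ∈ range (d + 3), (((c j).eval (n : ℤ) : ℤ) : S) * x ^ j := by
  induction d with
  | zero =>
    refine ⟨fun j => if j = 0 then (Polynomial.X * (Polynomial.X + 1)) ^ 2
      else if j = 1 then -2 * (Polynomial.X * (Polynomial.X + 1))
      else 1 - 2 * (Polynomial.X * (Polynomial.X + 1)), ?_⟩
    intro n x
    simp [sum_range_succ]
    ring
  | succ d ih =>
    obtain ⟨c, hc⟩ := ih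
    refine ⟨fun j => (if j < d + 3 then c j else ((d : Polynomial ℤ) + 2)) +
      (if j = 0 then 0 else c (j - 1)), ?_⟩
    intro n x
    have h1 := hc n x
    have h2 : ∑ j ∈ range (d + 1 + 3), (((((if j < d + 3 then c j else ((d : Polynomial ℤ) + 2)) +
      (if j = 0 then 0 else c (j - 1))).eval (n : ℤ) : ℤ) : S)) * x ^ j
        = (∑ j ∈ range (d + 3), (((c j).eval (n : ℤ) : ℤ) : S) * x ^ j)
          + ((d : S) + 2) * x ^ (d + 3)
          + x * (∑ j ∈ range (d + 3), (((c j).eval (n : ℤ) : ℤ) : S) * x ^ j) := by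
      have h3 : ∀ j ∈ range (d + 1 + 3), (((((if j < d + 3 then c j else
          ((d : Polynomial ℤ) + 2)) + (if j = 0 then 0 else c (j - 1))).eval (n : ℤ) : ℤ) : S))
            * x ^ j
          = (((if j < d + 3 then c j else ((d : Polynomial ℤ) + 2)).eval (n : ℤ) : ℤ) : S) * x ^ j
            + (((if j = 0 then 0 else c (j - 1)).eval (n : ℤ) : ℤ) : S) * x ^ j := by
        intro j _
        rw [Polynomial.eval_add]
        push_cast
        ring
      rw [sum_congr rfl h3, sum_add_distrib]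
      congr 1
      · rw [show d + 1 + 3 = (d + 3) + 1 by ring, sum_range_succ]
        congr 1
        · apply sum_congr rfl
          intro j hj
          rw [if_pos (mem_range.1 hj)]
        · rw [if_neg (lt_irrefl _)]
          simp
      · rw [show d + 1 + 3 = (d + 3) + 1 by ring, sum_range_succ']
        simp only [Nat.succ_ne_zero, if_false, if_true, Polynomial.eval_zero, Int.cast_zero,
          zero_mul, add_zero, Nat.add_sub_cancel]
        rw [mul_sum]
        apply sum_congr rfl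
        intro j _
        ring
    rw [h2]
    push_cast
    have h4 : (x + 1) ^ (d + 1) * (((n : S) - x) * ((n : S) + x + 1)) ^ 2 - x ^ (d + 1 + 4)
        = (x + 1) * ((x + 1) ^ d * (((n : S) - x) * ((n : S) + x + 1)) ^ 2 - x ^ (d + 4))
          + x ^ (d + 4) := by ring
    rw [h4, h1]
    ring

lemma HG.exact_mom (h : HG δ F) (d : ℕ) : ∃ c : ℕ → Polynomial ℤ, ∀ n : ℕ,
    ((d : S) + 2) * mom δ F n (d + 3)
      + ∑ j ∈ range (d + 3), (((c j).eval (n : ℤ) : ℤ) : S) * mom δ F n j = 0 := by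
  obtain ⟨c, hc⟩ := exact_coeffs (S := S) d
  refine ⟨c, fun n => ?_⟩
  have h1 := h.exact n d
  have h2 : ∀ K ∈ range (n + 1), F n K *
      (((K : S) + δ + 1) ^ d * (((n : S) - (K + δ)) * ((n : S) + (K + δ) + 1)) ^ 2
        - ((K : S) + δ) ^ (d + 4))
      = ((d : S) + 2) * (F n K * ((K : S) + δ) ^ (d + 3))
        + ∑ j ∈ range (d + 3), (((c j).eval (n : ℤ) : ℤ) : S) * (F n K * ((K : S) + δ) ^ j) := by
    intro K _
    rw [hc n ((K : S) + δ), mul_add, mul_sum]
    congr 1
    · ring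
    · apply sum_congr rfl
      intro j _
      ring
  rw [sum_congr rfl h2, sum_add_distrib, ← mul_sum, sum_comm] at h1
  unfold mom
  rw [← h1]
  congr 1
  apply sum_congr rfl
  intro j _
  rw [mul_sum]

/-- reduction of all moments to three of them, with coefficients polynomial in `n`,
and denominator `12 (m-1)!` -/
theorem HG.reduce (h : HG δ F) : ∃ A G B : ℕ → Polynomial ℤ,
    A 0 = 12 ∧ G 0 = 0 ∧ B 0 = 0 ∧ A 1 = 0 ∧ G 1 = 12 ∧ B 1 = 0 ∧
    ∀ m n : ℕ, 12 * (((m - 1).factorial : ℕ) : S) * mom δ F n m =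
      (((A m).eval (n : ℤ) : ℤ) : S) * mom δ F n 0 + (((G m).eval (n : ℤ) : ℤ) : S) * mom δ F n 1
      + (((B m).eval (n : ℤ) : ℤ) : S) * (12 * mom δ F n 2
          - 24 * (n : S) * ((n : S) + 1) * mom δ F n 1
          + (17 * (n : S) ^ 3 + 12 * (n : S) ^ 2) * mom δ F n 0) := by
  have key : ∀ m : ℕ, ∃ p : Polynomial ℤ × Polynomial ℤ × Polynomial ℤ,
      (m = 0 → p = (12, 0, 0)) ∧ (m = 1 → p = (0, 12, 0)) ∧
      ∀ n : ℕ, 12 * (((m - 1).factorial : ℕ) : S) * mom δ F n m =
      ((p.1.eval (n : ℤ) : ℤ) : S) * mom δ F n 0 + ((p.2.1.eval (n : ℤ) : ℤ) : S) * mom δ F n 1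
      + ((p.2.2.eval (n : ℤ) : ℤ) : S) * (12 * mom δ F n 2
          - 24 * (n : S) * ((n : S) + 1) * mom δ F n 1
          + (17 * (n : S) ^ 3 + 12 * (n : S) ^ 2) * mom δ F n 0) := by
    intro m
    induction m using Nat.strong_induction_on with
    | _ m ih =>
      match m, ih with
      | 0, _ =>
        refine ⟨(12, 0, 0), fun _ => rfl, fun h0 => absurd h0 (by norm_num), fun n => ?_⟩
        simp
      | 1, _ =>
        refine ⟨(0, 12, 0), fun h0 => absurd h0 (by norm_num), fun _ => rfl, fun n => ?_⟩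
        simp
      | 2, _ =>
        refine ⟨(-(17 * Polynomial.X ^ 3 + 12 * Polynomial.X ^ 2),
          24 * Polynomial.X * (Polynomial.X + 1), 1), fun h0 => absurd h0 (by norm_num),
          fun h0 => absurd h0 (by norm_num), fun n => ?_⟩
        simp
        ring
      | d + 3, ih =>
        obtain ⟨c, hc⟩ := h.exact_mom d
        have ih' : ∀ j : ℕ, ∃ p : Polynomial ℤ × Polynomial ℤ × Polynomial ℤ, j < d + 3 →
            ∀ n : ℕ, 12 * (((j - 1).factorial : ℕ) : S) * mom δ F n j =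
            ((p.1.eval (n : ℤ) : ℤ) : S) * mom δ F n 0
            + ((p.2.1.eval (n : ℤ) : ℤ) : S) * mom δ F n 1
            + ((p.2.2.eval (n : ℤ) : ℤ) : S) * (12 * mom δ F n 2
                - 24 * (n : S) * ((n : S) + 1) * mom δ F n 1
                + (17 * (n : S) ^ 3 + 12 * (n : S) ^ 2) * mom δ F n 0) := by
          intro j
          by_cases hj : j < d + 3
          · obtain ⟨p, _, _, hp⟩ := ih j hj
            exact ⟨p, fun _ => hp⟩
          · exact ⟨(0, 0, 0), fun h0 => absurd h0 hj⟩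
        choose p hp using ih'
        have hfac : ∀ j : ℕ, ∃ k : ℕ, j < d + 3 → (d + 1).factorial = (j - 1).factorial * k := by
          intro j
          by_cases hj : j < d + 3
          · obtain ⟨k, hk⟩ := Nat.factorial_dvd_factorial (show j - 1 ≤ d + 1 by omega)
            exact ⟨k, fun _ => hk⟩
          · exact ⟨0, fun h0 => absurd h0 hj⟩
        choose k hk using hfac
        refine ⟨(-∑ j ∈ range (d + 3), c j * (k j : Polynomial ℤ) * (p j).1,
          -∑ j ∈ range (d + 3), c j * (k j : Polynomial ℤ) * (p j).2.1,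
          -∑ j ∈ range (d + 3), c j * (k j : Polynomial ℤ) * (p j).2.2),
          fun h0 => absurd h0 (by omega), fun h0 => absurd h0 (by omega), fun n => ?_⟩
        have e1 : d + 3 - 1 = (d + 1) + 1 := by omega
        rw [e1, Nat.factorial_succ]
        have e2 : 12 * ((((d + 1 + 1) * (d + 1).factorial : ℕ)) : S) * mom δ F n (d + 3)
            = 12 * (((d + 1).factorial : ℕ) : S) * (((d : S) + 2) * mom δ F n (d + 3)) := by
          push_cast
          ring
        rw [e2]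
        have e3 : ((d : S) + 2) * mom δ F n (d + 3)
            = -∑ j ∈ range (d + 3), (((c j).eval (n : ℤ) : ℤ) : S) * mom δ F n j := by
          have := hc n
          linear_combination this
        rw [e3]
        have e4 : ∀ j ∈ range (d + 3), 12 * (((d + 1).factorial : ℕ) : S) *
            ((((c j).eval (n : ℤ) : ℤ) : S) * mom δ F n j)
            = (((c j).eval (n : ℤ) : ℤ) : S) * (k j : S) * (
              (((p j).1.eval (n : ℤ) : ℤ) : S) * mom δ F n 0
            + (((p j).2.1.eval (n : ℤ) : ℤ) : S) * mom δ F n 1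
            + (((p j).2.2.eval (n : ℤ) : ℤ) : S) * (12 * mom δ F n 2
                - 24 * (n : S) * ((n : S) + 1) * mom δ F n 1
                + (17 * (n : S) ^ 3 + 12 * (n : S) ^ 2) * mom δ F n 0)) := by
          intro j hj
          rw [← hp j (mem_range.1 hj) n, hk j (mem_range.1 hj)]
          push_cast
          ring
        rw [mul_neg, mul_sum, sum_congr rfl e4]
        simp only [Polynomial.eval_neg, Polynomial.eval_finsetSum, Polynomial.eval_mul,
          Polynomial.eval_natCast, Int.cast_neg, Int.cast_sum, Int.cast_mul, Int.cast_natCast]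
        rw [neg_mul, neg_mul, neg_mul, sum_mul, sum_mul, sum_mul, ← neg_add, ← neg_add,
          ← sum_add_distrib, ← sum_add_distrib]
        congr 1
        apply sum_congr rfl
        intro j _
        ring
  choose p h0 h1 hp using key
  refine ⟨fun m => (p m).1, fun m => (p m).2.1, fun m => (p m).2.2, ?_, ?_, ?_, ?_, ?_, ?_, hp⟩
  · simp only [h0 0 rfl]
  · simp only [h0 0 rfl]
  · simp only [h0 0 rfl]
  · simp only [h1 1 rfl]
  · simp only [h1 1 rfl]
  · simp only [h1 1 rfl]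

end A

end Pool.Agent.Apery5
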