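import Pool.Agent.Lib_MP_ae71a2_nt.Defs

set_option autoImplicit false

namespace Pool.Agent.Apery5

open Finset TrivSqZeroExt

lemma DN.mul_inv_eq {a b c d : DN} (hb : b.fst ≠ 0) (hd : d.fst ≠ 0) (h : a * d = c * b) :
    a * b⁻¹ = c * d⁻¹ := by
  have e1 : b * b⁻¹ = 1 := TrivSqZeroExt.mul_inv_cancel hb
  have e2 : d * d⁻¹ = 1 := TrivSqZeroExt.mul_inv_cancel hd
  calc a * b⁻¹ = (a * d) * d⁻¹ * b⁻¹ := by
        linear_combination (-(a * b⁻¹)) * e2
    _ = (c * b) * d⁻¹ * b⁻¹ := by rw [h]
    _ = c * d⁻¹ := by linear_combination (c * d⁻¹) * e1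

lemma DN.isUnit_of_fst {a : DN} (ha : a.fst ≠ 0) : IsUnit a :=
  IsUnit.of_mul_eq_one _ (TrivSqZeroExt.mul_inv_cancel ha)

lemma fst_natCast_DN (n : ℕ) : (n : DN).fst = (n : ℚ_[5]) := rfl

lemma RN_shift {S : Type*} [CommRing S] (n : ℕ) (t : S) :
    RN n (t + 1) * (t + 1) = RN n t * (t + n + 1) := by
  unfold RN
  induction n with
  | zero => simp
  | succ n ih =>
    rw [prod_range_succ, prod_range_succ]
    push_cast
    linear_combination (t + 1 + 1 + n) * ih

lemma RN_succ {S : Type*} [CommRing S] (n : ℕ) (t : S) :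
    RN (n + 1) t = RN n t * (t + 1 + n) := by
  unfold RN
  rw [prod_range_succ]

lemma RD_succ {S : Type*} [CommRing S] (n k : ℕ) (hk : k ≤ n) (t : S) :
    RD (n + 1) k t = RD n k t * (t - (n + 1)) := by
  unfold RD
  rw [prod_range_succ, if_neg (by omega)]
  push_cast
  rfl

lemma RD_shift {S : Type*} [CommRing S] (n k : ℕ) (hk : k < n) (t : S) :
    RD n (k + 1) (t + 1) * (t - n) = (t + 1) * RD n k t := by
  unfold RD
  rw [prod_range_succ', prod_range_succ, if_neg (by omega : ¬ n = k), if_neg (by omega : ¬ 0 = k + 1)]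
  have : ∀ i ∈ range n, (if i + 1 = k + 1 then (1 : S) else (t + 1 - ((i + 1 : ℕ) : S)))
      = if i = k then 1 else t - (i : S) := by
    intro i _
    by_cases h : i = k
    · simp [h]
    · simp [h]
  rw [prod_congr rfl this]
  push_cast
  ring

lemma fst_RD (n k : ℕ) (c : ℚ_[5]) :
    (RD n k ((k : DN) + inr c)).fst ≠ 0 := by
  unfold RD
  have : ∀ s : Finset ℕ, (∏ i ∈ s, if i = k then (1 : DN) else ((k : DN) + inr c - (i : DN))).fst ≠ 0 := by
    intro s
    induction s using Finset.induction_on with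
    | empty => simp
    | insert a s ha ih =>
      rw [prod_insert ha, fst_mul]
      refine mul_ne_zero ?_ ih
      by_cases h : a = k
      · simp [h]
      · rw [if_neg h]
        simp only [fst_sub, fst_add, fst_inr, fst_natCast_DN, add_zero]
        rw [sub_ne_zero]
        exact fun e => h (by exact_mod_cast e.symm)
  exact this _

theorem Fd_HG (c : ℚ_[5]) : HG (inr c : DN) (Fd c) where
  sq := by rw [pow_two, inr_mul_inr]
  F00 := by simp [Fd, RN, RD]
  out := by
    intro n k h
    unfold Fd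
    rw [if_neg (by omega)]
  N1 := by
    intro n k
    set t : DN := (k : DN) + inr c with ht
    have ht1 : (((k + 1 : ℕ) : DN) + inr c) = t + 1 := by
      rw [ht]; push_cast; ring
    rcases lt_trichotomy k n with h | h | h
    · have key : (t + 1) ^ 2 * RN n (t + 1) * (RD n (k + 1) (t + 1))⁻¹
          = (t - n) * (t + n + 1) * RN n t * (RD n k t)⁻¹ := by
        refine DN.mul_inv_eq ?_ ?_ ?_
        · rw [← ht1]; exact fst_RD _ _ _
        · exact fst_RD _ _ _
        · have h1 := RN_shift n t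
          have h2 := RD_shift n k h t
          linear_combination (-((t + 1) * RN n (t + 1))) * h2 + (t - n) * RD n (k + 1) (t + 1) * h1
      unfold Fd
      rw [if_pos (by omega), if_pos (by omega), ht1, ← ht]
      calc _ = ((t + 1) ^ 2 * RN n (t + 1) * (RD n (k + 1) (t + 1))⁻¹) ^ 2 := by ring
        _ = _ := by rw [key]; ring
    · subst h
      unfold Fd
      rw [if_neg (by omega)]
      have : (inr c : DN) ^ 2 = 0 := by rw [pow_two, inr_mul_inr]
      rw [mul_zero]
      have e : ((k : DN) - t) ^ 2 = 0 := by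
        rw [ht]
        linear_combination this
      rw [e]
      ring
    · unfold Fd
      rw [if_neg (by omega), if_neg (by omega)]
      ring
  N2 := by
    intro n k h
    set t : DN := (k : DN) + inr c with ht
    have key : (t - (n + 1)) * RN (n + 1) t * (RD (n + 1) k t)⁻¹
          = (t + n + 1) * RN n t * (RD n k t)⁻¹ := by
      refine DN.mul_inv_eq (fst_RD _ _ _) (fst_RD _ _ _) ?_
      rw [RN_succ, RD_succ _ _ h]
      ring
    unfold Fd
    rw [if_pos (by omega), if_pos (by omega), ← ht]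
    calc _ = ((t - (n + 1)) * RN (n + 1) t * (RD (n + 1) k t)⁻¹) ^ 2 := by ring
      _ = _ := by rw [key]; ring
  up := by
    intro j hj
    apply DN.isUnit_of_fst
    simp only [fst_add, fst_inr, fst_natCast_DN, add_zero]
    exact_mod_cast (by omega : j ≠ 0)
  um := by
    intro j hj
    apply DN.isUnit_of_fst
    simp only [fst_sub, fst_inr, fst_natCast_DN, sub_zero]
    exact_mod_cast (by omega : j ≠ 0)

theorem Fd_fst (c : ℚ_[5]) (n k : ℕ) :
    (Fd c n k).fst = (((n.choose k) ^ 2 * ((n + k).choose k) ^ 2 : ℕ) : ℚ_[5]) := by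
  have H := Fd_HG c
  have base : ∀ n : ℕ, (Fd c n 0).fst = 1 := by
    intro n
    induction n with
    | zero => rw [H.F00]; rfl
    | succ n ih =>
      have h := congrArg TrivSqZeroExt.fst (H.N2 n 0 (Nat.zero_le _))
      simp only [fst_mul, fst_pow, fst_sub, fst_add, fst_one, fst_natCast_DN, fst_inr, Nat.cast_zero, fst_zero,
        add_zero, sub_zero] at h
      rw [ih] at h
      have hn : ((n : ℚ_[5]) + 1) ^ 2 ≠ 0 := by
        apply pow_ne_zero
        exact_mod_cast Nat.succ_ne_zero n
      exact mul_left_cancel₀ hn h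
  rcases lt_or_ge n k with h | h
  · rw [H.out n k h, Nat.choose_eq_zero_of_lt h]
    simp
  · induction k with
    | zero => simp [base]
    | succ k ih =>
      have ih' := ih (by omega)
      have h1 := congrArg TrivSqZeroExt.fst (H.N1 n k)
      simp only [fst_mul, fst_pow, fst_sub, fst_add, fst_one, fst_natCast_DN, fst_inr,
        add_zero] at h1
      rw [ih'] at h1
      have hk : ((k : ℚ_[5]) + 1) ^ 4 ≠ 0 := by
        apply pow_ne_zero
        exact_mod_cast Nat.succ_ne_zero k
      have e1 : ((n.choose (k + 1) : ℕ) : ℚ_[5]) * ((k : ℚ_[5]) + 1) = (n.choose k : ℚ_[5]) * ((n : ℚ_[5]) - k) := by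
        have := Nat.choose_succ_right_eq n k
        have hh : ((n - k : ℕ) : ℚ_[5]) = (n : ℚ_[5]) - k := by
          rw [Nat.cast_sub (by omega)]
        rw [← hh]
        exact_mod_cast this
      have e2 : (((n + (k + 1)).choose (k + 1) : ℕ) : ℚ_[5]) * ((k : ℚ_[5]) + 1)
          = ((n + k).choose k : ℚ_[5]) * ((n : ℚ_[5]) + k + 1) := by
        have := Nat.add_one_mul_choose_eq (n + k) k
        have h3 : (n + (k + 1)) = n + k + 1 := by ring
        rw [h3]
        have h4 : ((n + k + 1 : ℕ) : ℚ_[5]) * ((n + k).choose k : ℚ_[5])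
            = ((n + k + 1).choose (k + 1) : ℚ_[5]) * ((k + 1 : ℕ) : ℚ_[5]) := by exact_mod_cast this
        push_cast at h4
        linear_combination -h4
      apply mul_left_cancel₀ hk
      rw [h1]
      push_cast
      calc _ = ((n.choose k : ℚ_[5]) * ((n : ℚ_[5]) - k)) ^ 2 *
            (((n + k).choose k : ℚ_[5]) * ((n : ℚ_[5]) + k + 1)) ^ 2 := by ring
        _ = _ := by rw [← e1, ← e2]; ring

end Pool.Agent.Apery5
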