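import Pool.Agent.Lib_MP_ae71a2_nt.Defs

set_option autoImplicit false

namespace Pool.Agent.Apery5

open Finset

/-! ### units -/

lemma isUnit_intCast {j : ℤ} (h : ¬ (5 : ℤ) ∣ j) : IsUnit ((j : ℤ) : ℤ_[5]) := by
  rw [PadicInt.isUnit_iff]
  have h1 := PadicInt.norm_int_lt_one_iff_dvd (p := 5) j
  have h2 : ¬ ‖(j : ℤ_[5])‖ < 1 := by
    rw [h1]; exact_mod_cast h
  exact le_antisymm (PadicInt.norm_le_one _) (not_lt.mp h2)

lemma isUnit_lin {j : ℤ} (h : ¬ (5 : ℤ) ∣ j) :
    IsUnit (PowerSeries.X + PowerSeries.C ((j : ℤ) : ℤ_[5])) := by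
  rw [PowerSeries.isUnit_iff_constantCoeff]
  simpa using isUnit_intCast h

lemma isUnit_dS (s : ℕ) (hs : s < 5) (l : ℤ) : IsUnit (dS s l) := by
  unfold dS
  rw [IsUnit.prod_iff]
  intro r hr
  rw [mem_erase, mem_range] at hr
  apply isUnit_lin
  omega

/-! ### periodic products -/

/-- product of a periodic function over a period -/
lemma prod_period {M : Type*} [CommMonoid M] (g : ℤ → M) (T : ℕ) (hg : ∀ l, g (l + T) = g l)
    (a : ℤ) : ∏ l ∈ range T, g (a + l) = ∏ l ∈ range T, g l := by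
  have step : ∀ a : ℤ, ∏ l ∈ range T, g (a + 1 + l) = ∏ l ∈ range T, g (a + l) := by
    intro a
    rcases T with _ | T
    · simp
    · rw [prod_range_succ, prod_range_succ']
      congr 1
      · apply prod_congr rfl
        intro l _
        congr 1
        push_cast
        ring
      · have := hg a
        rw [Nat.cast_zero, add_zero, ← this]
        push_cast
        congr 1
        ring
  have h1 : ∀ n : ℕ, ∏ l ∈ range T, g ((n : ℤ) + l) = ∏ l ∈ range T, g l := by
    intro n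
    induction n with
    | zero => simp
    | succ n ih => rw [← ih]; push_cast; exact step n
  have h2 : ∀ n : ℕ, ∏ l ∈ range T, g (-(n : ℤ) + l) = ∏ l ∈ range T, g l := by
    intro n
    induction n with
    | zero => simp
    | succ n ih =>
      rw [← ih, ← step (-((n + 1 : ℕ) : ℤ))]
      apply prod_congr rfl
      intro l _
      congr 1
      push_cast
      ring
  rcases Int.eq_nat_or_neg a with ⟨n, rfl | rfl⟩
  · exact h1 n
  · exact h2 n

/-- the same for decreasing arguments -/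
lemma prod_period_neg {M : Type*} [CommMonoid M] (g : ℤ → M) (T : ℕ)
    (hg : ∀ l, g (l + T) = g l) (a : ℤ) :
    ∏ l ∈ range T, g (a - l) = ∏ l ∈ range T, g l := by
  rw [← prod_range_reflect]
  rw [← prod_period g T hg (a - (T : ℤ) + 1)]
  apply prod_congr rfl
  intro l hl
  rw [mem_range] at hl
  congr 1
  have : ((T - 1 - l : ℕ) : ℤ) = T - 1 - l := by omega
  rw [this]
  ring

/-! ### reduction modulo `5^(i+1)` -/

/-- coefficientwise reduction -/
noncomputable def red (i : ℕ) : PowerSeries ℤ_[5] →+* PowerSeries (ZMod (5 ^ i)) :=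
  PowerSeries.map (PadicInt.toZModPow i)

lemma red_eq_iff (i : ℕ) (f g : PowerSeries ℤ_[5]) :
    red i f = red i g ↔ ∀ m, (5 : ℤ_[5]) ^ i ∣ PowerSeries.coeff m f - PowerSeries.coeff m g := by
  unfold red
  rw [PowerSeries.ext_iff]
  apply forall_congr'
  intro m
  rw [PowerSeries.coeff_map, PowerSeries.coeff_map, ← sub_eq_zero, ← map_sub, ← RingHom.mem_ker,
    PadicInt.ker_toZModPow, Ideal.mem_span_singleton]
  simp

lemma red_X (i : ℕ) : red i PowerSeries.X = PowerSeries.X := PowerSeries.map_X _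

lemma red_C (i : ℕ) (j : ℤ) :
    red i (PowerSeries.C ((j : ℤ) : ℤ_[5])) = PowerSeries.C ((j : ℤ) : ZMod (5 ^ i)) := by
  unfold red
  rw [PowerSeries.map_C, map_intCast]

lemma red_dS (i s : ℕ) (l l' : ℤ) (h : (5 : ℤ) ^ i ∣ l - l') :
    red (i + 1) (dS s l) = red (i + 1) (dS s l') := by
  unfold dS
  rw [map_prod, map_prod]
  apply prod_congr rfl
  intro r _
  rw [map_add, map_add, red_X, red_C, red_C]
  congr 2
  rw [ZMod.intCast_eq_intCast_iff_dvd_sub]
  push_cast
  obtain ⟨c, hc⟩ := h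
  refine ⟨-c, ?_⟩
  rw [pow_succ]
  linear_combination -5 * hc

lemma Theta_mul (s : ℕ) (hs : s < 5) (n : ℕ) :
    Theta s n * ∏ l ∈ range n, dS s (-(l : ℤ)) = ∏ l ∈ range n, dS s ((l : ℤ) + 1) := by
  unfold Theta
  rw [mul_assoc, Ring.inverse_mul_cancel, mul_one]
  rw [IsUnit.prod_iff]
  intro l _
  exact isUnit_dS s hs _

lemma red_Theta_add (i s : ℕ) (hs : s < 5) (n : ℕ) :
    red (i + 1) (Theta s (n + 5 ^ i)) = red (i + 1) (Theta s n) := by
  set g : ℤ → PowerSeries (ZMod (5 ^ (i + 1))) := fun l => red (i + 1) (dS s l) with hg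
  have hper : ∀ l, g (l + ((5 ^ i : ℕ) : ℤ)) = g l := by
    intro l
    apply red_dS
    push_cast
    simp
  set Q := ∏ l ∈ range (5 ^ i), g l with hQ
  have hQu : IsUnit Q := by
    rw [hQ, IsUnit.prod_iff]
    intro l _
    exact (isUnit_dS s hs _).map _
  have hΨu : IsUnit (∏ l ∈ range n, g (-(l : ℤ))) := by
    rw [IsUnit.prod_iff]
    intro l _
    exact (isUnit_dS s hs _).map _
  have h1 := congrArg (red (i + 1)) (Theta_mul s hs (n + 5 ^ i))
  have h2 := congrArg (red (i + 1)) (Theta_mul s hs n)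
  rw [map_mul, map_prod, map_prod] at h1 h2
  rw [prod_range_add, prod_range_add] at h1
  have h3 : ∏ l ∈ range (5 ^ i), red (i + 1) (dS s (-((n + l : ℕ) : ℤ))) = Q := by
    rw [hQ, ← prod_period_neg g (5 ^ i) hper (-(n : ℤ))]
    apply prod_congr rfl
    intro l _
    simp only [hg]
    congr 2
    push_cast
    ring
  have h4 : ∏ l ∈ range (5 ^ i), red (i + 1) (dS s (((n + l : ℕ) : ℤ) + 1)) = Q := by
    rw [hQ, ← prod_period g (5 ^ i) hper ((n : ℤ) + 1)]
    apply prod_congr rfl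
    intro l _
    simp only [hg]
    congr 2
    push_cast
    ring
  rw [h3, h4] at h1
  have hu : IsUnit ((∏ l ∈ range n, g (-(l : ℤ))) * Q) := hΨu.mul hQu
  apply hu.mul_right_cancel
  calc red (i + 1) (Theta s (n + 5 ^ i)) * ((∏ l ∈ range n, g (-(l : ℤ))) * Q)
      = (∏ l ∈ range n, red (i + 1) (dS s ((l : ℤ) + 1))) * Q := h1
    _ = red (i + 1) (Theta s n) * (∏ l ∈ range n, g (-(l : ℤ))) * Q := by rw [← h2]
    _ = _ := by rw [mul_assoc]

lemma kap_mul (s : ℕ) (hs0 : s ≠ 0) (hs : s < 5) (n : ℕ) :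
    kap s n * (PowerSeries.X - PowerSeries.C ((5 * n - s : ℤ) : ℤ_[5])) =
      PowerSeries.X - PowerSeries.C ((5 * n : ℤ) : ℤ_[5]) := by
  unfold kap
  rw [if_neg hs0, mul_assoc, Ring.inverse_mul_cancel, mul_one]
  have h := isUnit_lin (j := -(5 * (n : ℤ) - s)) (by omega)
  rw [sub_eq_add_neg, ← map_neg, ← Int.cast_neg]
  exact h

lemma isUnit_kap_den (s : ℕ) (hs0 : s ≠ 0) (hs : s < 5) (n : ℕ) :
    IsUnit (PowerSeries.X - PowerSeries.C ((5 * n - s : ℤ) : ℤ_[5])) := by
  have h := isUnit_lin (j := -(5 * (n : ℤ) - s)) (by omega)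
  rw [sub_eq_add_neg, ← map_neg, ← Int.cast_neg]
  exact h

lemma red_kap_add (i s : ℕ) (hs : s < 5) (n : ℕ) :
    red (i + 1) (kap s (n + 5 ^ i)) = red (i + 1) (kap s n) := by
  by_cases hs0 : s = 0
  · unfold kap; rw [if_pos hs0, if_pos hs0]
  have h1 := congrArg (red (i + 1)) (kap_mul s hs0 hs (n + 5 ^ i))
  have h2 := congrArg (red (i + 1)) (kap_mul s hs0 hs n)
  have hu := (isUnit_kap_den s hs0 hs n).map (red (i + 1))
  have key : ∀ j : ℤ, red (i + 1) (PowerSeries.C ((5 * ((n + 5 ^ i : ℕ) : ℤ) - j : ℤ) : ℤ_[5])) =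
      red (i + 1) (PowerSeries.C ((5 * (n : ℤ) - j : ℤ) : ℤ_[5])) := by
    intro j
    rw [red_C, red_C]
    congr 1
    rw [ZMod.intCast_eq_intCast_iff_dvd_sub]
    refine ⟨-1, ?_⟩
    push_cast
    ring
  have key0 := key 0
  simp only [sub_zero] at key0
  rw [map_mul, map_sub, map_sub, red_X, key, key0] at h1
  rw [map_mul, map_sub, map_sub, red_X] at h2
  rw [map_sub, red_X] at hu
  exact hu.mul_right_cancel (h1.trans h2.symm)

lemma red_hS_add (i n : ℕ) : red (i + 1) (hS (n + 5 ^ i)) = red (i + 1) (hS n) := by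
  unfold hS
  rw [map_sum, map_sum]
  apply sum_congr rfl
  intro s hs
  rw [mem_range] at hs
  rw [map_pow, map_pow, map_mul, map_mul, red_Theta_add i s hs, red_kap_add i s hs]

lemma red_hS_add_mul (i n k : ℕ) : red (i + 1) (hS (n + 5 ^ i * k)) = red (i + 1) (hS n) := by
  induction k with
  | zero => simp
  | succ k ih =>
    have h1 : n + 5 ^ i * (k + 1) = n + 5 ^ i * k + 5 ^ i := by ring
    rw [h1, red_hS_add, ih]

theorem hS_lip (i n n' : ℕ) (h : n ≡ n' [MOD 5 ^ i]) (m : ℕ) :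
    (5 : ℤ_[5]) ^ (i + 1) ∣ PowerSeries.coeff m (hS n) - PowerSeries.coeff m (hS n') := by
  have key : red (i + 1) (hS n) = red (i + 1) (hS n') := by
    have h1 : ∀ n : ℕ, red (i + 1) (hS n) = red (i + 1) (hS (n % 5 ^ i)) := by
      intro n
      conv_lhs => rw [← Nat.mod_add_div n (5 ^ i)]
      exact red_hS_add_mul _ _ _
    rw [h1 n, h1 n', h]
  exact (red_eq_iff _ _ _).mp key m

lemma Theta_zero (s : ℕ) : Theta s 0 = 1 := by
  unfold Theta
  simp

lemma kap_zero (s : ℕ) (hs0 : s ≠ 0) (hs : s < 5) : ∃ g : PowerSeries ℤ_[5],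
    kap s 0 = PowerSeries.X * g ∧ PowerSeries.constantCoeff g * (s : ℤ_[5]) = 1 := by
  refine ⟨Ring.inverse (PowerSeries.X - PowerSeries.C ((5 * (0 : ℕ) - s : ℤ) : ℤ_[5])), ?_, ?_⟩
  · unfold kap
    rw [if_neg hs0]
    simp
  · have h1 := Ring.inverse_mul_cancel _ (isUnit_kap_den s hs0 hs 0)
    have h2 := congrArg PowerSeries.constantCoeff h1
    rw [map_mul, map_sub, PowerSeries.constantCoeff_X, PowerSeries.constantCoeff_C, map_one] at h2
    rw [← h2]
    congr 1
    push_cast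
    ring

theorem hS_coeff0 (n : ℕ) : (5 : ℤ_[5]) ∣ PowerSeries.coeff 0 (hS n) - 1 := by
  have h1 := hS_lip 0 n 0 (by simp [Nat.ModEq, Nat.mod_one]) 0
  have h2 : PowerSeries.coeff 0 (hS 0) = 1 := by
    unfold hS
    rw [sum_range_succ', map_add, map_sum]
    have h3 : ∑ s ∈ range 4, PowerSeries.coeff 0 ((Theta (s + 1) 0 * kap (s + 1) 0) ^ 2) =
        (0 : ℤ_[5]) := by
      apply sum_eq_zero
      intro s hs
      rw [mem_range] at hs
      obtain ⟨g, hg, _⟩ := kap_zero (s + 1) (by omega) (by omega)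
      rw [Theta_zero, hg, one_mul]
      simp
    rw [h3, Theta_zero]
    simp [kap]
  rw [h2] at h1
  simpa using h1

theorem hS_coeff2 (n : ℕ) : (5 : ℤ_[5]) ∣ PowerSeries.coeff 2 (hS n) := by
  have h1 := hS_lip 0 n 0 (by simp [Nat.ModEq, Nat.mod_one]) 2
  have h2 : (5 : ℤ_[5]) ∣ PowerSeries.coeff 2 (hS 0) := by
    have hdvd : ∀ x : ℤ_[5], (5 : ℤ_[5]) ∣ x ↔ PadicInt.toZMod x = 0 := by
      intro x
      rw [← RingHom.mem_ker, PadicInt.ker_toZMod, PadicInt.maximalIdeal_eq_span_p,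
        Ideal.mem_span_singleton]
      simp
    rw [hdvd]
    unfold hS
    rw [map_sum, map_sum]
    have h3 : ∀ s ∈ range 5, PadicInt.toZMod (PowerSeries.coeff 2 ((Theta s 0 * kap s 0) ^ 2)) =
        (s : ZMod 5) ^ 2 := by
      intro s hs
      rw [mem_range] at hs
      rw [Theta_zero, one_mul]
      by_cases hs0 : s = 0
      · subst hs0
        simp [kap, PowerSeries.coeff_one]
      · obtain ⟨g, hg, hg1⟩ := kap_zero s hs0 hs
        rw [hg, mul_pow]
        have h4 : PowerSeries.coeff 2 (PowerSeries.X ^ 2 * g ^ 2) =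
            PowerSeries.constantCoeff g ^ 2 := by
          have := PowerSeries.coeff_X_pow_mul (g ^ 2) 2 0
          rw [zero_add] at this
          rw [this]
          simp
        rw [h4, map_pow]
        have h5 := congrArg (PadicInt.toZMod (p := 5)) hg1
        rw [map_mul, map_natCast, map_one] at h5
        generalize PadicInt.toZMod (PowerSeries.constantCoeff g) = y at h5
        have h6 : ∀ x y : ZMod 5, y * x = 1 → y ^ 2 = x ^ 2 := by decide
        exact h6 _ y h5
    rw [sum_congr rfl h3]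
    decide
  have h3 : PowerSeries.coeff 2 (hS n) =
      (PowerSeries.coeff 2 (hS n) - PowerSeries.coeff 2 (hS 0)) + PowerSeries.coeff 2 (hS 0) := by
    ring
  rw [h3]
  exact dvd_add (by simpa using h1) h2

end Pool.Agent.Apery5
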