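import Pool.Agent.Lib_MP_ae71a2_nt.Defs

set_option autoImplicit false

namespace Pool.Agent.Apery5

open Finset TrivSqZeroExt

lemma norm_five : ‖(5 : ℚ_[5])‖ = 1 / 5 := by
  have := Padic.norm_p (p := 5)
  simpa using this

lemma norm_evalPt_lt (K : ℕ) : ‖(inl (5 * (K : ℚ_[5])) + inr 5 : DN)‖ ≤ 2 / 5 := by
  rw [TrivSqZeroExt.norm_def]
  simp only [fst_add, fst_inl, fst_inr, add_zero, snd_add, snd_inl, snd_inr, zero_add]
  rw [norm_mul, norm_five]
  have h1 : ‖(K : ℚ_[5])‖ ≤ 1 := by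
    have := Padic.norm_int_le_one (p := 5) (K : ℤ)
    simpa using this
  linarith

lemma norm_term_le (K : ℕ) (f : PowerSeries ℤ_[5]) (m : ℕ) :
    ‖(inl ((PowerSeries.coeff m f : ℤ_[5]) : ℚ_[5]) : DN) *
        (inl (5 * (K : ℚ_[5])) + inr 5) ^ m‖ ≤ (2 / 5) ^ m := by
  calc ‖(inl ((PowerSeries.coeff m f : ℤ_[5]) : ℚ_[5]) : DN) *
        (inl (5 * (K : ℚ_[5])) + inr 5) ^ m‖
      ≤ ‖(inl ((PowerSeries.coeff m f : ℤ_[5]) : ℚ_[5]) : DN)‖ *
        ‖(inl (5 * (K : ℚ_[5])) + inr 5 : DN) ^ m‖ := norm_mul_le _ _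
    _ ≤ 1 * (2 / 5) ^ m := by
        apply mul_le_mul _ _ (norm_nonneg _) zero_le_one
        · rw [TrivSqZeroExt.norm_inl]
          exact PadicInt.norm_le_one _
        · exact (norm_pow_le _ _).trans
            (pow_le_pow_left₀ (norm_nonneg _) (norm_evalPt_lt K) m)
    _ = (2 / 5) ^ m := one_mul _

lemma summable_term_norm (K : ℕ) (f : PowerSeries ℤ_[5]) :
    Summable (fun m : ℕ => ‖(inl ((PowerSeries.coeff m f : ℤ_[5]) : ℚ_[5]) : DN) *
        (inl (5 * (K : ℚ_[5])) + inr 5) ^ m‖) :=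
  Summable.of_nonneg_of_le (fun _ => norm_nonneg _) (norm_term_le K f)
    (summable_geometric_of_lt_one (by norm_num) (by norm_num))

lemma summable_term (K : ℕ) (f : PowerSeries ℤ_[5]) :
    Summable (fun m : ℕ => (inl ((PowerSeries.coeff m f : ℤ_[5]) : ℚ_[5]) : DN) *
        (inl (5 * (K : ℚ_[5])) + inr 5) ^ m) :=
  (summable_term_norm K f).of_norm

/-- evaluation at `5 (K + ε)` -/
noncomputable def evalHom (K : ℕ) : PowerSeries ℤ_[5] →+* DN where
  toFun f := ∑' m : ℕ, (inl ((PowerSeries.coeff m f : ℤ_[5]) : ℚ_[5]) : DN) *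
        (inl (5 * (K : ℚ_[5])) + inr 5) ^ m
  map_one' := by
    rw [tsum_eq_single 0]
    · simp
    · intro m hm
      rw [PowerSeries.coeff_one, if_neg hm]
      simp
  map_zero' := by simp
  map_add' f g := by
    rw [← (summable_term K f).tsum_add (summable_term K g)]
    congr 1
    ext1 m
    rw [← add_mul]
    congr 1
    simp
  map_mul' f g := by
    rw [tsum_mul_tsum_eq_tsum_sum_antidiagonal_of_summable_norm (summable_term_norm K f)
      (summable_term_norm K g)]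
    congr 1
    ext1 m
    rw [PowerSeries.coeff_mul]
    have h1 : (((∑ p ∈ antidiagonal m, PowerSeries.coeff p.1 f * PowerSeries.coeff p.2 g : ℤ_[5])) :
        ℚ_[5]) = ∑ p ∈ antidiagonal m, ((PowerSeries.coeff p.1 f : ℤ_[5]) : ℚ_[5]) *
          ((PowerSeries.coeff p.2 g : ℤ_[5]) : ℚ_[5]) := by
      have := map_sum (PadicInt.Coe.ringHom (p := 5))
        (fun p => PowerSeries.coeff p.1 f * PowerSeries.coeff p.2 g) (antidiagonal m)
      simp only [map_mul] at this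
      exact this
    rw [h1]
    have h2 : (inl (∑ p ∈ antidiagonal m, ((PowerSeries.coeff p.1 f : ℤ_[5]) : ℚ_[5]) *
          ((PowerSeries.coeff p.2 g : ℤ_[5]) : ℚ_[5])) : DN) =
        ∑ p ∈ antidiagonal m, (inl ((PowerSeries.coeff p.1 f : ℤ_[5]) : ℚ_[5]) : DN) *
          inl ((PowerSeries.coeff p.2 g : ℤ_[5]) : ℚ_[5]) := by
      rw [← TrivSqZeroExt.inlHom_apply, map_sum]
      simp
    rw [h2, Finset.sum_mul]
    apply Finset.sum_congr rfl
    intro p hp
    rw [← mem_antidiagonal.mp hp, pow_add]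
    ring

/-- evaluation at `5 (K + ε)` -/
theorem exists_eval (K : ℕ) : ∃ φ : PowerSeries ℤ_[5] →+* DN,
    (∀ f : PowerSeries ℤ_[5], HasSum (fun m : ℕ =>
      (inl ((PowerSeries.coeff m f : ℤ_[5]) : ℚ_[5]) : DN) *
        (inl (5 * (K : ℚ_[5])) + inr 5) ^ m) (φ f)) ∧
    φ PowerSeries.X = inl (5 * (K : ℚ_[5])) + inr 5 ∧
    ∀ a : ℤ_[5], φ (PowerSeries.C a) = inl (a : ℚ_[5]) := by
  refine ⟨evalHom K, fun f => (summable_term K f).hasSum, ?_, ?_⟩
  · change (∑' m : ℕ, (inl ((PowerSeries.coeff m (PowerSeries.X : PowerSeries ℤ_[5]) : ℤ_[5]) :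
      ℚ_[5]) : DN) * (inl (5 * (K : ℚ_[5])) + inr 5) ^ m) = _
    rw [tsum_eq_single 1]
    · simp
    · intro m hm
      rw [PowerSeries.coeff_X, if_neg hm]
      simp
  · intro a
    change (∑' m : ℕ, (inl ((PowerSeries.coeff m (PowerSeries.C a : PowerSeries ℤ_[5]) : ℤ_[5]) :
      ℚ_[5]) : DN) * (inl (5 * (K : ℚ_[5])) + inr 5) ^ m) = _
    rw [tsum_eq_single 0]
    · simp
    · intro m hm
      rw [PowerSeries.coeff_C, if_neg hm]
      simp

end Pool.Agent.Apery5
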