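import Pool.Agent.Lib_MP_ae71a2_nt.B1

set_option autoImplicit false

namespace Pool.Agent.Apery5

open Finset TrivSqZeroExt

lemma prod_range_five_mul {S : Type*} [CommRing S] (n : ℕ) (f : ℕ → S) :
    ∏ i ∈ range (5 * n), f i = ∏ l ∈ range n, ∏ r ∈ range 5, f (5 * l + r) := by
  induction n with
  | zero => simp
  | succ n ih =>
    rw [show 5 * (n + 1) = 5 * n + 5 by ring, prod_range_add, ih,
      prod_range_succ (fun l => ∏ r ∈ range 5, f (5 * l + r)) n]

/-- the image of `dS s l` under a ring homomorphism -/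
lemma map_dS {S : Type*} [CommRing S] (φ : PowerSeries ℤ_[5] →+* S) (s : ℕ) (l : ℤ) :
    φ (dS s l) = ∏ r ∈ (range 5).erase s, (φ PowerSeries.X + ((5 * l + s - r : ℤ) : S)) := by
  unfold dS
  rw [map_prod]
  refine prod_congr rfl fun r _ => ?_
  rw [map_add]
  congr 1
  rw [map_intCast, map_intCast]

lemma num_block {S : Type*} [CommRing S] (s : ℕ) (hs : s < 5) (z : S) :
    ∏ r ∈ range 5, (z + s + 1 + r) = (z + 5) * ∏ r ∈ (range 5).erase s, (z + 5 + s - r) := by
  have h5 : (range 5 : Finset ℕ) = {0, 1, 2, 3, 4} := rfl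
  rw [h5]
  interval_cases s
  · rw [show ({0, 1, 2, 3, 4} : Finset ℕ).erase 0 = {1, 2, 3, 4} from rfl]
    simp
    ring
  · rw [show ({0, 1, 2, 3, 4} : Finset ℕ).erase 1 = {0, 2, 3, 4} from rfl]
    simp
    ring
  · rw [show ({0, 1, 2, 3, 4} : Finset ℕ).erase 2 = {0, 1, 3, 4} from rfl]
    simp
    ring
  · rw [show ({0, 1, 2, 3, 4} : Finset ℕ).erase 3 = {0, 1, 2, 4} from rfl]
    simp
    ring
  · rw [show ({0, 1, 2, 3, 4} : Finset ℕ).erase 4 = {0, 1, 2, 3} from rfl]
    simp
    ring

lemma den_block {S : Type*} [CommRing S] (s : ℕ) (hs : s < 5) (z : S) :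
    ∏ r ∈ range 5, (z + s - r) = z * ∏ r ∈ (range 5).erase s, (z + s - r) := by
  rw [← mul_prod_erase (range 5) _ (mem_range.2 hs)]
  ring

section num_den

variable {S : Type*} [CommRing S] (φ : PowerSeries ℤ_[5] →+* S) (x : S)
  (hy : φ PowerSeries.X = 5 * x)

include hy

lemma RN_five (n s : ℕ) (hs : s < 5) :
    RN (5 * n) (5 * x + s) = 5 ^ n * RN n x * φ (∏ l ∈ range n, dS s ((l : ℤ) + 1)) := by
  unfold RN
  rw [prod_range_five_mul, map_prod]
  have : ∀ l ∈ range n, ∏ r ∈ range 5, (5 * x + s + 1 + ((5 * l + r : ℕ) : S))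
      = (5 * (x + 1 + l)) * φ (dS s ((l : ℤ) + 1)) := by
    intro l _
    rw [map_dS, hy]
    have h := num_block s hs (5 * x + 5 * l)
    rw [show (5 * (x + 1 + (l : S))) = 5 * x + 5 * l + 5 by ring]
    calc _ = ∏ r ∈ range 5, (5 * x + 5 * l + s + 1 + (r : S)) := by
          refine prod_congr rfl fun r _ => ?_
          push_cast
          ring
      _ = _ := by
          rw [h]
          congr 1
          refine prod_congr rfl fun r _ => ?_
          push_cast
          ring
  rw [prod_congr rfl this, prod_mul_distrib, prod_mul_distrib, prod_const, card_range]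

lemma den_five (n K s : ℕ) (hs : s < 5) :
    ∏ i ∈ range (5 * n), (if i = 5 * K + s then (1 : S) else (5 * x + s - (i : S)))
      = (∏ l ∈ range n, if l = K then (1 : S) else 5 * (x - (l : S))) *
        φ (∏ l ∈ range n, dS s (-(l : ℤ))) := by
  rw [prod_range_five_mul, map_prod, ← prod_mul_distrib]
  refine prod_congr rfl fun l _ => ?_
  rw [map_dS, hy]
  by_cases hl : l = K
  · subst hl
    rw [if_pos rfl, one_mul, ← mul_prod_erase (range 5) _ (mem_range.2 hs), if_pos rfl, one_mul]
    refine prod_congr rfl fun r hr => ?_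
    have : r ≠ s := (mem_erase.1 hr).1
    rw [if_neg (by omega)]
    push_cast
    ring
  · rw [if_neg hl]
    have h := den_block s hs (5 * x - 5 * l)
    calc _ = ∏ r ∈ range 5, (5 * x - 5 * l + s - (r : S)) := by
          refine prod_congr rfl fun r hr => ?_
          have : r < 5 := mem_range.1 hr
          rw [if_neg (by omega)]
          push_cast
          ring
      _ = _ := by
          rw [h, mul_sub]
          congr 1
          refine prod_congr rfl fun r _ => ?_
          push_cast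
          ring

omit hy in
lemma pow_five (n K : ℕ) (hK : K < n) :
    5 * (∏ l ∈ range n, if l = K then (1 : S) else 5 * (x - (l : S)))
      = 5 ^ n * ∏ l ∈ range n, if l = K then (1 : S) else (x - (l : S)) := by
  have h1 : ∏ l ∈ range n, (if l = K then (5 : S) else 1) = 5 := by
    rw [prod_ite_eq' (range n) K (fun _ => (5 : S)), if_pos (mem_range.2 hK)]
  calc _ = (∏ l ∈ range n, (if l = K then (5 : S) else 1)) *
        (∏ l ∈ range n, if l = K then (1 : S) else 5 * (x - (l : S))) := by rw [h1]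
    _ = ∏ l ∈ range n, (5 * if l = K then (1 : S) else (x - (l : S))) := by
        rw [← prod_mul_distrib]
        refine prod_congr rfl fun l _ => ?_
        split_ifs <;> ring
    _ = _ := by rw [prod_mul_distrib, prod_const, card_range]

omit hy in
lemma pow_five' (n : ℕ) :
    (∏ l ∈ range n, if l = n then (1 : S) else 5 * (x - (l : S)))
      = 5 ^ n * ∏ l ∈ range n, if l = n then (1 : S) else (x - (l : S)) := by
  have : ∀ l ∈ range n, (if l = n then (1 : S) else 5 * (x - (l : S)))
      = 5 * if l = n then (1 : S) else (x - (l : S)) := by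
    intro l hl
    have : l < n := mem_range.1 hl
    rw [if_neg (by omega), if_neg (by omega)]
  rw [prod_congr rfl this, prod_mul_distrib, prod_const, card_range]

/-- denominators, `s = 0` -/
lemma RD_five_zero (n K : ℕ) (hK : K ≤ n) :
    RD (5 * n) (5 * K) (5 * x) = 5 ^ n * RD n K x * φ (∏ l ∈ range n, dS 0 (-(l : ℤ))) := by
  have h := den_five φ x hy n K 0 (by norm_num)
  simp only [Nat.cast_zero, add_zero] at h
  unfold RD
  rw [prod_range_succ, h, prod_range_succ]
  rcases Nat.lt_or_ge K n with hK' | hK'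
  · rw [if_neg (by omega), if_neg (by omega)]
    have h5 := pow_five x n K hK'
    push_cast
    linear_combination (x - n) * (φ (∏ l ∈ range n, dS 0 (-(l : ℤ)))) * h5
  · have : K = n := le_antisymm hK hK'
    subst this
    rw [if_pos rfl, if_pos rfl, pow_five']
    ring

/-- denominators, `s > 0` -/
lemma RD_five_pos (n K s : ℕ) (hK : K < n) (hs : s < 5) (hs0 : 0 < s) :
    (5 * x - 5 * n) * RD (5 * n) (5 * K + s) (5 * x + s)
      = 5 ^ n * RD n K x * φ (∏ l ∈ range n, dS s (-(l : ℤ))) * (5 * x - 5 * n + s) := by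
  have h := den_five φ x hy n K s hs
  unfold RD
  rw [prod_range_succ, h, prod_range_succ, if_neg (by omega), if_neg (by omega)]
  have h5 := pow_five x n K hK
  push_cast
  linear_combination (x - n) * (φ (∏ l ∈ range n, dS s (-(l : ℤ)))) * (5 * x + s - 5 * n) * h5

end num_den

lemma isUnit_intCast_padic (m : ℤ) (h : ¬ (5 : ℤ) ∣ m) : IsUnit ((m : ℤ) : ℤ_[5]) := by
  rw [PadicInt.isUnit_iff]
  have h1 : ¬ ‖((m : ℤ) : ℤ_[5])‖ < 1 := by
    rw [PadicInt.norm_int_lt_one_iff_dvd]
    exact_mod_cast h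
  exact le_antisymm (PadicInt.norm_le_one _) (not_lt.1 h1)

private lemma isUnit_dS (s : ℕ) (hs : s < 5) (l : ℤ) : IsUnit (dS s l) := by
  unfold dS
  rw [PowerSeries.isUnit_iff_constantCoeff, map_prod]
  refine (IsUnit.prod_iff).2 fun r hr => ?_
  rw [map_add, PowerSeries.constantCoeff_X, PowerSeries.constantCoeff_C, zero_add]
  apply isUnit_intCast_padic
  have h1 := mem_erase.1 hr
  have h2 := mem_range.1 h1.2
  have h3 := h1.1
  omega

lemma isUnit_prod_dS (s : ℕ) (hs : s < 5) (n : ℕ) :
    IsUnit (∏ l ∈ range n, dS s (-(l : ℤ))) :=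
  (IsUnit.prod_iff).2 fun _ _ => isUnit_dS s hs _

private lemma isUnit_kap_den (s n : ℕ) (hs : s < 5) (hs0 : 0 < s) :
    IsUnit (PowerSeries.X - PowerSeries.C ((5 * n - s : ℤ) : ℤ_[5])) := by
  rw [PowerSeries.isUnit_iff_constantCoeff, map_sub, PowerSeries.constantCoeff_X,
    PowerSeries.constantCoeff_C, zero_sub, IsUnit.neg_iff]
  apply isUnit_intCast_padic
  omega

lemma fst_ne_zero_of_isUnit {a : DN} (h : IsUnit a) : a.fst ≠ 0 := by
  obtain ⟨b, hb⟩ := h.exists_right_inv
  intro h0
  have := congrArg TrivSqZeroExt.fst hb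
  rw [fst_mul, h0, zero_mul, fst_one] at this
  exact zero_ne_one this

lemma map_inverse_DN (φ : PowerSeries ℤ_[5] →+* DN) (f : PowerSeries ℤ_[5]) (hf : IsUnit f) :
    φ (Ring.inverse f) = (φ f)⁻¹ := by
  have h1 : φ f * φ (Ring.inverse f) = 1 := by
    rw [← map_mul, Ring.mul_inverse_cancel _ hf, map_one]
  have h2 : (φ f).fst ≠ 0 := fst_ne_zero_of_isUnit (hf.map φ)
  have h3 : φ f * (φ f)⁻¹ = 1 := TrivSqZeroExt.mul_inv_cancel h2
  linear_combination (φ f)⁻¹ * h1 - φ (Ring.inverse f) * h3

/-- B4: Frobenius relation.  `φ` will be evaluation at `X = 5 (K + ε)`. -/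
theorem Fd_frob (n K : ℕ) (hK : K ≤ n) (φ : PowerSeries ℤ_[5] →+* DN)
    (hX : φ PowerSeries.X = inl (5 * (K : ℚ_[5])) + inr 5)
    (hC : ∀ a : ℤ_[5], φ (PowerSeries.C a) = inl (a : ℚ_[5])) :
    ∑ s ∈ range 5, Fd 5 (5 * n) (5 * K + s) = Fd 1 n K * φ (hS n) := by
  set x : DN := (K : DN) + inr 1 with hx
  have hy : φ PowerSeries.X = 5 * x := by
    rw [hX, hx]
    have h5 : (5 : DN) = inl 5 := rfl
    have hKc : ((K : ℕ) : DN) = inl (K : ℚ_[5]) := rfl
    rw [h5, hKc, mul_add, inl_mul_inl, inl_mul_inr]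
    simp
  unfold hS
  rw [map_sum, mul_sum]
  refine sum_congr rfl fun s hs' => ?_
  have hs : s < 5 := mem_range.1 hs'
  rw [map_pow, map_mul]
  have hcast : (((5 * K + s : ℕ) : DN) + inr 5) = 5 * x + (s : DN) := by
    rw [← hy, hX]
    have hf5 : (5 : DN).fst = 5 := rfl
    have hs5 : (5 : DN).snd = 0 := rfl
    have hKc : ((5 * K + s : ℕ) : DN) = inl (5 * (K : ℚ_[5])) + (s : DN) := by
      ext
      · simp [hf5]
      · simp [hs5]
    rw [hKc]
    ring
  have hxK : x.fst = (K : ℚ_[5]) := by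
    rw [hx]; simp
  have hRDx : (RD n K x).fst ≠ 0 := fst_RD _ _ _
  have hPden : (φ (∏ l ∈ range n, dS s (-(l : ℤ)))).fst ≠ 0 :=
    fst_ne_zero_of_isUnit ((isUnit_prod_dS s hs n).map φ)
  have hTheta : φ (Theta s n) = φ (∏ l ∈ range n, dS s ((l : ℤ) + 1)) *
      (φ (∏ l ∈ range n, dS s (-(l : ℤ))))⁻¹ := by
    unfold Theta
    rw [map_mul, map_inverse_DN φ _ (isUnit_prod_dS s hs n)]
  have h5 : ((5 : DN)).fst ≠ 0 := by
    change (5 : ℚ_[5]) ≠ 0
    norm_num
  rcases Nat.eq_zero_or_pos s with h0 | hpos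
  · subst h0
    have hk : kap 0 n = 1 := by simp [kap]
    rw [hk, map_one, mul_one, hTheta]
    unfold Fd
    rw [if_pos (by omega), if_pos hK, ← hx, hcast]
    rw [← mul_pow]
    congr 1
    have h1 := RN_five φ x hy n 0 (by norm_num)
    have h2 := RD_five_zero φ x hy n K hK
    simp only [Nat.cast_zero, add_zero] at h1 ⊢
    rw [h1, h2]
    calc _ = (RN n x * φ (∏ l ∈ range n, dS 0 ((l : ℤ) + 1))) *
          (RD n K x * φ (∏ l ∈ range n, dS 0 (-(l : ℤ))))⁻¹ := by
          apply DN.mul_inv_eq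
          · rw [fst_mul, fst_mul, fst_pow]
            exact mul_ne_zero (mul_ne_zero (pow_ne_zero _ h5) hRDx) hPden
          · rw [fst_mul]
            exact mul_ne_zero hRDx hPden
          · ring
      _ = _ := by
          rw [TrivSqZeroExt.mul_inv_rev]
          ring
  · rcases Nat.lt_or_ge K n with hK' | hK'
    · have hkap : φ (kap s n) = (5 * x - 5 * n) * (5 * x - 5 * n + s)⁻¹ := by
        unfold kap
        rw [if_neg (by omega), map_mul, map_inverse_DN φ _ (isUnit_kap_den s n hs hpos), map_sub,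
          map_sub, hy, map_intCast, map_intCast, map_intCast, map_intCast]
        push_cast
        rw [show (5 * x - (5 * (n : DN) - s)) = 5 * x - 5 * n + s by ring]
      have hlast : (5 * x - 5 * n + s).fst ≠ 0 := by
        have := fst_ne_zero_of_isUnit ((isUnit_kap_den s n hs hpos).map φ)
        rw [map_sub, hy, map_intCast, map_intCast] at this
        push_cast at this
        rwa [show (5 * x - (5 * (n : DN) - s)) = 5 * x - 5 * n + s by ring] at this
      rw [hTheta, hkap]
      unfold Fd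
      rw [if_pos (by omega), if_pos hK, ← hx, hcast]
      rw [← mul_pow]
      congr 1
      have h1 := RN_five φ x hy n s hs
      have h2 := RD_five_pos φ x hy n K s hK' hs hpos
      rw [h1]
      calc _ = (RN n x * φ (∏ l ∈ range n, dS s ((l : ℤ) + 1)) * (5 * x - 5 * n)) *
            (RD n K x * φ (∏ l ∈ range n, dS s (-(l : ℤ))) * (5 * x - 5 * n + s))⁻¹ := by
            apply DN.mul_inv_eq
            · rw [← hcast]
              exact fst_RD _ _ _
            · rw [fst_mul, fst_mul]
              exact mul_ne_zero (mul_ne_zero hRDx hPden) hlast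
            · linear_combination (-(RN n x * φ (∏ l ∈ range n, dS s ((l : ℤ) + 1)))) * h2
        _ = _ := by
            rw [TrivSqZeroExt.mul_inv_rev, TrivSqZeroExt.mul_inv_rev]
            ring
    · have hKn : K = n := le_antisymm hK hK'
      have hkap : (φ (kap s n)) ^ 2 = 0 := by
        unfold kap
        rw [if_neg (by omega), map_mul, mul_pow, map_sub, hy, map_intCast, map_intCast]
        have : (5 * x - ((5 * (n : ℤ) : ℤ) : DN)) = inr 5 := by
          have hf5 : (5 : DN).fst = 5 := rfl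
          have hs5 : (5 : DN).snd = 0 := rfl
          rw [← hy, hX, hKn]
          ext
          · simp [hf5]
          · simp [hs5]
        rw [this, pow_two, inr_mul_inr, zero_mul]
      rw [mul_pow, hkap, mul_zero, mul_zero]
      unfold Fd
      rw [if_neg (by omega)]

end Pool.Agent.Apery5
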