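import Pool.Agent.Lib_MP_ae71a2_nt.Defs

set_option autoImplicit false

namespace Pool.Agent.Apery5

open Finset

/-- The Frobenius structure of the Apery numbers at the prime 5. -/
structure Frob (A B C D : ℕ → ℤ_[5]) : Prop where
  hrec : ∀ n : ℕ, ((n : ℤ_[5]) + 1) ^ 3 * u (n + 1) = P (n : ℤ_[5]) * u n - w n
  hu : ∀ n, u (5 * n) = A n * u n + 125 * B n * w n
  hw : ∀ n, w (5 * n) = 125 * (C n * u n + D n * w n)
  A1 : ∀ n, (5 : ℤ_[5]) ∣ A n - 1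
  D1 : ∀ n, (5 : ℤ_[5]) ∣ D n - 1
  lipA : ∀ i n n' : ℕ, n ≡ n' [MOD 5 ^ i] → (5 : ℤ_[5]) ^ (i + 1) ∣ A n - A n'
  lipB : ∀ i n n' : ℕ, n ≡ n' [MOD 5 ^ i] → (5 : ℤ_[5]) ^ i ∣ B n - B n'
  lipC : ∀ i n n' : ℕ, n ≡ n' [MOD 5 ^ i] → (5 : ℤ_[5]) ^ i ∣ C n - C n'
  lipD : ∀ i n n' : ℕ, n ≡ n' [MOD 5 ^ i] → (5 : ℤ_[5]) ^ (i + 1) ∣ D n - D n'

theorem ap_pos (n : ℕ) : 0 < ap n := by
  unfold ap
  refine Finset.sum_pos' (fun _ _ => Nat.zero_le _) ⟨0, by simp, by simp⟩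

theorem u_ne_zero (n : ℕ) : u n ≠ 0 := by
  unfold u
  exact_mod_cast (ap_pos n).ne'

theorem w_succ (n : ℕ) : w (n + 1) = ((n : ℤ_[5]) + 1) ^ 3 * u n := by
  simp [w]

/-- natural number congruence gives divisibility in `ℤ_[5]` -/
theorem natCast_dvd_of_modEq {i n n' : ℕ} (h : n ≡ n' [MOD 5 ^ i]) :
    (5 : ℤ_[5]) ^ i ∣ (n : ℤ_[5]) - (n' : ℤ_[5]) := by
  have h1 : ((5 ^ i : ℕ) : ℤ) ∣ (n' : ℤ) - (n : ℤ) := (Nat.modEq_iff_dvd).1 h
  obtain ⟨c, hc⟩ := h1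
  refine ⟨-(c : ℤ_[5]), ?_⟩
  have h2 : (((n' : ℤ) - (n : ℤ) : ℤ) : ℤ_[5]) = (((5 ^ i : ℕ) : ℤ) * c : ℤ) := by rw [hc]
  push_cast at h2
  linear_combination -h2

/-- an element of `ℤ_[5]` which is not divisible by 5 is a unit -/
theorem isUnit_iff_not_dvd (x : ℤ_[5]) : IsUnit x ↔ ¬ (5 : ℤ_[5]) ∣ x := by
  have h := (PadicInt.irreducible_p (p := 5))
  constructor
  · intro hx hd
    have : IsUnit ((5 : ℕ) : ℤ_[5]) := isUnit_of_dvd_unit (by exact_mod_cast hd) hx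
    exact h.not_isUnit this
  · intro hx
    by_contra hu
    apply hx
    rw [PadicInt.isUnit_iff] at hu
    have h1 : ‖x‖ < 1 := lt_of_le_of_ne (PadicInt.norm_le_one x) hu
    have := (PadicInt.norm_lt_one_iff_dvd x).1 h1
    exact_mod_cast this

theorem five_prime : Prime (5 : ℤ_[5]) := by
  have := (PadicInt.prime_p (p := 5))
  exact_mod_cast this

theorem five_ne_zero : (5 : ℤ_[5]) ≠ 0 := five_prime.ne_zero

/-- division of congruences -/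
theorem div_congr {d V V' T T' y y' : ℤ_[5]} (hV : IsUnit V) (h : V * y = T) (h' : V' * y' = T')
    (hd : d ∣ V - V') (ht : d ∣ T - T') : d ∣ y - y' := by
  have h1 : d ∣ V * (y - y') := by
    have : V * (y - y') = (T - T') - (V - V') * y' := by
      rw [← h, ← h']; ring
    rw [this]
    exact dvd_sub ht (Dvd.dvd.mul_right hd _)
  exact (hV.dvd_mul_left).1 h1

/-- `a * b ≡ a' * b'` -/
theorem mul_congr {R : Type*} [CommRing R] {d a a' b b' : R} (h1 : d ∣ a - a') (h2 : d ∣ b - b') :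
    d ∣ a * b - a' * b' := by
  have : a * b - a' * b' = (a - a') * b + a' * (b - b') := by ring
  rw [this]
  exact dvd_add (Dvd.dvd.mul_right h1 _) (Dvd.dvd.mul_left h2 _)

end Pool.Agent.Apery5
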