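import Pool.Agent.Lib_MP_ae71a2_nt.Config

set_option autoImplicit false

namespace Pool.Agent.Apery5

open Finset

section
variable (A B C D : ℕ → ℤ_[5])

def Good (σ : List ℕ) : Prop := ∃ m, Cfg A B C D m σ

end

section
variable {A B C D : ℕ → ℤ_[5]}

theorem top_lt {m L : ℕ} (hm : m < 5 ^ (L + 1)) : m / 5 ^ L < 5 := by
  rw [Nat.div_lt_iff_lt_mul (by positivity), mul_comm, ← pow_succ]; exact hm

/-- every configuration has an extension -/
theorem Cfg_one (hF : Frob A B C D) {m : ℕ} {σ : List ℕ} (h : Cfg A B C D m σ) :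
    ∃ ρ, Good A B C D (σ ++ [ρ]) := by
  obtain ⟨t1, t3, h1, h3, hd, e1, e3⟩ := Cfg_ext hF h
  by_cases h2 : t1 = 2
  · refine ⟨3, _, e3 (fun _ => ?_)⟩
    omega
  · exact ⟨1, _, e1 (fun _ => h2)⟩

/-- if the top digit is not 1 or 3 there are two extensions -/
theorem Cfg_two (hF : Frob A B C D) {m : ℕ} {σ : List ℕ} (h : Cfg A B C D m σ)
    (ht : ¬ (m / 5 ^ σ.length = 1 ∨ m / 5 ^ σ.length = 3)) :
    Good A B C D (σ ++ [1]) ∧ Good A B C D (σ ++ [3]) := by
  obtain ⟨t1, t3, h1, h3, hd, e1, e3⟩ := Cfg_ext hF h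
  exact ⟨⟨_, e1 (fun h => absurd h ht)⟩, ⟨_, e3 (fun h => absurd h ht)⟩⟩

theorem Cfg_top_ext {m t L : ℕ} (hm : m < 5 ^ L) :
    (m + 5 ^ L * t) / 5 ^ L = t := digit_eq hm

theorem branch (hF : Frob A B C D) {σ : List ℕ} (h : Good A B C D σ) :
    ∃ s1 s2 : List ℕ, s1.length = 2 ∧ s2.length = 2 ∧ s1 ≠ s2 ∧
      Good A B C D (σ ++ s1) ∧ Good A B C D (σ ++ s2) := by
  obtain ⟨m, h⟩ := h
  obtain ⟨t1, t3, h1, h3, hd, e1, e3⟩ := Cfg_ext hF h
  have hm := h.1
  -- both extensions available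
  have both : Cfg A B C D (m + 5 ^ (σ.length + 1) * t1) (σ ++ [1]) →
      Cfg A B C D (m + 5 ^ (σ.length + 1) * t3) (σ ++ [3]) →
      ∃ s1 s2 : List ℕ, s1.length = 2 ∧ s2.length = 2 ∧ s1 ≠ s2 ∧
      Good A B C D (σ ++ s1) ∧ Good A B C D (σ ++ s2) := by
    intro c1 c3
    obtain ⟨ρ1, g1⟩ := Cfg_one hF c1
    obtain ⟨ρ3, g3⟩ := Cfg_one hF c3
    refine ⟨[1, ρ1], [3, ρ3], rfl, rfl, by simp, ?_, ?_⟩
    · simpa using g1
    · simpa using g3
  by_cases ht : (m / 5 ^ σ.length = 1 ∨ m / 5 ^ σ.length = 3)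
  · by_cases h12 : t1 = 2
    · -- use 3 only; t3 ∈ {0, 4}
      have c3 := e3 (fun _ => by omega)
      have hlen : (σ ++ [3]).length = σ.length + 1 := by simp
      have := Cfg_two hF c3 (by rw [hlen, Cfg_top_ext hm]; omega)
      refine ⟨[3, 1], [3, 3], rfl, rfl, by simp, ?_, ?_⟩
      · simpa using this.1
      · simpa using this.2
    · by_cases h32 : t3 = 2
      · have c1 := e1 (fun _ => h12)
        have hlen : (σ ++ [1]).length = σ.length + 1 := by simp
        have := Cfg_two hF c1 (by rw [hlen, Cfg_top_ext hm]; omega)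
        refine ⟨[1, 1], [1, 3], rfl, rfl, by simp, ?_, ?_⟩
        · simpa using this.1
        · simpa using this.2
      · exact both (e1 fun _ => h12) (e3 fun _ => h32)
  · exact both (e1 fun h => absurd h ht) (e3 fun h => absurd h ht)

theorem good_nil (hF : Frob A B C D) : Good A B C D [] := by
  have hA : Adm 2 := by
    intro i hi
    rcases i with _ | i
    · norm_num at hi
    · have : 2 / 5 ^ (i + 1) = 0 := by
        apply Nat.div_eq_of_lt
        calc 2 < 5 ^ 1 := by norm_num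
          _ ≤ 5 ^ (i + 1) := Nat.pow_le_pow_right (by norm_num) (by omega)
      rw [this] at hi
      norm_num at hi
  obtain ⟨z, hz⟩ := exists_Z hF 2 hA
  refine ⟨2, by norm_num, by norm_num, hA, by intro x hx; simp at hx, z, hz, ?_⟩
  simp only [List.length_nil, zero_add, pow_one]
  unfold phi ee
  refine ⟨1575 - z, ?_⟩
  simp only [G]
  push_cast
  ring

theorem good_extend (hF : Frob A B C D) {σ : List ℕ} (h : Good A B C D σ) (j : ℕ) :
    ∃ s : List ℕ, s.length = j ∧ Good A B C D (σ ++ s) := by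
  induction j with
  | zero => exact ⟨[], rfl, by simpa using h⟩
  | succ j ih =>
    obtain ⟨s, hs, m, hg⟩ := ih
    obtain ⟨ρ, hρ⟩ := Cfg_one hF hg
    exact ⟨s ++ [ρ], by simp [hs], by simpa using hρ⟩

theorem many (hF : Frob A B C D) (n : ℕ) :
    ∃ (k : ℕ) (S : Finset (List ℕ)), n + 1 ≤ S.card ∧ ∀ σ ∈ S, σ.length = k ∧ Good A B C D σ := by
  classical
  induction n with
  | zero => exact ⟨0, {[]}, by simp, by simpa using good_nil hF⟩
  | succ n ih =>
    obtain ⟨k, S, hS, hg⟩ := ih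
    have hb : ∀ σ : List ℕ, ∃ s : List ℕ × List ℕ, Good A B C D σ →
        s.1.length = 2 ∧ s.2.length = 2 ∧ s.1 ≠ s.2 ∧ Good A B C D (σ ++ s.1) ∧
          Good A B C D (σ ++ s.2) := by
      intro σ
      by_cases h : Good A B C D σ
      · obtain ⟨s1, s2, h'⟩ := branch hF h
        exact ⟨(s1, s2), fun _ => h'⟩
      · exact ⟨([], []), fun h' => absurd h' h⟩
    choose s hs using hb
    obtain ⟨σ0, hσ0⟩ : S.Nonempty := Finset.card_pos.1 (by omega)
    have hinj : Set.InjOn (fun σ => σ ++ (s σ).1) (S : Set (List ℕ)) := by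
      intro σ hσ σ' hσ' h
      exact (List.append_inj h (by rw [(hg σ hσ).1, (hg σ' hσ').1])).1
    have hnot : σ0 ++ (s σ0).2 ∉ S.image (fun σ => σ ++ (s σ).1) := by
      intro h
      obtain ⟨σ, hσ, h⟩ := Finset.mem_image.1 h
      have h2 := List.append_inj h (by rw [(hg σ hσ).1, (hg σ0 hσ0).1])
      have h3 := hs σ0 (hg σ0 hσ0).2
      rw [h2.1] at h2
      exact h3.2.2.1 h2.2
    refine ⟨k + 2, insert (σ0 ++ (s σ0).2) (S.image (fun σ => σ ++ (s σ).1)), ?_, ?_⟩
    · rw [Finset.card_insert_of_notMem hnot, Finset.card_image_of_injOn hinj]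
      omega
    · intro σ hσ
      rcases Finset.mem_insert.1 hσ with h | h
      · subst h
        have h3 := hs σ0 (hg σ0 hσ0).2
        exact ⟨by rw [List.length_append, (hg σ0 hσ0).1, h3.2.1], h3.2.2.2.2⟩
      · obtain ⟨σ', hσ', rfl⟩ := Finset.mem_image.1 h
        have h3 := hs σ' (hg σ' hσ').2
        exact ⟨by rw [List.length_append, (hg σ' hσ').1, h3.1], h3.2.2.2.1⟩

theorem G_off (hF : Frob A B C D) : ∀ (p p' s s' : List ℕ) (M : ℕ), Dig (p ++ s) → Dig (p' ++ s') →
    p.length = p'.length → p ≠ p' → (M % 5 = 1 ∨ M % 5 = 3) →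
    ¬ (5 : ℤ_[5]) ^ p.length ∣ G A B C D (p ++ s) M 0 - G A B C D (p' ++ s') M 0 := by
  intro p
  induction p with
  | nil =>
    intro p' s s' M _ _ hl hne _
    exact absurd (List.length_eq_zero_iff.1 hl.symm).symm hne
  | cons ρ q ih =>
    intro p' s s' M hp hp' hl hne hM hdvd
    rcases p' with _ | ⟨ρ', q'⟩
    · simp at hl
    · simp only [List.cons_append] at hp hp' hdvd
      obtain ⟨hρ, hq⟩ := hp.cons
      obtain ⟨hρ', hq'⟩ := hp'.cons
      simp only [List.length_cons] at hl hdvd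
      have hl' : q.length = q'.length := by omega
      simp only [G] at hdvd
      by_cases heq : ρ = ρ'
      · subst heq
        have hne' : q ≠ q' := fun h => hne (by rw [h])
        apply ih q' s s' (5 * M + ρ) hq hq' hl' hne' (res_step hρ)
        obtain ⟨η, h1, h2⟩ := gam_diff hF hρ hM (G A B C D (q ++ s) (5 * M + ρ) 0)
          (G A B C D (q' ++ s') (5 * M + ρ) 0)
        rw [h2, pow_succ', mul_assoc] at hdvd
        have h3 := (mul_dvd_mul_iff_left five_ne_zero).1 hdvd
        have hη : IsUnit η := by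
          rw [isUnit_iff_rd]
          intro h0; rw [h0] at h1; revert h1; decide
        exact (hη.dvd_mul_left).1 h3
      · have h5 : (5 : ℤ_[5]) ∣ gam A B C D ρ M (G A B C D (q ++ s) (5 * M + ρ) 0)
            - gam A B C D ρ' M (G A B C D (q' ++ s') (5 * M + ρ') 0) :=
          (dvd_pow_self 5 (Nat.succ_ne_zero _)).trans hdvd
        rcases hρ with rfl | rfl <;> rcases hρ' with rfl | rfl
        · exact heq rfl
        · have h6 := gam_one_three hF hM (G A B C D (q ++ s) (5 * M + 1) 0)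
            (G A B C D (q' ++ s') (5 * M + 3) 0)
          rw [(rd_eq_zero _).2 h5] at h6
          revert h6; decide
        · have h6 := gam_one_three hF hM (G A B C D (q' ++ s') (5 * M + 1) 0)
            (G A B C D (q ++ s) (5 * M + 3) 0)
          have h7 : (5 : ℤ_[5]) ∣ gam A B C D 1 M (G A B C D (q' ++ s') (5 * M + 1) 0)
            - gam A B C D 3 M (G A B C D (q ++ s) (5 * M + 3) 0) := by
            have := (dvd_neg).2 h5
            rwa [neg_sub] at this
          rw [(rd_eq_zero _).2 h7] at h6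
          revert h6; decide
        · exact heq rfl

end

end Pool.Agent.Apery5
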