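import Pool.Agent.Lib_MP_ae71a2_nt.A

set_option autoImplicit false

/-! Part C: the first row of the Frobenius matrix, from parts A and B. -/

namespace Pool.Agent.Apery5

open Finset TrivSqZeroExt

section general
variable {S : Type*} [CommRing S] {δ : S} {F : ℕ → ℕ → S}

lemma HG.F10 (h : HG δ F) : F 1 0 = 1 + 4 * δ := by
  have h1 := h.N2 0 0 le_rfl
  rw [h.F00] at h1
  have hδ := h.sq
  push_cast at h1
  -- multiply by `(1+δ)^2`
  have h2 : (1 + δ) ^ 2 * ((0 + 1 - (0 + δ)) ^ 2 * F (0 + 1) 0) = F 1 0 := by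
    linear_combination (-2 + δ ^ 2) * F 1 0 * hδ
  rw [← h2, h1]
  linear_combination (6 + 4 * δ + δ ^ 2) * hδ

lemma HG.F11 (h : HG δ F) : F 1 1 = 4 - 4 * δ := by
  have h1 := h.N1 1 0
  rw [h.F10] at h1
  have hδ := h.sq
  push_cast at h1
  have h2 : (1 - δ) ^ 4 * ((0 + δ + 1) ^ 4 * F 1 (0 + 1)) = F 1 1 := by
    linear_combination (-4 + 6 * δ ^ 2 - 4 * δ ^ 4 + δ ^ 6) * F 1 1 * hδ
  rw [← h2, h1]
  linear_combination (-43 + 122 * δ - 109 * δ ^ 2 - 4 * δ ^ 3 + 59 * δ ^ 4 - 22 * δ ^ 5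
    - 7 * δ ^ 6 + 4 * δ ^ 7) * hδ

lemma HG.mom00 (h : HG δ F) : mom δ F 0 0 = 1 := by
  unfold mom; simp [h.F00]

lemma HG.mom10 (h : HG δ F) : mom δ F 1 0 = 5 := by
  unfold mom
  simp only [pow_zero, mul_one, sum_range_succ, range_zero, sum_empty, zero_add, h.F10, h.F11]
  ring

end general

/-- constants -/
noncomputable abbrev io : ℚ_[5] →+* DN := TrivSqZeroExt.inlHom ℚ_[5] ℚ_[5]

lemma io_apply (a : ℚ_[5]) : io a = inl a := rfl

lemma snd_io_mul (a : ℚ_[5]) (x : DN) : (io a * x).snd = a * x.snd := by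
  rw [io_apply, snd_mul]
  simp

lemma fst_io_mul (a : ℚ_[5]) (x : DN) : (io a * x).fst = a * x.fst := by
  rw [io_apply, fst_mul, fst_inl]

/-- the zeroth moment has no `ε` part -/
lemma snd_mom0 (c : ℚ_[5]) (h : HG (inr c : DN) (Fd c)) (n : ℕ) :
    (mom (inr c : DN) (Fd c) n 0).snd = 0 := by
  induction n using Nat.strong_induction_on with
  | _ n ih =>
    match n, ih with
    | 0, _ => rw [h.mom00]; simp
    | 1, _ =>
      rw [h.mom10]
      have : (5 : DN) = io 5 := (map_ofNat io 5).symm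
      rw [this, io_apply, snd_inl]
    | n + 2, ih =>
      have h1 := h.rec1 (n + 1) (by omega)
      have i1 := ih (n + 1) (by omega)
      have i2 := ih n (by omega)
      rw [Nat.add_sub_cancel] at h1
      have e1 : (((n + 1 : ℕ) : DN) + 1) ^ 3 = io ((((n + 1 : ℕ) : ℚ_[5]) + 1) ^ 3) := by
        simp only [map_pow, map_add, map_natCast, map_one]
      have e2 : P ((n + 1 : ℕ) : DN) = io (P ((n + 1 : ℕ) : ℚ_[5])) := by
        unfold P
        simp only [map_pow, map_add, map_natCast, map_mul, map_ofNat]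
      have e3 : ((n + 1 : ℕ) : DN) ^ 3 = io (((n + 1 : ℕ) : ℚ_[5]) ^ 3) := by
        simp only [map_pow, map_natCast]
      rw [e1, e2, e3] at h1
      have h2 := congrArg TrivSqZeroExt.snd h1
      rw [snd_sub, snd_io_mul, snd_io_mul, snd_io_mul, i1, i2, mul_zero, mul_zero, sub_zero] at h2
      have h3 : ((((n + 1 : ℕ) : ℚ_[5]) + 1) ^ 3) ≠ 0 := by
        have : ((n + 1 : ℕ) : ℚ_[5]) + 1 = ((n + 2 : ℕ) : ℚ_[5]) := by push_cast; ring
        rw [this]
        exact pow_ne_zero _ (Nat.cast_ne_zero.2 (by omega))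
      rcases mul_eq_zero.1 h2 with h4 | h4
      · exact absurd h4 h3
      · exact h4

lemma fst_mom0 (c : ℚ_[5])
    (hfst : ∀ n k, (Fd c n k).fst = (((n.choose k) ^ 2 * ((n + k).choose k) ^ 2 : ℕ) : ℚ_[5]))
    (n : ℕ) : (mom (inr c : DN) (Fd c) n 0).fst = ((u n : ℤ_[5]) : ℚ_[5]) := by
  unfold mom u ap
  rw [fst_sum]
  simp only [pow_zero, mul_one, hfst]
  rw [PadicInt.coe_natCast]
  push_cast
  rfl

lemma mom0_eq (c : ℚ_[5]) (h : HG (inr c : DN) (Fd c))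
    (hfst : ∀ n k, (Fd c n k).fst = (((n.choose k) ^ 2 * ((n + k).choose k) ^ 2 : ℕ) : ℚ_[5]))
    (n : ℕ) : mom (inr c : DN) (Fd c) n 0 = io ((u n : ℤ_[5]) : ℚ_[5]) := by
  ext
  · rw [fst_mom0 c hfst, io_apply, fst_inl]
  · rw [snd_mom0 c h, io_apply, snd_inl]

lemma mom_W (c : ℚ_[5]) (h : HG (inr c : DN) (Fd c))
    (hfst : ∀ n k, (Fd c n k).fst = (((n.choose k) ^ 2 * ((n + k).choose k) ^ 2 : ℕ) : ℚ_[5]))
    (n : ℕ) : 12 * mom (inr c : DN) (Fd c) n 2
        - 24 * (n : DN) * ((n : DN) + 1) * mom (inr c : DN) (Fd c) n 1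
        + (17 * (n : DN) ^ 3 + 12 * (n : DN) ^ 2) * mom (inr c : DN) (Fd c) n 0
      = io ((w n : ℤ_[5]) : ℚ_[5]) := by
  rcases Nat.eq_zero_or_pos n with h0 | h0
  · subst h0
    have e1 : mom (inr c : DN) (Fd c) 0 2 = 0 := by
      unfold mom
      rw [sum_range_one, Nat.cast_zero, zero_add, h.F00, one_mul, h.sq]
    rw [e1]
    have e2 : w 0 = 0 := by unfold w; simp
    rw [e2]
    simp
  · rw [← h.rec2 n h0, mom0_eq c h hfst]
    unfold w
    simp only [PadicInt.coe_mul, PadicInt.coe_pow, PadicInt.coe_natCast, map_mul, map_pow,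
      map_natCast]

lemma snd_mom1 (c : ℚ_[5]) (h : HG (inr c : DN) (Fd c)) (n : ℕ) :
    (mom (inr c : DN) (Fd c) n 1).snd = c := by
  induction n with
  | zero => unfold mom; simp [h.F00]
  | succ n ih =>
    have h2 := h.rec2 (n + 1) (by omega)
    have h3 := h.rec3 (n + 1) (by omega)
    rw [Nat.add_sub_cancel] at h2 h3
    have s1 := snd_mom0 c h (n + 1)
    have s0 := snd_mom0 c h n
    have h4 : 3 * (((n + 1 : ℕ) : DN) ^ 2 * mom (inr c : DN) (Fd c) n 1)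
        = ((n + 1 : ℕ) : DN) ^ 2 * (3 * mom (inr c : DN) (Fd c) (n + 1) 1)
          + (-2 * ((n + 1 : ℕ) : DN) ^ 3) * mom (inr c : DN) (Fd c) n 0
          + (2 * (17 * ((n + 1 : ℕ) : DN) ^ 3 + 12 * ((n + 1 : ℕ) : DN) ^ 2)
            - 3 * (12 * ((n + 1 : ℕ) : DN) ^ 3 + 8 * ((n + 1 : ℕ) : DN) ^ 2))
            * mom (inr c : DN) (Fd c) (n + 1) 0 := by
      linear_combination 3 * h3 + 2 * h2
    have e1 : 3 * (((n + 1 : ℕ) : DN) ^ 2 * mom (inr c : DN) (Fd c) n 1)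
        = io (3 * ((n + 1 : ℕ) : ℚ_[5]) ^ 2) * mom (inr c : DN) (Fd c) n 1 := by
      simp only [map_mul, map_pow, map_natCast, map_ofNat]; ring
    have e2 : ((n + 1 : ℕ) : DN) ^ 2 * (3 * mom (inr c : DN) (Fd c) (n + 1) 1)
        = io (3 * ((n + 1 : ℕ) : ℚ_[5]) ^ 2) * mom (inr c : DN) (Fd c) (n + 1) 1 := by
      simp only [map_mul, map_pow, map_natCast, map_ofNat]; ring
    have e3 : (-2 * ((n + 1 : ℕ) : DN) ^ 3) * mom (inr c : DN) (Fd c) n 0
        = io (-2 * ((n + 1 : ℕ) : ℚ_[5]) ^ 3) * mom (inr c : DN) (Fd c) n 0 := by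
      simp only [map_mul, map_pow, map_natCast, map_ofNat, map_neg]
    have e4 : (2 * (17 * ((n + 1 : ℕ) : DN) ^ 3 + 12 * ((n + 1 : ℕ) : DN) ^ 2)
            - 3 * (12 * ((n + 1 : ℕ) : DN) ^ 3 + 8 * ((n + 1 : ℕ) : DN) ^ 2))
            * mom (inr c : DN) (Fd c) (n + 1) 0
        = io (2 * (17 * ((n + 1 : ℕ) : ℚ_[5]) ^ 3 + 12 * ((n + 1 : ℕ) : ℚ_[5]) ^ 2)
            - 3 * (12 * ((n + 1 : ℕ) : ℚ_[5]) ^ 3 + 8 * ((n + 1 : ℕ) : ℚ_[5]) ^ 2))
            * mom (inr c : DN) (Fd c) (n + 1) 0 := by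
      simp only [map_mul, map_pow, map_natCast, map_ofNat, map_sub, map_add]
    rw [e1, e2, e3, e4] at h4
    have h5 := congrArg TrivSqZeroExt.snd h4
    simp only [snd_add, snd_io_mul, s0, s1, ih, mul_zero, add_zero] at h5
    have h6 : (3 * ((n + 1 : ℕ) : ℚ_[5]) ^ 2) ≠ 0 := by
      refine mul_ne_zero (by norm_num) (pow_ne_zero _ (Nat.cast_ne_zero.2 (by omega)))
    exact (mul_left_cancel₀ h6 h5).symm

/-! ### the coefficients `5^m / (12 (m-1)!)` -/

lemma exists_cc (m : ℕ) : ∃ c : ℤ_[5], 12 * (((m - 1).factorial : ℕ) : ℤ_[5]) * c = 5 ^ m ∧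
    (5 : ℤ_[5]) ^ (m - (m - 1) / 4) ∣ c := by
  set N := (m - 1).factorial with hN
  have hN0 : N ≠ 0 := Nat.factorial_ne_zero _
  obtain ⟨q, hq⟩ : 5 ^ (padicValNat 5 N) ∣ N := pow_padicValNat_dvd
  have hcop : ¬ 5 ∣ q := by
    rintro ⟨r, hr⟩
    apply pow_succ_padicValNat_not_dvd (p := 5) hN0
    refine ⟨r, ?_⟩
    rw [hr] at hq
    conv_lhs => rw [hq]
    ring
  have hv : padicValNat 5 N ≤ (m - 1) / 4 := by
    have := sub_one_mul_padicValNat_factorial (p := 5) (m - 1)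
    rw [← hN] at this
    omega
  have hunit : IsUnit ((12 * q : ℕ) : ℤ_[5]) := by
    rw [PadicInt.isUnit_iff, PadicInt.norm_natCast_eq_one_iff]
    have h1 : Nat.Coprime 5 q := (Nat.Prime.coprime_iff_not_dvd (by norm_num)).2 hcop
    exact Nat.Coprime.mul_right (by norm_num) h1
  obtain ⟨e, he⟩ := hunit.exists_right_inv
  have hle : padicValNat 5 N ≤ m := by omega
  refine ⟨5 ^ (m - padicValNat 5 N) * e, ?_, ?_⟩
  · have h1 : (N : ℤ_[5]) = 5 ^ (padicValNat 5 N) * (q : ℤ_[5]) := by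
      conv_lhs => rw [hq]
      push_cast
      ring
    rw [h1]
    have h2 : (5 : ℤ_[5]) ^ m = 5 ^ (padicValNat 5 N) * 5 ^ (m - padicValNat 5 N) := by
      rw [← pow_add]; congr 1; omega
    rw [h2]
    push_cast at he
    linear_combination (5 : ℤ_[5]) ^ (padicValNat 5 N) * 5 ^ (m - padicValNat 5 N) * he
  · refine Dvd.dvd.mul_right (pow_dvd_pow _ (by omega)) _

lemma norm_pow_dvd {k : ℕ} {x : ℤ_[5]} (h : (5 : ℤ_[5]) ^ k ∣ x) : ‖x‖ ≤ ((1 : ℝ) / 5) ^ k := by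
  obtain ⟨y, rfl⟩ := h
  rw [norm_mul, norm_pow]
  have h5 : ‖(5 : ℤ_[5])‖ = 1 / 5 := by
    have := PadicInt.norm_p (p := 5)
    simpa using this
  rw [h5]
  have := PadicInt.norm_le_one y
  have h6 : (0 : ℝ) ≤ ((1 : ℝ) / 5) ^ k := by positivity
  nlinarith

lemma summable_of_dvd (t : ℕ → ℤ_[5])
    (h : ∀ m, (5 : ℤ_[5]) ^ (m - (m - 1) / 4) ∣ t m) : Summable t := by
  apply Summable.of_norm_bounded (g := fun m : ℕ => ((1 : ℝ) / 2) ^ m)
    (summable_geometric_of_lt_one (by norm_num) (by norm_num))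
  intro m
  refine (norm_pow_dvd (h m)).trans ?_
  have h1 : m ≤ 2 * (m - (m - 1) / 4) := by omega
  calc ((1 : ℝ) / 5) ^ (m - (m - 1) / 4) ≤ ((1 : ℝ) / 4) ^ (m - (m - 1) / 4) :=
        pow_le_pow_left₀ (by norm_num) (by norm_num) _
    _ = ((1 : ℝ) / 2) ^ (2 * (m - (m - 1) / 4)) := by rw [pow_mul]; norm_num
    _ ≤ ((1 : ℝ) / 2) ^ m := pow_le_pow_of_le_one (by norm_num) (by norm_num) h1

lemma dvd_tsum {k : ℕ} (t : ℕ → ℤ_[5]) (hs : Summable t) (h : ∀ m, (5 : ℤ_[5]) ^ k ∣ t m) :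
    (5 : ℤ_[5]) ^ k ∣ ∑' m, t m := by
  choose s hs' using h
  have h5 : (5 : ℤ_[5]) ^ k ≠ 0 := pow_ne_zero _ (by norm_num)
  have hsum : Summable s := by
    have hn : ∀ m, ‖s m‖ = (5 : ℝ) ^ k * ‖t m‖ := by
      intro m
      rw [hs' m, norm_mul, norm_pow]
      have h5 : ‖(5 : ℤ_[5])‖ = 1 / 5 := by
        have := PadicInt.norm_p (p := 5)
        simpa using this
      rw [h5, one_div, inv_pow]
      field_simp
    apply NonarchimedeanAddGroup.summable_of_tendsto_cofinite_zero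
    rw [tendsto_zero_iff_norm_tendsto_zero]
    have h1 := hs.tendsto_cofinite_zero
    rw [tendsto_zero_iff_norm_tendsto_zero] at h1
    have h2 := h1.const_mul ((5 : ℝ) ^ k)
    rw [mul_zero] at h2
    exact h2.congr (fun m => (hn m).symm)
  have h1 : (fun m => t m) = fun m => (5 : ℤ_[5]) ^ k * s m := funext hs'
  refine ⟨∑' m, s m, ?_⟩
  rw [← hsum.tsum_mul_left]
  congr 1

/-! ### the main computation -/

theorem frob_row1_of
    (hHG : ∀ c : ℚ_[5], HG (inr c : DN) (Fd c))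
    (hfst : ∀ (c : ℚ_[5]) (n k : ℕ),
      (Fd c n k).fst = (((n.choose k) ^ 2 * ((n + k).choose k) ^ 2 : ℕ) : ℚ_[5]))
    (hfrob : ∀ (n K : ℕ), K ≤ n → ∀ (φ : PowerSeries ℤ_[5] →+* DN),
      φ PowerSeries.X = inl (5 * (K : ℚ_[5])) + inr 5 →
      (∀ a : ℤ_[5], φ (PowerSeries.C a) = inl (a : ℚ_[5])) →
      ∑ s ∈ range 5, Fd 5 (5 * n) (5 * K + s) = Fd 1 n K * φ (hS n))
    (hc0 : ∀ n : ℕ, (5 : ℤ_[5]) ∣ PowerSeries.coeff 0 (hS n) - 1)
    (hc2 : ∀ n : ℕ, (5 : ℤ_[5]) ∣ PowerSeries.coeff 2 (hS n))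
    (hlip : ∀ (i n n' : ℕ), n ≡ n' [MOD 5 ^ i] → ∀ (m : ℕ),
      (5 : ℤ_[5]) ^ (i + 1) ∣ PowerSeries.coeff m (hS n) - PowerSeries.coeff m (hS n'))
    (heval : ∀ K : ℕ, ∃ φ : PowerSeries ℤ_[5] →+* DN,
      (∀ f : PowerSeries ℤ_[5], HasSum (fun m : ℕ =>
        (inl ((PowerSeries.coeff m f : ℤ_[5]) : ℚ_[5]) : DN) *
          (inl (5 * (K : ℚ_[5])) + inr 5) ^ m) (φ f)) ∧
      φ PowerSeries.X = inl (5 * (K : ℚ_[5])) + inr 5 ∧
      ∀ a : ℤ_[5], φ (PowerSeries.C a) = inl (a : ℚ_[5])) :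
    ∃ A B : ℕ → ℤ_[5],
    (∀ n, u (5 * n) = A n * u n + 125 * B n * w n) ∧
    (∀ n, (5 : ℤ_[5]) ∣ A n - 1) ∧
    (∀ i n n' : ℕ, n ≡ n' [MOD 5 ^ i] → (5 : ℤ_[5]) ^ (i + 1) ∣ A n - A n') ∧
    (∀ i n n' : ℕ, n ≡ n' [MOD 5 ^ i] → (5 : ℤ_[5]) ^ i ∣ B n - B n') := by
  obtain ⟨A, G, B, hA0, hG0, hB0, hA1, hG1, hB1, hred⟩ := (hHG 1).reduce
  choose cc hcc hccd using exists_cc
  -- coefficient sequences
  set h : ℕ → ℕ → ℤ_[5] := fun n m => PowerSeries.coeff m (hS n) with hh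
  set tA : ℕ → ℕ → ℤ_[5] := fun n m => h n m * cc m * (((A m).eval (n : ℤ) : ℤ) : ℤ_[5]) with htA
  set tG : ℕ → ℕ → ℤ_[5] := fun n m => h n m * cc m * (((G m).eval (n : ℤ) : ℤ) : ℤ_[5]) with htG
  set tB : ℕ → ℕ → ℤ_[5] := fun n m => h n m * cc m * (((B m).eval (n : ℤ) : ℤ) : ℤ_[5]) with htB
  have sA : ∀ n, Summable (tA n) := fun n => summable_of_dvd _ fun m =>
    ((hccd m).mul_left _).mul_right _
  have sG : ∀ n, Summable (tG n) := fun n => summable_of_dvd _ fun m =>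
    ((hccd m).mul_left _).mul_right _
  have sB : ∀ n, Summable (tB n) := fun n => summable_of_dvd _ fun m =>
    ((hccd m).mul_left _).mul_right _
  -- identity
  have hJ : ∀ n, u (5 * n) = (∑' m, tA n m) * u n + (∑' m, tB n m) * w n := by
    intro n
    choose φ hφs hφX hφC using heval
    -- J as a sum over blocks
    have hJ1 : ∑ K ∈ range (n + 1), Fd 1 n K * φ K (hS n)
        = io ((u (5 * n) : ℤ_[5]) : ℚ_[5]) := by
      rw [← mom0_eq 5 (hHG 5) (hfst 5) (5 * n)]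
      have e1 : ∀ K ∈ range (n + 1), Fd 1 n K * φ K (hS n)
          = ∑ s ∈ range 5, Fd 5 (5 * n) (K * 5 + s) := by
        intro K hK
        rw [← hfrob n K (by have := mem_range.1 hK; omega) (φ K) (hφX K) (hφC K)]
        apply sum_congr rfl
        intro s _
        rw [mul_comm 5 K]
      rw [sum_congr rfl e1]
      unfold mom
      simp only [pow_zero, mul_one]
      have e2 : ∀ N : ℕ, ∑ K ∈ range N, ∑ s ∈ range 5, Fd 5 (5 * n) (K * 5 + s)
          = ∑ k ∈ range (N * 5), Fd 5 (5 * n) k := by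
        intro N
        induction N with
        | zero => simp
        | succ N ih => rw [sum_range_succ, ih, show (N + 1) * 5 = N * 5 + 5 by ring, sum_range_add]
      rw [e2 (n + 1)]
      symm
      apply sum_subset
      · intro x hx
        rw [mem_range] at hx ⊢
        omega
      · intro x _ hx
        rw [mem_range] at hx
        exact (hHG 5).out _ _ (by omega)
    -- J as an infinite sum
    have hJ2 : HasSum (fun m : ℕ => io ((h n m * cc m : ℤ_[5]) : ℚ_[5]) *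
        (12 * (((m - 1).factorial : ℕ) : DN) * mom (inr (1 : ℚ_[5]) : DN) (Fd 1) n m))
        (io ((u (5 * n) : ℤ_[5]) : ℚ_[5])) := by
      rw [← hJ1]
      have e1 : ∀ K ∈ range (n + 1), HasSum (fun m : ℕ => Fd 1 n K *
          ((inl ((PowerSeries.coeff m (hS n) : ℤ_[5]) : ℚ_[5]) : DN) *
          (inl (5 * (K : ℚ_[5])) + inr 5) ^ m)) (Fd 1 n K * φ K (hS n)) :=
        fun K _ => (hφs K (hS n)).mul_left _
      have e2 := hasSum_sum e1
      convert e2 using 1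
      funext m
      unfold mom
      rw [mul_sum, mul_sum]
      apply sum_congr rfl
      intro K _
      have e3 : (inl (5 * (K : ℚ_[5])) + inr 5 : DN) = io 5 * ((K : DN) + inr 1) := by
        have e4 : (inl (5 * (K : ℚ_[5])) : DN) = io 5 * (K : DN) := by
          rw [← io_apply, map_mul, map_natCast]
        have e5 : (inr 5 : DN) = io 5 * inr 1 := by
          rw [io_apply, inl_mul_inr, smul_eq_mul, mul_one]
        rw [e4, e5]; ring
      rw [e3, mul_pow, ← map_pow]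
      have e6 : io ((h n m * cc m : ℤ_[5]) : ℚ_[5]) * (12 * (((m - 1).factorial : ℕ) : DN))
          = io ((PowerSeries.coeff m (hS n) : ℤ_[5]) : ℚ_[5]) * io (5 ^ m) := by
        have e7 : (12 * (((m - 1).factorial : ℕ) : DN))
            = io ((12 * (((m - 1).factorial : ℕ) : ℤ_[5]) : ℤ_[5]) : ℚ_[5]) := by
          rw [PadicInt.coe_mul, map_mul, PadicInt.coe_natCast, map_natCast]
          congr 1
        rw [e7, ← map_mul, ← map_mul, ← PadicInt.coe_mul]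
        congr 1
        have e8 : (h n m * cc m) * (12 * (((m - 1).factorial : ℕ) : ℤ_[5]))
            = h n m * 5 ^ m := by rw [← hcc m]; ring
        rw [e8, PadicInt.coe_mul, PadicInt.coe_pow]
        rfl
      calc io ((h n m * cc m : ℤ_[5]) : ℚ_[5]) * (12 * (((m - 1).factorial : ℕ) : DN) *
            (Fd 1 n K * ((K : DN) + inr 1) ^ m))
          = (io ((h n m * cc m : ℤ_[5]) : ℚ_[5]) * (12 * (((m - 1).factorial : ℕ) : DN))) *
            (Fd 1 n K * ((K : DN) + inr 1) ^ m) := by ring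
        _ = Fd 1 n K * (io ((PowerSeries.coeff m (hS n) : ℤ_[5]) : ℚ_[5]) *
            (io (5 ^ m) * ((K : DN) + inr 1) ^ m)) := by rw [e6]; ring
    -- expand by the reduction
    have hJ3 : HasSum (fun m : ℕ =>
        io ((tA n m : ℤ_[5]) : ℚ_[5]) * io ((u n : ℤ_[5]) : ℚ_[5])
        + io ((tG n m : ℤ_[5]) : ℚ_[5]) * mom (inr (1 : ℚ_[5]) : DN) (Fd 1) n 1
        + io ((tB n m : ℤ_[5]) : ℚ_[5]) * io ((w n : ℤ_[5]) : ℚ_[5]))
        (io ((u (5 * n) : ℤ_[5]) : ℚ_[5])) := by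
      convert hJ2 using 1
      funext m
      rw [hred m n, mom_W 1 (hHG 1) (hfst 1), mom0_eq 1 (hHG 1) (hfst 1)]
      have e1 : ∀ z : ℤ, ((z : ℤ) : DN) = io ((z : ℤ_[5]) : ℚ_[5]) := by
        intro z
        rw [PadicInt.coe_intCast, map_intCast]
      rw [e1, e1, e1]
      simp only [htA, htG, htB, PadicInt.coe_mul, map_mul]
      ring
    -- take components
    have hs := TrivSqZeroExt.hasSum_snd (h := hJ3)
    have hf := TrivSqZeroExt.hasSum_fst (h := hJ3)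
    simp only [snd_add, snd_io_mul, fst_add, fst_io_mul] at hs hf
    simp only [io_apply, snd_inl, fst_inl, mul_zero, zero_add, add_zero,
      snd_mom1 1 (hHG 1) n, mul_one] at hs hf
    -- G-part vanishes
    have cA : HasSum (fun m => ((tA n m : ℤ_[5]) : ℚ_[5])) ((∑' m, tA n m : ℤ_[5]) : ℚ_[5]) :=
      (sA n).hasSum.map (PadicInt.Coe.ringHom (p := 5)) continuous_subtype_val
    have cB : HasSum (fun m => ((tB n m : ℤ_[5]) : ℚ_[5])) ((∑' m, tB n m : ℤ_[5]) : ℚ_[5]) :=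
      (sB n).hasSum.map (PadicInt.Coe.ringHom (p := 5)) continuous_subtype_val
    have h1 := ((cA.mul_right ((u n : ℤ_[5]) : ℚ_[5])).add
      (hs.mul_right ((mom (inr (1 : ℚ_[5]) : DN) (Fd 1) n 1).fst))).add
      (cB.mul_right ((w n : ℤ_[5]) : ℚ_[5]))
    have h2 := hf.unique h1
    rw [zero_mul, add_zero] at h2
    apply PadicInt.ext
    rw [h2]
    simp only [PadicInt.coe_add, PadicInt.coe_mul]
  -- divisibility of the coefficients
  have hevdvd : ∀ (q : Polynomial ℤ) (i n n' : ℕ), n ≡ n' [MOD 5 ^ i] →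
      (5 : ℤ_[5]) ^ i ∣ ((q.eval (n : ℤ) : ℤ) : ℤ_[5]) - ((q.eval (n' : ℤ) : ℤ) : ℤ_[5]) := by
    intro q i n n' hnn
    have h1 : ((n : ℤ) - n') ∣ q.eval (n : ℤ) - q.eval (n' : ℤ) := q.sub_dvd_eval_sub _ _
    have h2 : ((5 : ℤ) ^ i) ∣ (n : ℤ) - n' := by
      have h3 := (Nat.modEq_iff_dvd.1 hnn.symm)
      simpa using h3
    have h3 := h2.trans h1
    have h4 := map_dvd (Int.castRingHom ℤ_[5]) h3
    simpa using h4
  have hA_1 : ∀ n, (5 : ℤ_[5]) ∣ (∑' m, tA n m) - 1 := by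
    intro n
    have h1 : (∑' m, tA n m) = tA n 0 + ∑' m, tA n (m + 1) := (sA n).tsum_eq_zero_add
    have h2 : (5 : ℤ_[5]) ^ 1 ∣ ∑' m, tA n (m + 1) := by
      apply dvd_tsum _ ((summable_nat_add_iff 1).2 (sA n))
      intro m
      have h3 := hccd (m + 1)
      refine Dvd.dvd.mul_right (Dvd.dvd.mul_left (dvd_trans (pow_dvd_pow _ ?_) h3) _) _
      omega
    have h3 : tA n 0 = h n 0 := by
      have h4 := hcc 0
      simp only [htA, hA0]
      simp only [Nat.zero_sub, Nat.factorial_zero, Nat.cast_one, mul_one, pow_zero] at h4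
      have h5 : ((Polynomial.eval (n : ℤ) (12 : Polynomial ℤ) : ℤ) : ℤ_[5]) = 12 := by
        have : (12 : Polynomial ℤ) = Polynomial.C 12 := rfl
        rw [this, Polynomial.eval_C]; norm_num
      rw [h5]
      linear_combination (h n 0) * h4
    rw [h1, h3]
    have h4 : h n 0 + ∑' m, tA n (m + 1) - 1 = (h n 0 - 1) + ∑' m, tA n (m + 1) := by ring
    rw [h4]
    rw [pow_one] at h2
    exact dvd_add (hc0 n) h2
  have hA_lip : ∀ i n n' : ℕ, n ≡ n' [MOD 5 ^ i] →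
      (5 : ℤ_[5]) ^ (i + 1) ∣ (∑' m, tA n m) - ∑' m, tA n' m := by
    intro i n n' hnn
    rw [← (sA n).tsum_sub (sA n')]
    apply dvd_tsum _ ((sA n).sub (sA n'))
    intro m
    have h1 : tA n m - tA n' m = (h n m - h n' m) * (cc m * (((A m).eval (n : ℤ) : ℤ) : ℤ_[5]))
        + h n' m * (cc m * ((((A m).eval (n : ℤ) : ℤ) : ℤ_[5])
          - (((A m).eval (n' : ℤ) : ℤ) : ℤ_[5]))) := by
      simp only [htA]; ring
    rw [h1]
    apply dvd_add
    · exact (hlip i n n' hnn m).mul_right _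
    · rcases Nat.eq_zero_or_pos m with hm | hm
      · subst hm
        rw [hA0]
        have : (12 : Polynomial ℤ) = Polynomial.C 12 := rfl
        rw [this, Polynomial.eval_C, Polynomial.eval_C]
        simp
      · apply Dvd.dvd.mul_left
        rw [pow_succ, mul_comm]
        apply mul_dvd_mul _ (hevdvd (A m) i n n' hnn)
        have h3 := hccd m
        exact dvd_trans (dvd_pow_self _ (by omega)) h3
  have hB_125 : ∀ n, (5 : ℤ_[5]) ^ 3 ∣ ∑' m, tB n m := by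
    intro n
    apply dvd_tsum _ (sB n)
    intro m
    rcases Nat.lt_or_ge m 3 with hm | hm
    · interval_cases m
      · simp [htB, hB0]
      · simp [htB, hB1]
      · simp only [htB]
        rw [pow_succ, mul_comm]
        apply Dvd.dvd.mul_right
        exact mul_dvd_mul (hc2 n) (dvd_trans (pow_dvd_pow _ (by norm_num)) (hccd 2))
    · refine Dvd.dvd.mul_right (Dvd.dvd.mul_left (dvd_trans (pow_dvd_pow _ ?_) (hccd m)) _) _
      omega
  have hB_lip : ∀ i n n' : ℕ, n ≡ n' [MOD 5 ^ i] →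
      (5 : ℤ_[5]) ^ (i + 3) ∣ (∑' m, tB n m) - ∑' m, tB n' m := by
    intro i n n' hnn
    rw [← (sB n).tsum_sub (sB n')]
    apply dvd_tsum _ ((sB n).sub (sB n'))
    intro m
    have h1 : tB n m - tB n' m = (h n m - h n' m) * (cc m * (((B m).eval (n : ℤ) : ℤ) : ℤ_[5]))
        + h n' m * (cc m * ((((B m).eval (n : ℤ) : ℤ) : ℤ_[5])
          - (((B m).eval (n' : ℤ) : ℤ) : ℤ_[5]))) := by
      simp only [htB]; ring
    rcases Nat.lt_or_ge m 3 with hm | hm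
    · interval_cases m
      · simp [htB, hB0]
      · simp [htB, hB1]
      · rw [h1]
        have hc : (5 : ℤ_[5]) ^ 2 ∣ cc 2 := dvd_trans (pow_dvd_pow _ (by norm_num)) (hccd 2)
        apply dvd_add
        · have e : (5 : ℤ_[5]) ^ (i + 3) = 5 ^ (i + 1) * 5 ^ 2 := by rw [← pow_add]
          rw [e]
          exact mul_dvd_mul (hlip i n n' hnn 2) (hc.mul_right _)
        · have e : (5 : ℤ_[5]) ^ (i + 3) = 5 * (5 ^ 2 * 5 ^ i) := by ring
          rw [e]
          exact mul_dvd_mul (hc2 n') (mul_dvd_mul hc (hevdvd (B 2) i n n' hnn))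
    · rw [h1]
      have hc : (5 : ℤ_[5]) ^ 3 ∣ cc m := dvd_trans (pow_dvd_pow _ (by omega)) (hccd m)
      apply dvd_add
      · have e : (5 : ℤ_[5]) ^ (i + 3) ∣ 5 ^ (i + 1) * 5 ^ 3 := by
          rw [← pow_add]; exact pow_dvd_pow _ (by omega)
        exact e.trans (mul_dvd_mul (hlip i n n' hnn m) (hc.mul_right _))
      · have e : (5 : ℤ_[5]) ^ (i + 3) = 5 ^ 3 * 5 ^ i := by rw [← pow_add, add_comm]
        rw [e]
        exact (mul_dvd_mul hc (hevdvd (B m) i n n' hnn)).mul_left _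
  choose Bq hBq using hB_125
  refine ⟨fun n => ∑' m, tA n m, Bq, ?_, hA_1, hA_lip, ?_⟩
  · intro n
    rw [hJ n, hBq n]
    norm_num
  · intro i n n' hnn
    have h1 := hB_lip i n n' hnn
    rw [hBq n, hBq n', ← mul_sub, add_comm i 3, pow_add] at h1
    exact (mul_dvd_mul_iff_left (pow_ne_zero 3 (by norm_num : (5 : ℤ_[5]) ≠ 0))).1 h1

end Pool.Agent.Apery5
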