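import Pool.Agent.Lib_MP_ae71a2_nt.Right

set_option autoImplicit false

namespace Pool.Agent.Apery5

open Finset

section
variable (A B C D : ℕ → ℤ_[5])

/-- the quantity governing the valuation of `u` at `[m 1 σ]` -/
noncomputable def phi (m : ℕ) (z : ℤ_[5]) (σ : List ℕ) : ℤ_[5] :=
  ee (m : ℤ_[5]) - 5 * z + 5 * (5 * (m : ℤ_[5]) + 1) ^ 6 * G A B C D σ (5 * m + 1) 0

/-- resonant configurations -/
def Cfg (m : ℕ) (σ : List ℕ) : Prop :=
  m < 5 ^ (σ.length + 1) ∧ m % 5 = 2 ∧ Adm m ∧ Dig σ ∧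
    ∃ z, Z m z ∧ (5 : ℤ_[5]) ^ (σ.length + 1) ∣ phi A B C D m z σ

end

section
variable {A B C D : ℕ → ℤ_[5]}

theorem res_one (m : ℕ) : (5 * m + 1) % 5 = 1 ∨ (5 * m + 1) % 5 = 3 := by omega

/-- the value of `u` at `[m 1 σ]` -/
theorem u_formula (hF : Frob A B C D) {m : ℕ} {z : ℤ_[5]} (hz : Z m z) {σ : List ℕ} (hσ : Dig σ) :
    ∃ κ : ℤ_[5], IsUnit κ ∧ u (val σ (5 * m + 1))
      = 5 ^ (σ.length + 1) * κ * phi A B C D m z σ * u (5 * m) := by
  obtain ⟨κ, hκ, h⟩ := u_val hF σ (5 * m + 1) 0 hσ (res_one m)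
  have hc : IsUnit ((5 * (m : ℤ_[5]) + 1) ^ 3) := by
    rw [isUnit_iff_rd]
    simp only [map_pow, map_add, map_mul, map_one, map_ofNat]
    generalize rd (m : ℤ_[5]) = x
    revert x; decide
  obtain ⟨c, hc⟩ := hc
  refine ⟨κ * ↑c⁻¹, hκ.mul (Units.isUnit _), ?_⟩
  have r0 := hF.hrec (5 * m)
  have w1 := w_succ (5 * m)
  push_cast at r0 w1
  rw [P_five] at r0
  unfold Z at hz
  rw [hz] at r0
  have h1 : (c : ℤ_[5]) * (u (5 * m + 1) + 25 * G A B C D σ (5 * m + 1) 0 * w (5 * m + 1))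
      = 5 * phi A B C D m z σ * u (5 * m) := by
    rw [hc, w1]; unfold phi
    linear_combination r0
  have h2 : (u (5 * m + 1) + 25 * G A B C D σ (5 * m + 1) 0 * w (5 * m + 1))
      = ↑c⁻¹ * (5 * phi A B C D m z σ * u (5 * m)) := by
    rw [← h1, ← mul_assoc, Units.inv_mul, one_mul]
  rw [mul_zero, zero_mul, add_zero] at h
  rw [h, h2]; ring

theorem digit_lt {m L t i : ℕ} (hi : i < L) :
    (m + 5 ^ L * t) / 5 ^ i % 5 = m / 5 ^ i % 5 := by
  obtain ⟨c, rfl⟩ : ∃ c, L = i + 1 + c := ⟨L - (i + 1), by omega⟩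
  have h1 : m + 5 ^ (i + 1 + c) * t = m + 5 ^ i * (5 * (5 ^ c * t)) := by ring
  rw [h1, Nat.add_mul_div_left _ _ (by positivity), Nat.add_mul_mod_self_left]

theorem digit_eq {m L t : ℕ} (hm : m < 5 ^ L) :
    (m + 5 ^ L * t) / 5 ^ L = t := by
  rw [Nat.add_mul_div_left _ _ (by positivity), Nat.div_eq_of_lt hm, zero_add]

theorem digit_gt {m L t i : ℕ} (hm : m < 5 ^ L) (ht : t < 5) (hi : L < i) :
    (m + 5 ^ L * t) / 5 ^ i = 0 := by
  obtain ⟨c, rfl⟩ : ∃ c, i = L + 1 + c := ⟨i - (L + 1), by omega⟩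
  rw [pow_add, pow_add, ← Nat.div_div_eq_div_mul, ← Nat.div_div_eq_div_mul, digit_eq hm]
  rw [pow_one, Nat.div_eq_of_lt ht, Nat.zero_div]

theorem Adm_ext {m L t : ℕ} (hm : m < 5 ^ (L + 1)) (hA : Adm m) (ht : t < 5)
    (h : (m / 5 ^ L = 1 ∨ m / 5 ^ L = 3) → t ≠ 2) : Adm (m + 5 ^ (L + 1) * t) := by
  intro i hi
  have htop : m / 5 ^ L < 5 := by
    rw [Nat.div_lt_iff_lt_mul (by positivity), mul_comm, ← pow_succ]; exact hm
  rcases lt_trichotomy i (L + 1) with h1 | h1 | h1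
  · rw [digit_lt h1] at hi
    rcases Nat.lt_or_ge i L with h2 | h2
    · rw [digit_lt (by omega)]; exact hA i hi
    · have h3 : i = L := by omega
      subst h3
      rw [digit_eq hm]
      rw [Nat.mod_eq_of_lt htop] at hi
      rw [Nat.mod_eq_of_lt ht]
      exact h hi
  · subst h1
    rw [digit_gt hm ht (by omega)]
    norm_num
  · rw [digit_gt hm ht h1] at hi
    omega

theorem rd_pow_six (x : ZMod 5) : (5 * x + 1) ^ 6 = 1 := by
  revert x; decide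

/-- the congruence for `phi` when a digit `t` is added to the left -/
theorem phi_ext (hF : Frob A B C D) {m L t : ℕ} {z z' : ℤ_[5]} (hm2 : m % 5 = 2) (hA : Adm m)
    (hA' : Adm (m + 5 ^ (L + 1) * t)) (hz : Z m z) (hz' : Z (m + 5 ^ (L + 1) * t) z')
    {σ : List ℕ} (hσ : Dig σ) :
    (5 : ℤ_[5]) ^ (L + 2) ∣ phi A B C D (m + 5 ^ (L + 1) * t) z' σ - phi A B C D m z σ
      - 5 ^ (L + 1) * (2 * (t : ℤ_[5])) := by
  have hmod : m + 5 ^ (L + 1) * t ≡ m [MOD 5 ^ (L + 1)] := by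
    unfold Nat.ModEq; rw [Nat.add_mul_mod_self_left]
  have h1 := z_lip_two hF L m _ z z' hA hA' hmod.symm hm2 hz hz'
  have h2 : 5 * (m + 5 ^ (L + 1) * t) + 1 ≡ 5 * m + 1 [MOD 5 ^ (L + 2)] := modEq_step hmod
  have h3 := G_congr hF σ (L + 2) _ _ 0 hσ (res_one _) (res_one m) h2
  have h4 := natCast_dvd_of_modEq h2
  set m' := m + 5 ^ (L + 1) * t with hm'
  have h5 : (m' : ℤ_[5]) - m = 5 ^ (L + 1) * t := by rw [hm']; push_cast; ring
  have h6 : (5 : ℤ_[5]) ^ (L + 2) ∣ ee (m' : ℤ_[5]) - ee (m : ℤ_[5]) - 5 ^ (L + 1) * (2 * (t : ℤ_[5])) := by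
    have : ee (m' : ℤ_[5]) - ee (m : ℤ_[5]) - 5 ^ (L + 1) * (2 * (t : ℤ_[5]))
      = 5 ^ (L + 2) * (t * (170 * ((m' : ℤ_[5]) ^ 2 + m' * m + m ^ 2) + 51 * (m' + m) + 5)) := by
      have e : (m' : ℤ_[5]) = m + 5 ^ (L + 1) * t := by linear_combination h5
      rw [e]; unfold ee; ring
    rw [this]; exact dvd_mul_right _ _
  have h7 : (5 : ℤ_[5]) ^ (L + 2) ∣ (5 * (m' : ℤ_[5]) + 1) ^ 6 * G A B C D σ (5 * m' + 1) 0
      - (5 * (m : ℤ_[5]) + 1) ^ 6 * G A B C D σ (5 * m + 1) 0 := by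
    refine mul_congr (pow_congr' 6 ?_) h3
    push_cast at h4
    exact h4
  have h8 : (5 : ℤ_[5]) ^ (L + 2) ∣ z' - z := by
    have := (dvd_neg).2 h1
    rwa [neg_sub] at this
  have e : phi A B C D m' z' σ - phi A B C D m z σ - 5 ^ (L + 1) * (2 * (t : ℤ_[5]))
      = (ee (m' : ℤ_[5]) - ee (m : ℤ_[5]) - 5 ^ (L + 1) * (2 * (t : ℤ_[5])))
        - 5 * (z' - z) + 5 * ((5 * (m' : ℤ_[5]) + 1) ^ 6 * G A B C D σ (5 * m' + 1) 0
      - (5 * (m : ℤ_[5]) + 1) ^ 6 * G A B C D σ (5 * m + 1) 0) := by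
    unfold phi; ring
  rw [e]
  exact dvd_add (dvd_sub h6 (Dvd.dvd.mul_left h8 _)) (Dvd.dvd.mul_left h7 _)

theorem Dig_append {σ σ' : List ℕ} : Dig (σ ++ σ') ↔ Dig σ ∧ Dig σ' := by
  unfold Dig
  constructor
  · intro h
    exact ⟨fun x hx => h x (by simp [hx]), fun x hx => h x (by simp [hx])⟩
  · rintro ⟨h1, h2⟩ x hx
    rcases List.mem_append.1 hx with h | h
    · exact h1 x h
    · exact h2 x h

theorem Dig_one : Dig [1] := by intro x hx; simp at hx; exact Or.inl hx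
theorem Dig_three : Dig [3] := by intro x hx; simp at hx; exact Or.inr hx

/-- extension of a configuration -/
theorem Cfg_ext (hF : Frob A B C D) {m : ℕ} {σ : List ℕ} (h : Cfg A B C D m σ) :
    ∃ t1 t3 : ℕ, t1 < 5 ∧ t3 < 5 ∧ ((t1 + 2) % 5 = t3 ∨ (t3 + 2) % 5 = t1) ∧
      (((m / 5 ^ σ.length = 1 ∨ m / 5 ^ σ.length = 3) → t1 ≠ 2) →
        Cfg A B C D (m + 5 ^ (σ.length + 1) * t1) (σ ++ [1])) ∧
      (((m / 5 ^ σ.length = 1 ∨ m / 5 ^ σ.length = 3) → t3 ≠ 2) →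
        Cfg A B C D (m + 5 ^ (σ.length + 1) * t3) (σ ++ [3])) := by
  obtain ⟨hm, hm2, hA, hσ, z, hz, c0, hc0⟩ := h
  set M := 5 * m + 1 with hM
  -- the general form
  have key : ∀ ρ, ρ = 1 ∨ ρ = 3 → ∃ c : ℤ_[5], phi A B C D m z (σ ++ [ρ]) = 5 ^ (σ.length + 1) * c := by
    intro ρ hρ
    obtain ⟨η, _, h2⟩ := G_diff hF σ M (gam A B C D ρ (val σ M) 0) 0 hσ (res_one m)
    refine ⟨c0 + (5 * (m : ℤ_[5]) + 1) ^ 6 * (η * gam A B C D ρ (val σ M) 0), ?_⟩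
    have e1 : G A B C D (σ ++ [ρ]) M 0 = G A B C D σ M (gam A B C D ρ (val σ M) 0) := by
      rw [G_append]; rfl
    have e2 : phi A B C D m z (σ ++ [ρ]) = phi A B C D m z σ + 5 * (5 * (m : ℤ_[5]) + 1) ^ 6 *
        (G A B C D σ M (gam A B C D ρ (val σ M) 0) - G A B C D σ M 0) := by
      unfold phi; rw [e1]; ring
    rw [e2, h2, hc0]; ring
  obtain ⟨c1, hc1⟩ := key 1 (Or.inl rfl)
  obtain ⟨c3, hc3⟩ := key 3 (Or.inr rfl)
  have hdiff : rd (c1 - c3) * rd (c1 - c3) = 1 := by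
    obtain ⟨η, h1, h2⟩ := G_diff hF σ M (gam A B C D 1 (val σ M) 0) (gam A B C D 3 (val σ M) 0) hσ
      (res_one m)
    have h3 := gam_one_three hF (val_res hσ (res_one m)) (0 : ℤ_[5]) 0
    have e1 : G A B C D (σ ++ [1]) M 0 = G A B C D σ M (gam A B C D 1 (val σ M) 0) := by
      rw [G_append]; rfl
    have e3 : G A B C D (σ ++ [3]) M 0 = G A B C D σ M (gam A B C D 3 (val σ M) 0) := by
      rw [G_append]; rfl
    have e : c1 - c3 = (5 * (m : ℤ_[5]) + 1) ^ 6 * (η * (gam A B C D 1 (val σ M) 0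
        - gam A B C D 3 (val σ M) 0)) := by
      have h5 : (5 : ℤ_[5]) ^ (σ.length + 1) ≠ 0 := pow_ne_zero _ five_ne_zero
      apply mul_left_cancel₀ h5
      rw [mul_sub, ← hc1, ← hc3]
      unfold phi
      rw [e1, e3]
      linear_combination (5 * (5 * (m : ℤ_[5]) + 1) ^ 6) * h2
    rw [e]
    simp only [map_mul, map_pow, map_add, map_one, map_ofNat, rd_pow_six, one_mul]
    rw [map_sub] at h3 ⊢
    calc _ = (rd η * rd η) * ((rd (gam A B C D 1 (val σ M) 0) - rd (gam A B C D 3 (val σ M) 0)) *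
          (rd (gam A B C D 1 (val σ M) 0) - rd (gam A B C D 3 (val σ M) 0))) := by ring
      _ = 1 := by rw [h1, h3, one_mul]
  -- digits
  have main : ∀ ρ, ρ = 1 ∨ ρ = 3 → ∀ c : ℤ_[5], phi A B C D m z (σ ++ [ρ]) = 5 ^ (σ.length + 1) * c →
      ((m / 5 ^ σ.length = 1 ∨ m / 5 ^ σ.length = 3) → (2 * rd c).val ≠ 2) →
        Cfg A B C D (m + 5 ^ (σ.length + 1) * (2 * rd c).val) (σ ++ [ρ]) := by
    intro ρ hρ c hc htop
    have ht : (2 * rd c).val < 5 := ZMod.val_lt _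
    set t := (2 * rd c).val with htdef
    have hA' := Adm_ext hm hA ht htop
    have hDρ : Dig [ρ] := by intro x hx; simp at hx; rw [hx]; exact hρ
    have hσ' : Dig (σ ++ [ρ]) := Dig_append.2 ⟨hσ, hDρ⟩
    obtain ⟨z', hz'⟩ := exists_Z hF _ hA'
    refine ⟨?_, ?_, hA', hσ', z', hz', ?_⟩
    · simp only [List.length_append, List.length_singleton]
      have : (5 : ℕ) ^ (σ.length + 1 + 1) = 5 ^ (σ.length + 1) * 5 := pow_succ _ _
      rw [this]
      have h2 : 5 ^ (σ.length + 1) * t ≤ 5 ^ (σ.length + 1) * 4 := Nat.mul_le_mul_left _ (by omega)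
      omega
    · have : 5 ∣ 5 ^ (σ.length + 1) * t := Dvd.dvd.mul_right (dvd_pow_self 5 (Nat.succ_ne_zero _)) _
      omega
    · simp only [List.length_append, List.length_singleton]
      have h1 := phi_ext hF hm2 hA hA' hz hz' hσ'
      have h2 : (5 : ℤ_[5]) ^ (σ.length + 2) ∣ 5 ^ (σ.length + 1) * (c + 2 * (t : ℤ_[5])) := by
        have e : (5 : ℤ_[5]) ^ (σ.length + 2) = 5 ^ (σ.length + 1) * 5 := pow_succ _ _
        rw [e]
        apply mul_dvd_mul_left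
        rw [← rd_eq_zero]
        simp only [map_add, map_mul, map_ofNat, rd_natCast]
        rw [htdef, ZMod.natCast_val, ZMod.cast_id]
        generalize rd c = x
        revert x; decide
      have e : phi A B C D (m + 5 ^ (σ.length + 1) * t) z' (σ ++ [ρ])
          = (phi A B C D (m + 5 ^ (σ.length + 1) * t) z' (σ ++ [ρ]) - phi A B C D m z (σ ++ [ρ])
            - 5 ^ (σ.length + 1) * (2 * (t : ℤ_[5]))) + 5 ^ (σ.length + 1) * (c + 2 * (t : ℤ_[5])) := by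
        rw [hc]; ring
      show (5 : ℤ_[5]) ^ (σ.length + 2) ∣ _
      rw [e]
      exact dvd_add h1 h2
  refine ⟨(2 * rd c1).val, (2 * rd c3).val, ZMod.val_lt _, ZMod.val_lt _, ?_,
    main 1 (Or.inl rfl) c1 hc1, main 3 (Or.inr rfl) c3 hc3⟩
  rw [map_sub] at hdiff
  revert hdiff
  generalize rd c1 = a
  generalize rd c3 = b
  revert a b
  decide

end

end Pool.Agent.Apery5
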