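import Pool.Agent.Lib_MP_ae71a2_nt.C
import Pool.Agent.Lib_MP_ae71a2_nt.Basic

set_option autoImplicit false

/-! Part D: the Apery recurrence in `ℤ_[5]` and the second row of the Frobenius matrix. -/

namespace Pool.Agent.Apery5

open Finset TrivSqZeroExt

lemma u_zero : u 0 = 1 := by unfold u ap; simp

lemma u_one : u 1 = 5 := by unfold u ap; simp [sum_range_succ]

theorem u_rec_of
    (hHG : ∀ c : ℚ_[5], HG (inr c : DN) (Fd c))
    (hfst : ∀ (c : ℚ_[5]) (n k : ℕ),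
      (Fd c n k).fst = (((n.choose k) ^ 2 * ((n + k).choose k) ^ 2 : ℕ) : ℚ_[5]))
    (n : ℕ) : ((n : ℤ_[5]) + 1) ^ 3 * u (n + 1) = P (n : ℤ_[5]) * u n - w n := by
  rcases Nat.eq_zero_or_pos n with h0 | h0
  · subst h0
    have : w 0 = 0 := by unfold w; simp
    rw [this, u_zero, u_one]
    unfold P
    simp
  · have h1 := (hHG 1).rec1 n h0
    simp only [mom0_eq 1 (hHG 1) (hfst 1)] at h1
    have h2 : io ((((n : ℤ_[5]) + 1) ^ 3 * u (n + 1) : ℤ_[5]) : ℚ_[5])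
        = io ((P (n : ℤ_[5]) * u n - w n : ℤ_[5]) : ℚ_[5]) := by
      unfold w P
      unfold P at h1
      simp only [PadicInt.coe_mul, PadicInt.coe_pow, PadicInt.coe_add, PadicInt.coe_natCast,
        PadicInt.coe_one, PadicInt.coe_sub, map_mul, map_pow, map_add, map_natCast, map_one,
        map_sub] at h1 ⊢
      rw [h1]
      congr 1
    have h3 := congrArg TrivSqZeroExt.fst h2
    rw [io_apply, io_apply, fst_inl, fst_inl] at h3
    exact PadicInt.ext h3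

/-! ### polynomials -/

/-- divided-difference Lipschitz functions (polynomials) -/
def DL (f : ℤ_[5] → ℤ_[5]) : Prop := ∀ x y, x - y ∣ f x - f y

lemma DL.const (c : ℤ_[5]) : DL (fun _ => c) := fun _ _ => by simp

lemma DL.id : DL (fun x => x) := fun _ _ => dvd_rfl

lemma DL.add {f g : ℤ_[5] → ℤ_[5]} (hf : DL f) (hg : DL g) : DL (fun x => f x + g x) := by
  intro x y
  have : f x + g x - (f y + g y) = (f x - f y) + (g x - g y) := by ring
  rw [this]; exact dvd_add (hf x y) (hg x y)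

lemma DL.sub {f g : ℤ_[5] → ℤ_[5]} (hf : DL f) (hg : DL g) : DL (fun x => f x - g x) := by
  intro x y
  have : f x - g x - (f y - g y) = (f x - f y) - (g x - g y) := by ring
  rw [this]; exact dvd_sub (hf x y) (hg x y)

lemma DL.mul {f g : ℤ_[5] → ℤ_[5]} (hf : DL f) (hg : DL g) : DL (fun x => f x * g x) := by
  intro x y
  have : f x * g x - (f y * g y) = (f x - f y) * g x + f y * (g x - g y) := by ring
  rw [this]; exact dvd_add ((hf x y).mul_right _) ((hg x y).mul_left _)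

lemma DL.pow {f : ℤ_[5] → ℤ_[5]} (hf : DL f) (n : ℕ) : DL (fun x => f x ^ n) := by
  intro x y
  exact (hf x y).trans (sub_dvd_pow_sub_pow _ _ n)

lemma DL.shift (c : ℤ_[5]) : DL (fun x => x + c) := DL.id.add (DL.const c)

lemma DL.P {f : ℤ_[5] → ℤ_[5]} (hf : DL f) : DL (fun x => P (f x)) := by
  unfold Apery5.P
  exact ((((DL.const 34).mul (hf.pow 3)).add ((DL.const 51).mul (hf.pow 2))).add
    ((DL.const 27).mul hf)).add (DL.const 5)

noncomputable def a1 (y : ℤ_[5]) : ℤ_[5] := P y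
noncomputable def b1 (_ : ℤ_[5]) : ℤ_[5] := -1
noncomputable def a2 (y : ℤ_[5]) : ℤ_[5] := P (y + 1) * a1 y - (y + 1) ^ 6
noncomputable def b2 (y : ℤ_[5]) : ℤ_[5] := P (y + 1) * b1 y
noncomputable def a3 (y : ℤ_[5]) : ℤ_[5] := P (y + 2) * a2 y - (y + 2) ^ 6 * a1 y
noncomputable def b3 (y : ℤ_[5]) : ℤ_[5] := P (y + 2) * b2 y - (y + 2) ^ 6 * b1 y
noncomputable def a4 (y : ℤ_[5]) : ℤ_[5] := P (y + 3) * a3 y - (y + 3) ^ 6 * a2 y
noncomputable def b4 (y : ℤ_[5]) : ℤ_[5] := P (y + 3) * b3 y - (y + 3) ^ 6 * b2 y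
noncomputable def a5 (y : ℤ_[5]) : ℤ_[5] := P (y + 4) * a4 y - (y + 4) ^ 6 * a3 y
noncomputable def b5 (y : ℤ_[5]) : ℤ_[5] := P (y + 4) * b4 y - (y + 4) ^ 6 * b3 y

/-- the unit `((y+1)(y+2)(y+3)(y+4))^3` -/
noncomputable def R4 (y : ℤ_[5]) : ℤ_[5] := ((y + 1) * (y + 2) * (y + 3) * (y + 4)) ^ 3

/-- `a5 (5 x) = 125 * q5 x` -/
noncomputable def q5 (x : ℤ_[5]) : ℤ_[5] :=
  11321925120 + 571312165248 * x + 12869358285024 * x ^ 2 + 170982875970016 * x ^ 3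
  + 1495907901600000 * x ^ 4 + 9140904450187500 * x ^ 5 + 40418860589750625 * x ^ 6
  + 132141078017506875 * x ^ 7 + 323134757658281250 * x ^ 8 + 592916590297109375 * x ^ 9
  + 811985412021093750 * x ^ 10 + 817119428415234375 * x ^ 11 + 586227612597656250 * x ^ 12
  + 283638674267578125 * x ^ 13 + 82907061767578125 * x ^ 14 + 11054274902343750 * x ^ 15

lemma a5_eq (x : ℤ_[5]) : a5 (5 * x) = 125 * q5 x := by
  unfold a5 a4 a3 a2 a1 q5 P
  ring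

lemma DL_q5 : DL q5 := by
  unfold q5
  have hm : ∀ (c : ℤ_[5]) (k : ℕ), DL (fun x => c * x ^ k) :=
    fun c k => (DL.const c).mul (DL.id.pow k)
  exact (((((((((((((((DL.const _).add ((DL.const _).mul DL.id)).add (hm _ _)).add (hm _ _)).add
    (hm _ _)).add (hm _ _)).add (hm _ _)).add (hm _ _)).add (hm _ _)).add (hm _ _)).add
    (hm _ _)).add (hm _ _)).add (hm _ _)).add (hm _ _)).add (hm _ _)).add (hm _ _)

lemma DL_b5 : DL b5 := by
  have h1 : DL b1 := DL.const _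
  have h2 : DL b2 := ((DL.shift 1).P).mul h1
  have h3 : DL b3 := (((DL.shift 2).P).mul h2).sub (((DL.shift 2).pow 6).mul h1)
  have h4 : DL b4 := (((DL.shift 3).P).mul h3).sub (((DL.shift 3).pow 6).mul h2)
  exact (((DL.shift 4).P).mul h4).sub (((DL.shift 4).pow 6).mul h3)

lemma DL_R4 : DL R4 :=
  (((((DL.shift 1).mul (DL.shift 2)).mul (DL.shift 3)).mul (DL.shift 4)).pow 3)

lemma b5_zero : b5 0 = -283533296824 := by
  unfold b5 b4 b3 b2 b1 P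
  norm_num

lemma b5_one (x : ℤ_[5]) : (5 : ℤ_[5]) ∣ b5 (5 * x) - 1 := by
  have h1 := DL_b5 (5 * x) 0
  rw [sub_zero, b5_zero] at h1
  have h2 : (5 : ℤ_[5]) ∣ b5 (5 * x) - -283533296824 := (dvd_mul_right _ _).trans h1
  have h3 : b5 (5 * x) - 1 = (b5 (5 * x) - -283533296824) + 5 * (-56706659365) := by ring
  rw [h3]
  exact dvd_add h2 (dvd_mul_right _ _)

lemma R4_neg_one (x : ℤ_[5]) : (5 : ℤ_[5]) ∣ R4 (5 * x) + 1 := by
  have h1 := DL_R4 (5 * x) 0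
  have h0 : R4 0 = 13824 := by unfold R4; norm_num
  rw [sub_zero, h0] at h1
  have h2 : (5 : ℤ_[5]) ∣ R4 (5 * x) - 13824 := (dvd_mul_right _ _).trans h1
  have h3 : R4 (5 * x) + 1 = (R4 (5 * x) - 13824) + 5 * 2765 := by ring
  rw [h3]
  exact dvd_add h2 (dvd_mul_right _ _)

lemma isUnit_of_one {x : ℤ_[5]} (h : (5 : ℤ_[5]) ∣ x - 1) : IsUnit x := by
  rw [PadicInt.isUnit_iff]
  by_contra hne
  have h1 : ‖x‖ < 1 := lt_of_le_of_ne (PadicInt.norm_le_one x) hne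
  have h2 : ((5 : ℕ) : ℤ_[5]) ∣ x := (PadicInt.norm_lt_one_iff_dvd x).1 h1
  have h3 : (5 : ℤ_[5]) ∣ 1 := by
    have : (1 : ℤ_[5]) = x - (x - 1) := by ring
    rw [this]
    exact dvd_sub (by exact_mod_cast h2) h
  have h4 := (PadicInt.norm_lt_one_iff_dvd (1 : ℤ_[5])).2 (by exact_mod_cast h3)
  simp at h4

/-- five steps of the recurrence -/
lemma five_steps (hrec : ∀ n : ℕ, ((n : ℤ_[5]) + 1) ^ 3 * u (n + 1) = P (n : ℤ_[5]) * u n - w n)
    (m : ℕ) : R4 (5 * m) * (125 * ((m : ℤ_[5]) + 1) ^ 3 * u (5 * (m + 1)))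
      = a5 (5 * m) * u (5 * m) + b5 (5 * m) * w (5 * m) := by
  have h0 := hrec (5 * m)
  have h1 := hrec (5 * m + 1)
  have h2 := hrec (5 * m + 2)
  have h3 := hrec (5 * m + 3)
  have h4 := hrec (5 * m + 4)
  rw [w_succ] at h1 h2 h3 h4
  have e : 5 * (m + 1) = 5 * m + 4 + 1 := by ring
  rw [e]
  push_cast at h0 h1 h2 h3 h4
  set y : ℤ_[5] := 5 * (m : ℤ_[5]) with hy
  have g1 : (y + 1) ^ 3 * u (5 * m + 1) = a1 y * u (5 * m) + b1 y * w (5 * m) := by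
    unfold a1 b1; rw [h0]; ring
  have g2 : (y + 1) ^ 3 * (y + 2) ^ 3 * u (5 * m + 2) = a2 y * u (5 * m) + b2 y * w (5 * m) := by
    unfold a2 b2
    linear_combination (y + 1) ^ 3 * h1 + P (y + 1) * g1
  have g3 : (y + 1) ^ 3 * (y + 2) ^ 3 * (y + 3) ^ 3 * u (5 * m + 3)
      = a3 y * u (5 * m) + b3 y * w (5 * m) := by
    unfold a3 b3
    linear_combination (y + 1) ^ 3 * (y + 2) ^ 3 * h2 + P (y + 2) * g2 - (y + 2) ^ 6 * g1
  have g4 : (y + 1) ^ 3 * (y + 2) ^ 3 * (y + 3) ^ 3 * (y + 4) ^ 3 * u (5 * m + 4)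
      = a4 y * u (5 * m) + b4 y * w (5 * m) := by
    unfold a4 b4
    linear_combination (y + 1) ^ 3 * (y + 2) ^ 3 * (y + 3) ^ 3 * h3 + P (y + 3) * g3
      - (y + 3) ^ 6 * g2
  have hy5 : 125 * ((m : ℤ_[5]) + 1) ^ 3 = (y + 4 + 1) ^ 3 := by rw [hy]; ring
  rw [hy5]
  unfold a5 b5 R4
  linear_combination (y + 1) ^ 3 * (y + 2) ^ 3 * (y + 3) ^ 3 * (y + 4) ^ 3 * h4 + P (y + 4) * g4
      - (y + 4) ^ 6 * g3

lemma modEq_dvd {i n n' : ℕ} (h : n ≡ n' [MOD 5 ^ i]) :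
    (5 : ℤ_[5]) ^ i ∣ (n : ℤ_[5]) - n' := by
  have h3 := (Nat.modEq_iff_dvd.1 h.symm)
  have h4 := map_dvd (Int.castRingHom ℤ_[5]) h3
  simpa using h4

theorem exists_Frob_of
    (hrec : ∀ n : ℕ, ((n : ℤ_[5]) + 1) ^ 3 * u (n + 1) = P (n : ℤ_[5]) * u n - w n)
    (hrow : ∃ A B : ℕ → ℤ_[5],
      (∀ n, u (5 * n) = A n * u n + 125 * B n * w n) ∧
      (∀ n, (5 : ℤ_[5]) ∣ A n - 1) ∧
      (∀ i n n' : ℕ, n ≡ n' [MOD 5 ^ i] → (5 : ℤ_[5]) ^ (i + 1) ∣ A n - A n') ∧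
      (∀ i n n' : ℕ, n ≡ n' [MOD 5 ^ i] → (5 : ℤ_[5]) ^ i ∣ B n - B n')) :
    ∃ A B C D, Frob A B C D := by
  obtain ⟨A, B, hu, hA1, hlA, hlB⟩ := hrow
  have hbu : ∀ n : ℕ, ∃ β : ℤ_[5], b5 (5 * n) * β = 1 := fun n =>
    (isUnit_of_one (b5_one n)).exists_right_inv
  choose β hβ using hbu
  have hβ1 : ∀ n, (5 : ℤ_[5]) ∣ β n - 1 := by
    intro n
    have h1 : β n - 1 = -(β n * (b5 (5 * n) - 1)) + (b5 (5 * n) * β n - 1) := by ring
    rw [h1, hβ n, sub_self, add_zero]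
    exact (dvd_neg).2 ((b5_one n).mul_left _)
  have hβl : ∀ i n n' : ℕ, n ≡ n' [MOD 5 ^ i] → (5 : ℤ_[5]) ^ (i + 1) ∣ β n - β n' := by
    intro i n n' h
    have h1 : β n - β n' = β n * β n' * (b5 (5 * n') - b5 (5 * n)) := by
      linear_combination β n * (-(hβ n')) + β n' * (hβ n)
    rw [h1]
    apply Dvd.dvd.mul_left
    refine dvd_trans ?_ (DL_b5 (5 * n') (5 * n))
    rw [← mul_sub, pow_succ, mul_comm]
    exact mul_dvd_mul_left _ (modEq_dvd h.symm)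
  have hRl : ∀ i n n' : ℕ, n ≡ n' [MOD 5 ^ i] →
      (5 : ℤ_[5]) ^ (i + 1) ∣ R4 (5 * n) - R4 (5 * n') := by
    intro i n n' h
    refine dvd_trans ?_ (DL_R4 (5 * n) (5 * n'))
    rw [← mul_sub, pow_succ, mul_comm]
    exact mul_dvd_mul_left _ (modEq_dvd h)
  have hql : ∀ i n n' : ℕ, n ≡ n' [MOD 5 ^ i] → (5 : ℤ_[5]) ^ i ∣ q5 n - q5 n' :=
    fun i n n' h => (modEq_dvd h).trans (DL_q5 _ _)
  have hs : ∀ {i n n' : ℕ}, n ≡ n' [MOD 5 ^ i] → n + 1 ≡ n' + 1 [MOD 5 ^ i] :=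
    fun h => h.add_right 1
  -- product rule
  have pr : ∀ {k : ℕ} {a b a' b' : ℤ_[5]}, (5 : ℤ_[5]) ^ k ∣ a - a' → (5 : ℤ_[5]) ^ k ∣ b - b' →
      (5 : ℤ_[5]) ^ k ∣ a * b - a' * b' := by
    intro k a b a' b' h1 h2
    have : a * b - a' * b' = (a - a') * b + a' * (b - b') := by ring
    rw [this]; exact dvd_add (h1.mul_right _) (h2.mul_left _)
  have wk : ∀ {i : ℕ} {a : ℤ_[5]}, (5 : ℤ_[5]) ^ (i + 1) ∣ a → (5 : ℤ_[5]) ^ i ∣ a :=
    fun h => (pow_dvd_pow _ (Nat.le_succ _)).trans h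
  refine ⟨A, B, fun n => β n * (R4 (5 * n) * (A (n + 1) * P (n : ℤ_[5])
      + 125 * B (n + 1) * ((n : ℤ_[5]) + 1) ^ 6) - q5 n * A n),
    fun n => β n * (-(R4 (5 * n) * A (n + 1)) - 125 * (q5 n * B n)), ?_⟩
  constructor
  · exact hrec
  · exact hu
  · intro n
    have h1 := five_steps hrec n
    have h2 := hu (n + 1)
    have h3 := hu n
    have h4 := hrec n
    have h5 := w_succ n
    have h6 := a5_eq (n : ℤ_[5])
    rw [h2, h6, h3, h5] at h1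
    have h7 := hβ n
    linear_combination (-(w (5 * n))) * h7 - β n * h1 +
      β n * R4 (5 * n) * 125 * A (n + 1) * h4
  · exact hA1
  · intro n
    have e : β n * (-(R4 (5 * n) * A (n + 1)) - 125 * (q5 n * B n)) - 1
        = (β n - 1) * (-(R4 (5 * n) * A (n + 1)) - 125 * (q5 n * B n))
          - (R4 (5 * n) + 1) * A (n + 1) + (A (n + 1) - 1) + 5 * (-25 * (q5 n * B n)) := by ring
    show (5 : ℤ_[5]) ∣ β n * (-(R4 (5 * n) * A (n + 1)) - 125 * (q5 n * B n)) - 1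
    rw [e]
    exact dvd_add (dvd_add (dvd_sub ((hβ1 n).mul_right _) ((R4_neg_one n).mul_right _))
      (hA1 (n + 1))) (dvd_mul_right _ _)
  · exact hlA
  · exact hlB
  · intro i n n' h
    show (5 : ℤ_[5]) ^ i ∣ β n * (R4 (5 * n) * (A (n + 1) * P (n : ℤ_[5])
      + 125 * B (n + 1) * ((n : ℤ_[5]) + 1) ^ 6) - q5 n * A n)
      - β n' * (R4 (5 * n') * (A (n' + 1) * P (n' : ℤ_[5])
      + 125 * B (n' + 1) * ((n' : ℤ_[5]) + 1) ^ 6) - q5 n' * A n')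
    apply pr (wk (hβl i n n' h))
    have e : R4 (5 * n) * (A (n + 1) * P (n : ℤ_[5])
      + 125 * B (n + 1) * ((n : ℤ_[5]) + 1) ^ 6) - q5 n * A n
      - (R4 (5 * n') * (A (n' + 1) * P (n' : ℤ_[5])
      + 125 * B (n' + 1) * ((n' : ℤ_[5]) + 1) ^ 6) - q5 n' * A n')
      = (R4 (5 * n) * (A (n + 1) * P (n : ℤ_[5])
      + 125 * B (n + 1) * ((n : ℤ_[5]) + 1) ^ 6) - R4 (5 * n') * (A (n' + 1) * P (n' : ℤ_[5])
      + 125 * B (n' + 1) * ((n' : ℤ_[5]) + 1) ^ 6)) - (q5 n * A n - q5 n' * A n') := by ring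
    rw [e]
    apply dvd_sub
    · apply pr (wk (hRl i n n' h))
      have e2 : A (n + 1) * P (n : ℤ_[5]) + 125 * B (n + 1) * ((n : ℤ_[5]) + 1) ^ 6
        - (A (n' + 1) * P (n' : ℤ_[5]) + 125 * B (n' + 1) * ((n' : ℤ_[5]) + 1) ^ 6)
        = (A (n + 1) * P (n : ℤ_[5]) - A (n' + 1) * P (n' : ℤ_[5]))
          + 125 * (B (n + 1) * ((n : ℤ_[5]) + 1) ^ 6 - B (n' + 1) * ((n' : ℤ_[5]) + 1) ^ 6) := by
        ring
      rw [e2]
      apply dvd_add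
      · exact pr (wk (hlA i _ _ (hs h))) ((modEq_dvd h).trans (DL.id.P _ _))
      · apply Dvd.dvd.mul_left
        exact pr (hlB i _ _ (hs h)) ((modEq_dvd h).trans (((DL.shift 1).pow 6) _ _))
    · exact pr (hql i n n' h) (wk (hlA i n n' h))
  · intro i n n' h
    show (5 : ℤ_[5]) ^ (i + 1) ∣ β n * (-(R4 (5 * n) * A (n + 1)) - 125 * (q5 n * B n))
      - β n' * (-(R4 (5 * n') * A (n' + 1)) - 125 * (q5 n' * B n'))
    apply pr (hβl i n n' h)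
    have e : -(R4 (5 * n) * A (n + 1)) - 125 * (q5 n * B n)
      - (-(R4 (5 * n') * A (n' + 1)) - 125 * (q5 n' * B n'))
      = -(R4 (5 * n) * A (n + 1) - R4 (5 * n') * A (n' + 1))
        - 125 * (q5 n * B n - q5 n' * B n') := by ring
    rw [e]
    apply dvd_sub
    · exact (dvd_neg).2 (pr (hRl i n n' h) (hlA i _ _ (hs h)))
    · have h1 := pr (hql i n n' h) (hlB i n n' h)
      have h2 : (5 : ℤ_[5]) ^ (i + 1) = 5 * 5 ^ i := by rw [pow_succ, mul_comm]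
      rw [h2]
      exact mul_dvd_mul (by exact ⟨25, by norm_num⟩) h1

end Pool.Agent.Apery5
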