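import Mathlib

set_option autoImplicit false

/-! Definitions shared by the proof that the 5-adic valuation of the Apery numbers is not
5-regular (problem MP_ae71a2_nt). -/

namespace Pool.Agent.Apery5

open Finset

instance fact5 : Fact (Nat.Prime 5) := ⟨by norm_num⟩

/-- the Apery numbers -/
def ap (n : ℕ) : ℕ :=
  ∑ k ∈ range (n + 1), (n.choose k) ^ 2 * ((n + k).choose k) ^ 2

/-- the Apery numbers in `ℤ_[5]` -/
noncomputable def u (n : ℕ) : ℤ_[5] := (ap n : ℤ_[5])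

/-- `w n = n^3 * u (n-1)` -/
noncomputable def w (n : ℕ) : ℤ_[5] := (n : ℤ_[5]) ^ 3 * u (n - 1)

/-- the polynomial of Apery's recurrence -/
def P {R : Type*} [CommRing R] (x : R) : R := 34 * x ^ 3 + 51 * x ^ 2 + 27 * x + 5

/-- Abstract hypergeometric term `F n k` (deformation of `C(n,k)^2 C(n+k,k)^2`) at `x = k + δ`,
where `δ ^ 2 = 0`. -/
structure HG {S : Type*} [CommRing S] (δ : S) (F : ℕ → ℕ → S) : Prop where
  sq : δ ^ 2 = 0
  F00 : F 0 0 = 1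
  out : ∀ n k : ℕ, n < k → F n k = 0
  N1 : ∀ n k : ℕ, ((k : S) + δ + 1) ^ 4 * F n (k + 1)
        = ((n : S) - (k + δ)) ^ 2 * ((n : S) + (k + δ) + 1) ^ 2 * F n k
  N2 : ∀ n k : ℕ, k ≤ n → ((n : S) + 1 - (k + δ)) ^ 2 * F (n + 1) k
        = ((n : S) + 1 + (k + δ)) ^ 2 * F n k
  up : ∀ j : ℕ, 1 ≤ j → IsUnit ((j : S) + δ)
  um : ∀ j : ℕ, 1 ≤ j → IsUnit ((j : S) - δ)

/-- moments `∑_K F(n,K) (K+δ)^m` -/
def mom {S : Type*} [CommRing S] (δ : S) (F : ℕ → ℕ → S) (n m : ℕ) : S :=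
  ∑ K ∈ range (n + 1), F n K * ((K : S) + δ) ^ m

/-- dual numbers over `ℚ_[5]` -/
abbrev DN := DualNumber ℚ_[5]

/-- `RN n t = ∏_{i<n} (t+1+i)` -/
def RN {S : Type*} [CommRing S] (n : ℕ) (t : S) : S := ∏ i ∈ range n, (t + 1 + (i : S))

/-- `RD n k t = ∏_{i ≤ n, i ≠ k} (t - i)` -/
def RD {S : Type*} [CommRing S] (n k : ℕ) (t : S) : S :=
  ∏ i ∈ range (n + 1), if i = k then 1 else (t - (i : S))

/-- the concrete deformation in the dual numbers, `δ = c ε` -/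
noncomputable def Fd (c : ℚ_[5]) (n k : ℕ) : DN :=
  if k ≤ n then
    (RN n ((k : DN) + TrivSqZeroExt.inr c) * (RD n k ((k : DN) + TrivSqZeroExt.inr c))⁻¹) ^ 2
  else 0

/-- `dS s l = ∏_{r<5, r≠s} (X + 5 l + s - r)` in `ℤ_[5][[X]]` -/
noncomputable def dS (s : ℕ) (l : ℤ) : PowerSeries ℤ_[5] :=
  ∏ r ∈ (range 5).erase s, (PowerSeries.X + PowerSeries.C (((5 * l + s - r : ℤ)) : ℤ_[5]))

/-- `Theta s n = ∏_{l<n} dS s (l+1) / ∏_{l<n} dS s (-l)` -/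
noncomputable def Theta (s n : ℕ) : PowerSeries ℤ_[5] :=
  (∏ l ∈ range n, dS s ((l : ℤ) + 1)) * Ring.inverse (∏ l ∈ range n, dS s (-(l : ℤ)))

/-- the factor coming from the last incomplete block -/
noncomputable def kap (s n : ℕ) : PowerSeries ℤ_[5] :=
  if s = 0 then 1 else
    (PowerSeries.X - PowerSeries.C ((5 * n : ℤ) : ℤ_[5])) *
      Ring.inverse (PowerSeries.X - PowerSeries.C ((5 * n - s : ℤ) : ℤ_[5]))

/-- the power series `h n` with `u (5 n) = ∑_K F(n,K) (h n)(5 K)` -/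
noncomputable def hS (n : ℕ) : PowerSeries ℤ_[5] :=
  ∑ s ∈ range 5, (Theta s n * kap s n) ^ 2

end Pool.Agent.Apery5
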