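import Mathlib

set_option autoImplicit false

namespace Pool.Agent.Apery5

open Finset

/-- A finitely generated `ℤ`-module of integer sequences cannot contain, for every `n`, `n`
functions whose shifted values at `n` points form a diagonally dominant matrix with nonnegative
off-diagonal entries. -/
theorem lin_contra (V : Submodule ℤ (ℕ → ℤ)) (hV : V.FG)
    (h : ∀ n : ℕ, ∃ (f : Fin n → ℕ → ℤ) (x : Fin n → ℕ) (α : Fin n → ℤ) (k0 : ℤ),
      (∀ i, f i ∈ V) ∧ 0 ≤ k0 ∧
      (∀ i k, i ≠ k → 0 ≤ f i (x k) - α k ∧ f i (x k) - α k ≤ k0) ∧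
      (∀ k, (n : ℤ) * k0 + 1 ≤ f k (x k) - α k)) : False := by
  obtain ⟨R, s, hs⟩ := Submodule.fg_iff_exists_fin_generating_family.mp hV
  obtain ⟨f, x, α, k0, hf, hk0, hoff, hdiag⟩ := h (R + 2)
  have hex : ∀ i, ∃ c : Fin R → ℤ, ∑ j, c j • s j = f i := by
    intro i
    have := hf i
    rw [← hs] at this
    exact (Submodule.mem_span_range_iff_exists_fun ℤ).mp this
  choose a ha using hex
  set w : Fin (R + 2) → (Option (Fin R) → ℚ) := fun i o => o.elim 1 (fun j => (a i j : ℚ)) with hw
  have hdep : ¬ LinearIndependent ℚ w := by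
    intro hli
    have h1 := hli.fintype_card_le_finrank
    simp at h1
  rw [Fintype.not_linearIndependent_iff] at hdep
  obtain ⟨c, hc, i₀, hi₀⟩ := hdep
  have hsum : ∑ i, c i = 0 := by
    have := congrFun hc none
    simpa [hw] using this
  have hcomb : ∀ y : ℕ, ∑ i, c i * (f i y : ℚ) = 0 := by
    intro y
    have h1 : ∀ j : Fin R, ∑ i, c i * (a i j : ℚ) = 0 := by
      intro j
      have := congrFun hc (some j)
      simpa [hw] using this
    have h2 : ∀ i, (f i y : ℚ) = ∑ j, (a i j : ℚ) * (s j y : ℚ) := by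
      intro i
      have := congrFun (ha i) y
      rw [← this]
      simp
    calc ∑ i, c i * (f i y : ℚ) = ∑ i, ∑ j, c i * (a i j : ℚ) * (s j y : ℚ) := by
          apply sum_congr rfl
          intro i _
          rw [h2 i, mul_sum]
          apply sum_congr rfl
          intro j _
          ring
      _ = ∑ j, (∑ i, c i * (a i j : ℚ)) * (s j y : ℚ) := by
          rw [sum_comm]
          apply sum_congr rfl
          intro j _
          rw [sum_mul]
      _ = 0 := by simp [h1]
  obtain ⟨k, -, hk⟩ := exists_max_image univ (fun i => |c i|) ⟨i₀, mem_univ _⟩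
  have hck : 0 < |c k| := lt_of_lt_of_le (abs_pos.mpr hi₀) (hk i₀ (mem_univ _))
  have hzero : ∑ i, c i * ((f i (x k) - α k : ℤ) : ℚ) = 0 := by
    have : ∑ i, c i * ((f i (x k) - α k : ℤ) : ℚ) =
        ∑ i, c i * (f i (x k) : ℚ) - (∑ i, c i) * (α k : ℚ) := by
      rw [sum_mul, ← sum_sub_distrib]
      apply sum_congr rfl
      intro i _
      push_cast
      ring
    rw [this, hcomb, hsum]
    ring
  rw [← add_sum_erase univ _ (mem_univ k)] at hzero
  have h1 : c k * ((f k (x k) - α k : ℤ) : ℚ) =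
      - ∑ i ∈ univ.erase k, c i * ((f i (x k) - α k : ℤ) : ℚ) := by linarith
  have h2 : |c k| * |((f k (x k) - α k : ℤ) : ℚ)| ≤ (R + 1) * (|c k| * k0) := by
    rw [← abs_mul, h1, abs_neg]
    refine (abs_sum_le_sum_abs _ _).trans ?_
    have h3 : ∀ i ∈ univ.erase k, |c i * ((f i (x k) - α k : ℤ) : ℚ)| ≤ |c k| * k0 := by
      intro i hi
      rw [abs_mul]
      obtain ⟨h4, h5⟩ := hoff i k (ne_of_mem_erase hi)
      apply mul_le_mul (hk i (mem_univ _)) _ (abs_nonneg _) hck.le
      rw [abs_of_nonneg (by exact_mod_cast h4)]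
      exact_mod_cast h5
    refine (sum_le_card_nsmul _ _ _ h3).trans (le_of_eq ?_)
    rw [card_erase_of_mem (mem_univ _), card_univ, Fintype.card_fin, nsmul_eq_mul]
    push_cast
    simp
  have h3 : |((f k (x k) - α k : ℤ) : ℚ)| ≤ (R + 1) * k0 := by
    have h4 : |c k| * |((f k (x k) - α k : ℤ) : ℚ)| ≤ |c k| * ((R + 1) * k0) := by
      refine h2.trans (le_of_eq (by ring))
    exact le_of_mul_le_mul_left h4 hck
  have h4 : ((f k (x k) - α k : ℤ) : ℚ) ≤ (R + 1) * k0 := (le_abs_self _).trans h3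
  have h5 : f k (x k) - α k ≤ (R + 1) * k0 := by exact_mod_cast h4
  have h6 := hdiag k
  push_cast at h6
  nlinarith

end Pool.Agent.Apery5
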