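import Pool.Agent.Lib_MP_ae71a2_nt.Branch
import Pool.Agent.Lib_MP_ae71a2_nt.Lin

set_option autoImplicit false

namespace Pool.Agent.Apery5

open Finset

theorem val_eq (σ : List ℕ) (M : ℕ) : val σ M = 5 ^ σ.length * M + val σ 0 := by
  induction σ generalizing M with
  | nil => simp [val]
  | cons ρ σ ih =>
    simp only [val, List.length_cons]
    rw [ih (5 * M + ρ), ih (5 * 0 + ρ)]
    ring

theorem val_lt {σ : List ℕ} (hσ : Dig σ) : val σ 0 < 5 ^ σ.length := by
  induction σ with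
  | nil => simp [val]
  | cons ρ σ ih =>
    obtain ⟨hρ, hσ'⟩ := hσ.cons
    have h1 := ih hσ'
    simp only [val, List.length_cons]
    rw [val_eq, pow_succ]
    have h2 : 5 ^ σ.length * (5 * 0 + ρ) ≤ 5 ^ σ.length * 3 := Nat.mul_le_mul_left _ (by omega)
    have h3 : 0 < 5 ^ σ.length := by positivity
    omega

theorem val_one_lt {σ : List ℕ} (hσ : Dig σ) : val σ 1 < 5 ^ (σ.length + 1) := by
  have h := val_lt hσ
  rw [val_eq, pow_succ]
  omega

theorem val_split (σ : List ℕ) (m : ℕ) : val σ (5 * m + 1) = 5 ^ (σ.length + 1) * m + val σ 1 := by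
  rw [val_eq σ (5 * m + 1), val_eq σ 1]; ring

theorem val_isUnit {x : ℤ_[5]} (hx : IsUnit x) : x.valuation = 0 := by
  obtain ⟨v, rfl⟩ := hx
  have h0 : (v : ℤ_[5]) ≠ 0 := v.ne_zero
  have h1 : ((v⁻¹ : (ℤ_[5])ˣ) : ℤ_[5]) ≠ 0 := (v⁻¹).ne_zero
  have h2 := PadicInt.valuation_mul h0 h1
  rw [Units.mul_inv, PadicInt.valuation_one] at h2
  omega

theorem val_five_pow (K : ℕ) : ((5 : ℤ_[5]) ^ K).valuation = K := by
  rw [PadicInt.valuation_pow]
  have h : ((5 : ℕ) : ℤ_[5]).valuation = 1 := PadicInt.valuation_p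
  have h2 : ((5 : ℕ) : ℤ_[5]) = 5 := by norm_cast
  rw [h2] at h
  rw [h, mul_one]

theorem val_natCast' (n : ℕ) : ((n : ℕ) : ℤ_[5]).valuation = padicValNat 5 n := by
  have h1 := PadicInt.valuation_coe ((n : ℕ) : ℤ_[5])
  rw [PadicInt.coe_natCast, Padic.valuation_natCast] at h1
  exact_mod_cast h1.symm

theorem le_val_of_dvd {x : ℤ_[5]} (hx : x ≠ 0) {K : ℕ} (h : (5 : ℤ_[5]) ^ K ∣ x) :
    K ≤ x.valuation := by
  obtain ⟨c, rfl⟩ := h
  have hc : c ≠ 0 := right_ne_zero_of_mul hx
  rw [PadicInt.valuation_mul (pow_ne_zero _ five_ne_zero) hc, val_five_pow]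
  omega

theorem val_le_of_not_dvd {x : ℤ_[5]} {K : ℕ} (h : ¬ (5 : ℤ_[5]) ^ (K + 1) ∣ x) :
    x.valuation ≤ K := by
  by_contra hlt
  apply h
  rcases eq_or_ne x 0 with h0 | h0
  · rw [h0]; exact dvd_zero _
  · have h1 : ((5 : ℕ) : ℤ_[5]) = 5 := by norm_cast
    have h2 := (PadicInt.norm_le_pow_iff_le_valuation x h0 (K + 1)).2 (by omega)
    have h3 := (PadicInt.norm_le_pow_iff_mem_span_pow x (K + 1)).1 h2
    rw [Ideal.mem_span_singleton, h1] at h3
    exact h3

section
variable {A B C D : ℕ → ℤ_[5]}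

theorem u_val_formula (hF : Frob A B C D) {m : ℕ} {z : ℤ_[5]} (hz : Z m z) {σ : List ℕ}
    (hσ : Dig σ) :
    phi A B C D m z σ ≠ 0 ∧ padicValNat 5 (ap (5 ^ (σ.length + 1) * m + val σ 1))
      = (σ.length + 1) + (phi A B C D m z σ).valuation + padicValNat 5 (ap (5 * m)) := by
  obtain ⟨κ, hκ, h⟩ := u_formula hF hz hσ
  rw [val_split] at h
  have h0 := u_ne_zero (5 ^ (σ.length + 1) * m + val σ 1)
  have hphi : phi A B C D m z σ ≠ 0 := by
    intro h1; rw [h, h1] at h0; simp at h0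
  refine ⟨hphi, ?_⟩
  have h5 : (5 : ℤ_[5]) ^ (σ.length + 1) ≠ 0 := pow_ne_zero _ five_ne_zero
  have e := congrArg PadicInt.valuation h
  rw [PadicInt.valuation_mul (mul_ne_zero (mul_ne_zero h5 hκ.ne_zero) hphi) (u_ne_zero _),
    PadicInt.valuation_mul (mul_ne_zero h5 hκ.ne_zero) hphi,
    PadicInt.valuation_mul h5 hκ.ne_zero, val_five_pow, val_isUnit hκ] at e
  unfold u at e
  rw [val_natCast', val_natCast'] at e
  omega

theorem not_fg (hF : Frob A B C D) (b : ℕ → ℤ) (hb : ∀ n, b n = ((padicValNat 5 (ap n) : ℕ) : ℤ))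
    (hfg : (Submodule.span ℤ
        {f : ℕ → ℤ | ∃ e r : ℕ, r < 5 ^ e ∧ f = fun n => b (5 ^ e * n + r)}).FG) : False := by
  refine lin_contra _ hfg ?_
  intro n
  obtain ⟨k, S, hS, hg⟩ := many hF n
  -- n distinct prefixes
  obtain ⟨p, hp⟩ : ∃ p : Fin n ↪ List ℕ, ∀ i, p i ∈ S := by
    have hc : Fintype.card (Fin n) ≤ Fintype.card S := by
      rw [Fintype.card_fin, Fintype.card_coe]; omega
    obtain ⟨g⟩ := Function.Embedding.nonempty_of_card_le hc
    exact ⟨g.trans (Function.Embedding.subtype _), fun i => (g i).2⟩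
  -- extend to a common large length
  have hext : ∀ i, ∃ s : List ℕ, s.length = n * k + 1 ∧ Good A B C D (p i ++ s) := fun i =>
    good_extend hF (hg _ (hp i)).2 _
  choose s hs1 hs2 using hext
  unfold Good Cfg at hs2
  choose m hm hm2 hA hD z hz hphi using hs2
  have hlen : ∀ i, (p i ++ s i).length = k + (n * k + 1) := by
    intro i; rw [List.length_append, (hg _ (hp i)).1, hs1]
  set K := k + (n * k + 1) + 1 with hK
  -- cross valuations
  have hcross : ∀ i j, b (5 ^ K * m j + val (p i ++ s i) 1) =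
      ((K + padicValNat 5 (ap (5 * m j)) : ℕ) : ℤ) +
        ((phi A B C D (m j) (z j) (p i ++ s i)).valuation : ℤ) := by
    intro i j
    have := (u_val_formula hF (hz j) (hD i)).2
    rw [hlen i] at this
    rw [← hK] at this
    rw [hb, this]
    push_cast
    ring
  refine ⟨fun i N => b (5 ^ K * N + val (p i ++ s i) 1), m,
    fun j => ((K + padicValNat 5 (ap (5 * m j)) : ℕ) : ℤ), k, ?_, by positivity, ?_, ?_⟩
  · intro i
    apply Submodule.subset_span
    refine ⟨K, val (p i ++ s i) 1, ?_, rfl⟩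
    have := val_one_lt (hD i)
    rwa [hlen i] at this
  · intro i j hij
    simp only [hcross i j]
    rw [add_sub_cancel_left]
    refine ⟨by positivity, ?_⟩
    have hne : p i ≠ p j := fun h => hij (p.injective h)
    have hoff := G_off hF (p i) (p j) (s i) (s j) (5 * m j + 1) (hD i) (hD j)
      (by rw [(hg _ (hp i)).1, (hg _ (hp j)).1]) hne (res_one _)
    rw [(hg _ (hp i)).1] at hoff
    have hle : (phi A B C D (m j) (z j) (p i ++ s i)).valuation ≤ k := by
      apply val_le_of_not_dvd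
      intro hdvd
      apply hoff
      have h1 : (5 : ℤ_[5]) ^ (k + 1) ∣ phi A B C D (m j) (z j) (p j ++ s j) := by
        refine dvd_trans ?_ (hphi j)
        rw [hlen j]
        exact pow_dvd_pow _ (by omega)
      have h2 := dvd_sub hdvd h1
      have e : phi A B C D (m j) (z j) (p i ++ s i) - phi A B C D (m j) (z j) (p j ++ s j)
          = 5 * ((5 * (m j : ℤ_[5]) + 1) ^ 6 * (G A B C D (p i ++ s i) (5 * m j + 1) 0
            - G A B C D (p j ++ s j) (5 * m j + 1) 0)) := by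
        unfold phi; ring
      rw [e, pow_succ'] at h2
      have h3 := (mul_dvd_mul_iff_left five_ne_zero).1 h2
      have hc : IsUnit ((5 * (m j : ℤ_[5]) + 1) ^ 6) := by
        rw [isUnit_iff_rd]
        simp only [map_pow, map_add, map_mul, map_one, map_ofNat, rd_pow_six]
        decide
      exact (hc.dvd_mul_left).1 h3
    exact_mod_cast hle
  · intro j
    simp only [hcross j j]
    rw [add_sub_cancel_left]
    have h1 := le_val_of_dvd (u_val_formula hF (hz j) (hD j)).1 (hphi j)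
    rw [hlen j] at h1
    have h2 : n * k + 1 ≤ (phi A B C D (m j) (z j) (p j ++ s j)).valuation := by omega
    exact_mod_cast h2

end

end Pool.Agent.Apery5
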