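import Pool.Agent.Lib_MP_ae71a2_nt.B1
import Pool.Agent.Lib_MP_ae71a2_nt.B2
import Pool.Agent.Lib_MP_ae71a2_nt.B3
import Pool.Agent.Lib_MP_ae71a2_nt.B4
import Pool.Agent.Lib_MP_ae71a2_nt.D

set_option autoImplicit false

/-! Existence of the Frobenius structure: assembly of parts A, B, C, D. -/

namespace Pool.Agent.Apery5

theorem exists_Frob : ∃ A B C D, Frob A B C D :=
  exists_Frob_of (u_rec_of Fd_HG Fd_fst)
    (frob_row1_of Fd_HG Fd_fst Fd_frob hS_coeff0 hS_coeff2 hS_lip exists_eval)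

end Pool.Agent.Apery5
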