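import Pool.Agent.Lib_MP_ae71a2_nt.Basic

set_option autoImplicit false

namespace Pool.Agent.Apery5

open Finset

/-- reduction mod 5 -/
noncomputable def rd : ℤ_[5] →+* ZMod 5 := PadicInt.toZMod

theorem rd_eq_zero (x : ℤ_[5]) : rd x = 0 ↔ (5 : ℤ_[5]) ∣ x := by
  have h := PadicInt.ker_toZMod (p := 5)
  have h2 := PadicInt.maximalIdeal_eq_span_p (p := 5)
  have h3 : x ∈ RingHom.ker (PadicInt.toZMod : ℤ_[5] →+* ZMod 5) ↔ (5 : ℤ_[5]) ∣ x := by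
    rw [h, h2, Ideal.mem_span_singleton]
    norm_cast
  exact h3

theorem isUnit_iff_rd (x : ℤ_[5]) : IsUnit x ↔ rd x ≠ 0 := by
  rw [isUnit_iff_not_dvd, ← rd_eq_zero]

theorem rd_natCast (n : ℕ) : rd (n : ℤ_[5]) = (n : ZMod 5) := map_natCast _ _

theorem rd_five : rd (5 : ℤ_[5]) = 0 := by
  rw [rd_eq_zero]

/-- `ee M` with `P (5 M) = 5 * ee M` -/
def ee {R : Type*} [CommRing R] (M : R) : R := (10 * M + 1) * (85 * M ^ 2 + 17 * M + 1)

/-- second factor of `P (5 M + 2)` -/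
def cc {R : Type*} [CommRing R] (M : R) : R := 17 * (5 * M + 2) ^ 2 + 17 * (5 * M + 2) + 5

theorem P_five {R : Type*} [CommRing R] (M : R) : P (5 * M) = 5 * ee M := by
  unfold P ee; ring

theorem P_five_two {R : Type*} [CommRing R] (M : R) :
    P (5 * M + 2) = 5 * ((2 * M + 1) * cc M) := by
  unfold P cc; ring

theorem P_congr {R : Type*} [CommRing R] {d x y : R} (h : d ∣ x - y) : d ∣ P x - P y := by
  have : P x - P y = (x - y) * (34 * (x ^ 2 + x * y + y ^ 2) + 51 * (x + y) + 27) := by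
    unfold P; ring
  rw [this]; exact Dvd.dvd.mul_right h _

theorem ee_congr {R : Type*} [CommRing R] {d x y : R} (h : d ∣ x - y) : d ∣ ee x - ee y := by
  have : ee x - ee y = (x - y) * (850 * (x ^ 2 + x * y + y ^ 2) + 255 * (x + y) + 27) := by
    unfold ee; ring
  rw [this]; exact Dvd.dvd.mul_right h _

theorem cc_congr {R : Type*} [CommRing R] {d x y : R} (h : d ∣ x - y) : d ∣ cc x - cc y := by
  have : cc x - cc y = (x - y) * (425 * (x + y) + 425) := by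
    unfold cc; ring
  rw [this]; exact Dvd.dvd.mul_right h _

theorem pow_congr' {R : Type*} [CommRing R] {d x y : R} (n : ℕ) (h : d ∣ x - y) :
    d ∣ x ^ n - y ^ n := h.trans (sub_dvd_pow_sub_pow x y n)

/-- `Z m z` : `w (5m) = 25 z u(5m)` -/
def Z (m : ℕ) (z : ℤ_[5]) : Prop := w (5 * m) = 25 * z * u (5 * m)

/-- `Y m y` : `5 w m = y u m` -/
def Y (m : ℕ) (y : ℤ_[5]) : Prop := 5 * w m = y * u m

section
variable {A B C D : ℕ → ℤ_[5]}

theorem step1 (hF : Frob A B C D) {n : ℕ} {Q E : ℤ_[5]} (h : w n = Q * u n)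
    (hE : P (n : ℤ_[5]) - Q = 5 * E) :
    E * (5 * w (n + 1)) = ((n : ℤ_[5]) + 1) ^ 6 * u (n + 1) := by
  have h1 := hF.hrec n
  rw [w_succ]
  rw [h] at h1
  linear_combination (-((n : ℤ_[5]) + 1) ^ 3) * h1 - (((n : ℤ_[5]) + 1) ^ 3 * u n) * hE

theorem step2 (hF : Frob A B C D) {n : ℕ} {Q E : ℤ_[5]} (h : w n = Q * u n)
    (hE : P (n : ℤ_[5]) - Q = 5 * E) :
    (5 * P ((n : ℤ_[5]) + 1) * E - ((n : ℤ_[5]) + 1) ^ 6) * w (n + 2)
      = 5 * E * ((n : ℤ_[5]) + 2) ^ 6 * u (n + 2) := by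
  have h1 := hF.hrec n
  have h2 := hF.hrec (n + 1)
  have h3 := w_succ (n + 1)
  have h4 := w_succ n
  rw [h] at h1
  push_cast at h2 h3
  have h5 : ((n : ℤ_[5]) + 1) ^ 3 ≠ 0 := by
    have : (((n + 1 : ℕ) : ℤ_[5])) ≠ 0 := by exact_mod_cast (Nat.succ_ne_zero n)
    push_cast at this
    exact pow_ne_zero _ this
  apply mul_left_cancel₀ h5
  have e2 : ((n : ℤ_[5]) + 1) + 1 = (n : ℤ_[5]) + 2 := by ring
  rw [e2] at h2 h3
  -- (n+1)^3 u(n+1) = 5 E u n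
  have h6 : ((n : ℤ_[5]) + 1) ^ 3 * u (n + 1) = 5 * E * u n := by
    linear_combination h1 + (u n) * hE
  have h7 : ((n : ℤ_[5]) + 1) ^ 3 * (((n : ℤ_[5]) + 2) ^ 3 * u (n + 1 + 1))
      = (5 * P ((n : ℤ_[5]) + 1) * E - ((n : ℤ_[5]) + 1) ^ 6) * u n := by
    rw [h2, h4]
    linear_combination (P ((n : ℤ_[5]) + 1)) * h6
  rw [show n + 2 = n + 1 + 1 from rfl, h3]
  linear_combination ((5 * P ((n : ℤ_[5]) + 1) * E - ((n : ℤ_[5]) + 1) ^ 6)
    * ((n : ℤ_[5]) + 2) ^ 3) * h6 - (5 * E * ((n : ℤ_[5]) + 2) ^ 3) * h7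

/-- first quantity -/
noncomputable def E1 (a z : ℤ_[5]) : ℤ_[5] := ee a - 5 * z
noncomputable def U2 (a z : ℤ_[5]) : ℤ_[5] := 5 * P (5 * a + 1) * E1 a z - (5 * a + 1) ^ 6
noncomputable def E3 (a y2 : ℤ_[5]) : ℤ_[5] := (2 * a + 1) * cc a - y2
noncomputable def U4 (a y2 : ℤ_[5]) : ℤ_[5] := 5 * P (5 * a + 3) * E3 a y2 - (5 * a + 3) ^ 6

/-- relation satisfied by `y` at `5a + r` -/
def YR (r : ℕ) (a z y : ℤ_[5]) : Prop :=
  match r with
  | 0 => y = 125 * z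
  | 1 => E1 a z * y = (5 * a + 1) ^ 6
  | 2 => U2 a z * y = 25 * E1 a z * (5 * a + 2) ^ 6
  | 3 => ∃ y2, U2 a z * y2 = E1 a z * (5 * a + 2) ^ 6 ∧ E3 a y2 * y = (5 * a + 3) ^ 6
  | _ => ∃ y2, U2 a z * y2 = E1 a z * (5 * a + 2) ^ 6 ∧ U4 a y2 * y = 25 * E3 a y2 * (5 * a + 4) ^ 6

theorem rd_E1 (a z : ℤ_[5]) : rd (E1 a z) = 2 * rd a + 1 := by
  unfold E1 ee
  simp only [map_sub, map_mul, map_add, map_one, map_pow, map_ofNat]
  generalize rd a = x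
  generalize rd z = y
  revert x y
  decide

theorem rd_U2 (a z : ℤ_[5]) : rd (U2 a z) = -1 := by
  unfold U2
  simp only [map_sub, map_mul, map_add, map_one, map_pow, map_ofNat, rd_E1]
  generalize rd a = x
  generalize rd (P (5 * a + 1)) = y
  revert x y
  decide

theorem rd_y2 {a z y2 : ℤ_[5]} (h : U2 a z * y2 = E1 a z * (5 * a + 2) ^ 6) :
    rd y2 = 2 * rd a + 1 := by
  have h1 := congrArg rd h
  simp only [map_mul, rd_U2, rd_E1, map_pow, map_add, map_ofNat] at h1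
  revert h1
  generalize rd a = x
  generalize rd y2 = y
  revert x y
  decide

theorem rd_E3 {a z y2 : ℤ_[5]} (h : U2 a z * y2 = E1 a z * (5 * a + 2) ^ 6) :
    rd (E3 a y2) = 2 * rd a + 1 := by
  unfold E3 cc
  simp only [map_sub, map_mul, map_add, map_one, map_pow, map_ofNat, rd_y2 h]
  generalize rd a = x
  revert x
  decide

theorem rd_U4 (a y2 : ℤ_[5]) : rd (U4 a y2) = 1 := by
  unfold U4
  simp only [map_sub, map_mul, map_add, map_pow, map_ofNat]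
  generalize rd a = x
  generalize rd (P (5 * a + 3)) = y
  generalize rd (E3 a y2) = t
  revert x y t
  decide

theorem isUnit_U2 (a z : ℤ_[5]) : IsUnit (U2 a z) := by
  rw [isUnit_iff_rd, rd_U2]; decide

theorem isUnit_U4 (a y2 : ℤ_[5]) : IsUnit (U4 a y2) := by
  rw [isUnit_iff_rd, rd_U4]; decide

theorem rd_two_add_one {a : ℕ} (h : a % 5 ≠ 2) : (2 * rd (a : ℤ_[5]) + 1) ≠ 0 := by
  rw [rd_natCast]
  have h1 : ((a : ℕ) : ZMod 5) = ((a % 5 : ℕ) : ZMod 5) := (ZMod.natCast_mod a 5).symm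
  rw [h1]
  have h2 : a % 5 < 5 := Nat.mod_lt _ (by norm_num)
  generalize a % 5 = b at h h2
  interval_cases b <;> first | (exact absurd rfl h) | decide

theorem isUnit_E1 {a : ℕ} (h : a % 5 ≠ 2) (z : ℤ_[5]) : IsUnit (E1 a z) := by
  rw [isUnit_iff_rd, rd_E1]; exact rd_two_add_one h

theorem isUnit_E3 {a : ℕ} (h : a % 5 ≠ 2) {z y2 : ℤ_[5]}
    (h2 : U2 a z * y2 = E1 a z * (5 * a + 2) ^ 6) : IsUnit (E3 a y2) := by
  rw [isUnit_iff_rd, rd_E3 h2]; exact rd_two_add_one h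

/-- solve `V y = T` for a unit `V` -/
theorem exists_solve {V : ℤ_[5]} (hV : IsUnit V) (T : ℤ_[5]) : ∃ y, V * y = T := by
  obtain ⟨v, rfl⟩ := hV
  exact ⟨↑v⁻¹ * T, by rw [← mul_assoc, Units.mul_inv, one_mul]⟩

theorem left_exists (hF : Frob A B C D) {a r : ℕ} {z : ℤ_[5]} (hr : r < 5)
    (hz : Z a z) (h2 : (r = 1 ∨ r = 3) → a % 5 ≠ 2) :
    ∃ y, YR r a z y ∧ Y (5 * a + r) y := by
  have hw0 : w (5 * a) = (25 * z) * u (5 * a) := hz
  have hE : P ((5 * a : ℕ) : ℤ_[5]) - 25 * z = 5 * E1 a z := by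
    push_cast; rw [P_five]; unfold E1; ring
  have s2 := step2 hF hw0 hE
  have s1 := step1 hF hw0 hE
  push_cast at s1 s2
  have hc1 : (5 * (a : ℤ_[5]) + 1) = ((5 * a : ℕ) : ℤ_[5]) + 1 := by push_cast; ring
  obtain ⟨y2, hy2⟩ := exists_solve (isUnit_U2 a z) (E1 a z * (5 * a + 2) ^ 6)
  -- w(5a+2) = 5 y2 u(5a+2)
  have hw2 : w (5 * a + 2) = (5 * y2) * u (5 * a + 2) := by
    apply mul_left_cancel₀ (isUnit_U2 (a : ℤ_[5]) z).ne_zero
    have : U2 (a : ℤ_[5]) z * w (5 * a + 2) = 5 * E1 a z * (5 * a + 2) ^ 6 * u (5 * a + 2) := by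
      unfold U2; exact s2
    rw [this]
    linear_combination (-5 * u (5 * a + 2)) * hy2
  have hE3 : P ((5 * a + 2 : ℕ) : ℤ_[5]) - 5 * y2 = 5 * E3 a y2 := by
    push_cast; rw [P_five_two]; unfold E3; ring
  have s3 := step1 hF hw2 hE3
  have s4 := step2 hF hw2 hE3
  push_cast at s3 s4
  interval_cases r
  · refine ⟨125 * z, rfl, ?_⟩
    unfold Y
    rw [add_zero, hw0]; ring
  · obtain ⟨y, hy⟩ := exists_solve (isUnit_E1 (h2 (Or.inl rfl)) z) ((5 * (a : ℤ_[5]) + 1) ^ 6)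
    refine ⟨y, hy, ?_⟩
    unfold Y
    apply mul_left_cancel₀ (isUnit_E1 (h2 (Or.inl rfl)) z).ne_zero
    rw [s1, ← hy]; ring
  · refine ⟨25 * y2, ?_, ?_⟩
    · show U2 (a : ℤ_[5]) z * (25 * y2) = 25 * E1 a z * (5 * a + 2) ^ 6
      linear_combination 25 * hy2
    · unfold Y
      rw [hw2]; ring
  · obtain ⟨y, hy⟩ := exists_solve (isUnit_E3 (h2 (Or.inr rfl)) hy2) ((5 * (a : ℤ_[5]) + 3) ^ 6)
    refine ⟨y, ⟨y2, hy2, hy⟩, ?_⟩
    unfold Y
    apply mul_left_cancel₀ (isUnit_E3 (h2 (Or.inr rfl)) hy2).ne_zero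
    rw [show 5 * a + 3 = 5 * a + 2 + 1 from rfl, s3]
    rw [← mul_assoc, hy]; ring
  · obtain ⟨y, hy⟩ := exists_solve (isUnit_U4 (a : ℤ_[5]) y2)
      (25 * E3 a y2 * (5 * (a : ℤ_[5]) + 4) ^ 6)
    refine ⟨y, ⟨y2, hy2, hy⟩, ?_⟩
    unfold Y
    apply mul_left_cancel₀ (isUnit_U4 (a : ℤ_[5]) y2).ne_zero
    have e3 : (5 * (a : ℤ_[5]) + 2 + 1) = 5 * a + 3 := by ring
    have e4 : (5 * (a : ℤ_[5]) + 2 + 2) = 5 * a + 4 := by ring
    rw [e3, e4] at s4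
    have : U4 (a : ℤ_[5]) y2 * w (5 * a + 4) = 5 * E3 a y2 * (5 * a + 4) ^ 6 * u (5 * a + 4) := by
      unfold U4; exact s4
    linear_combination 5 * this - (u (5 * a + 4)) * hy

/-- the relation between `z (m)` and `y (m)` -/
theorem Z_of_Y (hF : Frob A B C D) {m : ℕ} {y z : ℤ_[5]} (hy : Y m y)
    (hz : (A m + 25 * B m * y) * z = 5 * C m + D m * y) (hV : A m + 25 * B m * y ≠ 0) : Z m z := by
  unfold Z
  unfold Y at hy
  apply mul_left_cancel₀ hV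
  rw [hF.hw, hF.hu]
  linear_combination (25 * D m * (A m + 25 * B m * y) - 25 * 25 * z * B m * (A m + 25 * B m * y)) * hy
    - (25 * (A m + 25 * B m * y) * u m) * hz

theorem rel_of_Z (hF : Frob A B C D) {m : ℕ} {y z : ℤ_[5]} (hy : Y m y)
    (hz : Z m z) : (A m + 25 * B m * y) * z = 5 * C m + D m * y := by
  unfold Z at hz
  unfold Y at hy
  rw [hF.hw, hF.hu] at hz
  have h25 : (25 : ℤ_[5]) ≠ 0 := by norm_num
  apply mul_left_cancel₀ (mul_ne_zero h25 (u_ne_zero m))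
  linear_combination (-1) * hz + (25 * D m - 25 * 25 * z * B m) * hy

theorem isUnit_AB (hF : Frob A B C D) (m : ℕ) (y : ℤ_[5]) : IsUnit (A m + 25 * B m * y) := by
  rw [isUnit_iff_not_dvd]
  intro h
  have h1 := hF.A1 m
  have h2 : (5 : ℤ_[5]) ∣ 25 * B m * y := ⟨5 * B m * y, by ring⟩
  have h3 : (5 : ℤ_[5]) ∣ 1 := by
    have : (1 : ℤ_[5]) = (A m + 25 * B m * y) - 25 * B m * y - (A m - 1) := by ring
    rw [this]
    exact dvd_sub (dvd_sub h h2) h1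
  exact five_prime.not_isUnit (isUnit_of_dvd_one h3)

end

end Pool.Agent.Apery5
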