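import Pool.Agent.Lib_MP_ae71a2_nt.Left

set_option autoImplicit false

namespace Pool.Agent.Apery5

open Finset

/-- admissible: no digit 2 immediately above a digit 1 or 3 -/
def Adm (m : ℕ) : Prop :=
  ∀ i, ((m / 5 ^ i) % 5 = 1 ∨ (m / 5 ^ i) % 5 = 3) → (m / 5 ^ (i + 1)) % 5 ≠ 2

theorem Adm.div {m : ℕ} (h : Adm m) : Adm (m / 5) := by
  intro i hi
  have := h (i + 1)
  rw [Nat.div_div_eq_div_mul, ← pow_succ'] at hi ⊢
  exact this hi

theorem Adm.low {m : ℕ} (h : Adm m) : (m % 5 = 1 ∨ m % 5 = 3) → (m / 5) % 5 ≠ 2 := by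
  have := h 0
  simpa using this

section
variable {A B C D : ℕ → ℤ_[5]}

theorem Z_zero : Z 0 0 := by
  unfold Z w; simp

theorem exists_Z (hF : Frob A B C D) : ∀ m, Adm m → ∃ z, Z m z := by
  intro m
  induction m using Nat.strong_induction_on with
  | _ m ih =>
    intro hm
    rcases Nat.eq_zero_or_pos m with h0 | hpos
    · subst h0; exact ⟨0, Z_zero⟩
    · obtain ⟨za, hza⟩ := ih (m / 5) (Nat.div_lt_self hpos (by norm_num)) hm.div
      obtain ⟨y, _, hY⟩ := left_exists hF (Nat.mod_lt m (by norm_num)) hza hm.low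
      rw [Nat.div_add_mod] at hY
      obtain ⟨z, hz⟩ := exists_solve (isUnit_AB hF m y) (5 * C m + D m * y)
      exact ⟨z, Z_of_Y hF hY hz (isUnit_AB hF m y).ne_zero⟩

theorem Z_unfold (hF : Frob A B C D) {m : ℕ} {z : ℤ_[5]} (hm : Adm m) (hz : Z m z) :
    ∃ za y, Z (m / 5) za ∧ YR (m % 5) ((m / 5 : ℕ) : ℤ_[5]) za y ∧
      (A m + 25 * B m * y) * z = 5 * C m + D m * y := by
  obtain ⟨za, hza⟩ := exists_Z hF (m / 5) hm.div
  obtain ⟨y, hy1, hY⟩ := left_exists hF (Nat.mod_lt m (by norm_num)) hza hm.low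
  rw [Nat.div_add_mod] at hY
  exact ⟨za, y, hza, hy1, rel_of_Z hF hY hz⟩

theorem E1_congr {d a a' z z' : ℤ_[5]} (ha : d ∣ a - a') (hz : d ∣ 5 * (z - z')) :
    d ∣ E1 a z - E1 a' z' := by
  have : E1 a z - E1 a' z' = (ee a - ee a') - 5 * (z - z') := by unfold E1; ring
  rw [this]
  exact dvd_sub (ee_congr ha) hz

theorem lin_congr {d a a' : ℤ_[5]} (p q : ℤ_[5]) (ha : d ∣ a - a') :
    d ∣ (p * a + q) - (p * a' + q) := by
  have : (p * a + q) - (p * a' + q) = p * (a - a') := by ring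
  rw [this]; exact Dvd.dvd.mul_left ha _

theorem U2_congr {d a a' z z' : ℤ_[5]} (ha : d ∣ a - a') (hz : d ∣ 5 * (z - z')) :
    d ∣ U2 a z - U2 a' z' := by
  unfold U2
  have h1 : d ∣ 5 * P (5 * a + 1) * E1 a z - 5 * P (5 * a' + 1) * E1 a' z' :=
    mul_congr (mul_congr (by simp) (P_congr (lin_congr 5 1 ha))) (E1_congr ha hz)
  have h2 : d ∣ (5 * a + 1) ^ 6 - (5 * a' + 1) ^ 6 := pow_congr' 6 (lin_congr 5 1 ha)
  have : 5 * P (5 * a + 1) * E1 a z - (5 * a + 1) ^ 6 - (5 * P (5 * a' + 1) * E1 a' z' - (5 * a' + 1) ^ 6)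
    = (5 * P (5 * a + 1) * E1 a z - 5 * P (5 * a' + 1) * E1 a' z') - ((5 * a + 1) ^ 6 - (5 * a' + 1) ^ 6) := by
    ring
  rw [this]
  exact dvd_sub h1 h2

theorem y2_congr {d a a' z z' y y' : ℤ_[5]} (ha : d ∣ a - a') (hz : d ∣ 5 * (z - z'))
    (h : U2 a z * y = E1 a z * (5 * a + 2) ^ 6) (h' : U2 a' z' * y' = E1 a' z' * (5 * a' + 2) ^ 6) :
    d ∣ y - y' :=
  div_congr (isUnit_U2 a z) h h' (U2_congr ha hz)
    (mul_congr (E1_congr ha hz) (pow_congr' 6 (lin_congr 5 2 ha)))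

theorem E3_congr {d a a' y y' : ℤ_[5]} (ha : d ∣ a - a') (hy : d ∣ y - y') :
    d ∣ E3 a y - E3 a' y' := by
  unfold E3
  have h1 : d ∣ (2 * a + 1) * cc a - (2 * a' + 1) * cc a' :=
    mul_congr (lin_congr 2 1 ha) (cc_congr ha)
  have : (2 * a + 1) * cc a - y - ((2 * a' + 1) * cc a' - y')
    = ((2 * a + 1) * cc a - (2 * a' + 1) * cc a') - (y - y') := by ring
  rw [this]; exact dvd_sub h1 hy

theorem U4_congr {d a a' y y' : ℤ_[5]} (ha : d ∣ a - a') (hy : d ∣ y - y') :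
    d ∣ U4 a y - U4 a' y' := by
  unfold U4
  have h1 : d ∣ 5 * P (5 * a + 3) * E3 a y - 5 * P (5 * a' + 3) * E3 a' y' :=
    mul_congr (mul_congr (by simp) (P_congr (lin_congr 5 3 ha))) (E3_congr ha hy)
  have h2 : d ∣ (5 * a + 3) ^ 6 - (5 * a' + 3) ^ 6 := pow_congr' 6 (lin_congr 5 3 ha)
  have : 5 * P (5 * a + 3) * E3 a y - (5 * a + 3) ^ 6 - (5 * P (5 * a' + 3) * E3 a' y' - (5 * a' + 3) ^ 6)
    = (5 * P (5 * a + 3) * E3 a y - 5 * P (5 * a' + 3) * E3 a' y') - ((5 * a + 3) ^ 6 - (5 * a' + 3) ^ 6) := by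
    ring
  rw [this]
  exact dvd_sub h1 h2

theorem YR_congr {d z z' y y' : ℤ_[5]} {r a a' : ℕ} (hr : r < 5) (ha : d ∣ (a : ℤ_[5]) - a')
    (hz : d ∣ 5 * (z - z')) (h2 : (r = 1 ∨ r = 3) → a % 5 ≠ 2)
    (h : YR r a z y) (h' : YR r a' z' y') : d ∣ y - y' := by
  interval_cases r
  · have e : y = 125 * z := h
    have e' : y' = 125 * z' := h'
    rw [e, e']
    have : 125 * z - 125 * z' = 25 * (5 * (z - z')) := by ring
    rw [this]; exact Dvd.dvd.mul_left hz _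
  · have e : E1 a z * y = (5 * a + 1) ^ 6 := h
    have e' : E1 a' z' * y' = (5 * a' + 1) ^ 6 := h'
    exact div_congr (isUnit_E1 (h2 (Or.inl rfl)) z) e e' (E1_congr ha hz)
      (pow_congr' 6 (lin_congr 5 1 ha))
  · have e : U2 a z * y = 25 * E1 a z * (5 * a + 2) ^ 6 := h
    have e' : U2 a' z' * y' = 25 * E1 a' z' * (5 * a' + 2) ^ 6 := h'
    exact div_congr (isUnit_U2 _ z) e e' (U2_congr ha hz)
      (mul_congr (mul_congr (by simp) (E1_congr ha hz)) (pow_congr' 6 (lin_congr 5 2 ha)))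
  · obtain ⟨y2, hy2, e⟩ := h
    obtain ⟨y2', hy2', e'⟩ := h'
    have h3 := y2_congr ha hz hy2 hy2'
    exact div_congr (isUnit_E3 (h2 (Or.inr rfl)) hy2) e e' (E3_congr ha h3)
      (pow_congr' 6 (lin_congr 5 3 ha))
  · obtain ⟨y2, hy2, e⟩ := h
    obtain ⟨y2', hy2', e'⟩ := h'
    have h3 := y2_congr ha hz hy2 hy2'
    exact div_congr (isUnit_U4 _ y2) e e' (U4_congr ha h3)
      (mul_congr (mul_congr (by simp) (E3_congr ha h3)) (pow_congr' 6 (lin_congr 5 4 ha)))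

theorem YR_congr_two {d z z' y y' : ℤ_[5]} {a a' : ℕ} (ha : d ∣ (a : ℤ_[5]) - a')
    (hz : d ∣ 5 * (z - z')) (h : YR 2 a z y) (h' : YR 2 a' z' y') : 25 * d ∣ y - y' := by
  obtain ⟨y2, hy2⟩ := exists_solve (isUnit_U2 a z) (E1 a z * (5 * a + 2) ^ 6)
  obtain ⟨y2', hy2'⟩ := exists_solve (isUnit_U2 a' z') (E1 a' z' * (5 * a' + 2) ^ 6)
  have e : U2 a z * y = 25 * E1 a z * (5 * a + 2) ^ 6 := h
  have e' : U2 a' z' * y' = 25 * E1 a' z' * (5 * a' + 2) ^ 6 := h'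
  have f : y = 25 * y2 := by
    apply mul_left_cancel₀ (isUnit_U2 (a : ℤ_[5]) z).ne_zero
    rw [e]; linear_combination (-25) * hy2
  have f' : y' = 25 * y2' := by
    apply mul_left_cancel₀ (isUnit_U2 (a' : ℤ_[5]) z').ne_zero
    rw [e']; linear_combination (-25) * hy2'
  rw [f, f', ← mul_sub]
  exact mul_dvd_mul_left 25 (y2_congr ha hz hy2 hy2')

theorem modEq_div {m m' i : ℕ} (h : m ≡ m' [MOD 5 ^ (i + 1)]) :
    m / 5 ≡ m' / 5 [MOD 5 ^ i] ∧ m % 5 = m' % 5 := by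
  constructor
  · have h1 : m ≡ m' [MOD 5 * 5 ^ i] := by rwa [← pow_succ']
    unfold Nat.ModEq at h1 ⊢
    rw [← Nat.mod_mul_right_div_self, ← Nat.mod_mul_right_div_self, h1]
  · have h1 : m ≡ m' [MOD 5] := h.of_dvd (dvd_pow_self 5 (Nat.succ_ne_zero i))
    exact h1

/-- the key comparison of `z` -/
theorem z_congr_aux (hF : Frob A B C D) {j m m' : ℕ} {y y' z z' : ℤ_[5]} (l : ℕ) (hl : l ≤ j + 1)
    (h : m ≡ m' [MOD 5 ^ j]) (hy : (5 : ℤ_[5]) ^ l ∣ y - y')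
    (hz : (A m + 25 * B m * y) * z = 5 * C m + D m * y)
    (hz' : (A m' + 25 * B m' * y') * z' = 5 * C m' + D m' * y') :
    (5 : ℤ_[5]) ^ l ∣ z - z' := by
  have hp : (5 : ℤ_[5]) ^ l ∣ 5 ^ (j + 1) := pow_dvd_pow 5 hl
  have hA := hp.trans (hF.lipA j m m' h)
  have hD := hp.trans (hF.lipD j m m' h)
  have hB : (5 : ℤ_[5]) ^ l ∣ 5 * (B m - B m') := by
    refine hp.trans ?_
    rw [pow_succ']
    exact mul_dvd_mul_left 5 (hF.lipB j m m' h)
  have hC : (5 : ℤ_[5]) ^ l ∣ 5 * (C m - C m') := by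
    refine hp.trans ?_
    rw [pow_succ']
    exact mul_dvd_mul_left 5 (hF.lipC j m m' h)
  refine div_congr (isUnit_AB hF m y) hz hz' ?_ ?_
  · have : A m + 25 * B m * y - (A m' + 25 * B m' * y')
      = (A m - A m') + 5 * (B m - B m') * (5 * y) + 25 * B m' * (y - y') := by ring
    rw [this]
    exact dvd_add (dvd_add hA (Dvd.dvd.mul_right hB _)) (Dvd.dvd.mul_left hy _)
  · have : 5 * C m + D m * y - (5 * C m' + D m' * y')
      = 5 * (C m - C m') + (D m - D m') * y + D m' * (y - y') := by ring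
    rw [this]
    exact dvd_add (dvd_add hC (Dvd.dvd.mul_right hD _)) (Dvd.dvd.mul_left hy _)

theorem z_lip (hF : Frob A B C D) : ∀ (i m m' : ℕ) (z z' : ℤ_[5]), Adm m → Adm m' →
    m ≡ m' [MOD 5 ^ (i + 1)] → Z m z → Z m' z' → (5 : ℤ_[5]) ^ i ∣ z - z' := by
  intro i
  induction i with
  | zero => intro m m' z z' _ _ _ _ _; simp
  | succ i ih =>
    intro m m' z z' hm hm' h hz hz'
    obtain ⟨za, y, hza, hy, hrel⟩ := Z_unfold hF hm hz
    obtain ⟨za', y', hza', hy', hrel'⟩ := Z_unfold hF hm' hz'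
    obtain ⟨h1, h2⟩ := modEq_div h
    have h3 := ih _ _ _ _ hm.div hm'.div h1 hza hza'
    have h4 : (5 : ℤ_[5]) ^ (i + 1) ∣ 5 * (za - za') := by
      rw [pow_succ']; exact mul_dvd_mul_left 5 h3
    have h5 : (5 : ℤ_[5]) ^ (i + 1) ∣ y - y' := by
      rw [← h2] at hy'
      exact YR_congr (Nat.mod_lt m (by norm_num)) (natCast_dvd_of_modEq h1) h4 hm.low hy hy'
    exact z_congr_aux hF (i + 1) (by omega) h h5 hrel hrel'

theorem z_lip_two (hF : Frob A B C D) (j m m' : ℕ) (z z' : ℤ_[5]) (hm : Adm m) (hm' : Adm m')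
    (h : m ≡ m' [MOD 5 ^ (j + 1)]) (h2 : m % 5 = 2) (hz : Z m z) (hz' : Z m' z') :
    (5 : ℤ_[5]) ^ (j + 2) ∣ z - z' := by
  obtain ⟨za, y, hza, hy, hrel⟩ := Z_unfold hF hm hz
  obtain ⟨za', y', hza', hy', hrel'⟩ := Z_unfold hF hm' hz'
  obtain ⟨h1, h3⟩ := modEq_div h
  rw [← h3, h2] at hy'
  rw [h2] at hy
  have h4 : (5 : ℤ_[5]) ^ j ∣ 5 * (za - za') := by
    rcases j with _ | i
    · simp
    · rw [pow_succ']
      exact mul_dvd_mul_left 5 (z_lip hF i _ _ _ _ hm.div hm'.div h1 hza hza')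
  have h5 : (5 : ℤ_[5]) ^ (j + 2) ∣ y - y' := by
    have := YR_congr_two (natCast_dvd_of_modEq h1) h4 hy hy'
    have e : (5 : ℤ_[5]) ^ (j + 2) = 25 * 5 ^ j := by ring
    rw [e]; exact this
  exact z_congr_aux hF (j + 2) (by omega) h h5 hrel hrel'

end

end Pool.Agent.Apery5
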