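import Pool.Agent.Lib_MP_ae71a2_nt.Left2

set_option autoImplicit false

namespace Pool.Agent.Apery5

open Finset

noncomputable def X3 (M τ : ℤ_[5]) : ℤ_[5] := (2 * M + 1) * cc M + 5 * (5 * M + 3) ^ 6 * τ

noncomputable def Ur (ρ : ℕ) (M τ : ℤ_[5]) : ℤ_[5] :=
  if ρ = 1 then 1 else 5 * P (5 * M + 1) * X3 M τ - (5 * M + 2) ^ 6

noncomputable def Er (ρ : ℕ) (M τ : ℤ_[5]) : ℤ_[5] :=
  if ρ = 1 then ee M + 5 * (5 * M + 1) ^ 6 * τ else Ur 3 M τ * ee M - (5 * M + 1) ^ 6 * X3 M τ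

noncomputable def cub (ρ : ℕ) (M : ℤ_[5]) : ℤ_[5] :=
  if ρ = 1 then (5 * M + 1) ^ 3 else ((5 * M + 1) * (5 * M + 2) * (5 * M + 3)) ^ 3

/-- value of a digit string (top digit first) placed below `M` -/
def val : List ℕ → ℕ → ℕ
  | [], M => M
  | (ρ :: σ), M => val σ (5 * M + ρ)

section
variable (A B C D : ℕ → ℤ_[5])

noncomputable def Vr (ρ : ℕ) (M : ℕ) (τ : ℤ_[5]) : ℤ_[5] := A M * Er ρ M τ - 25 * C M * Ur ρ M τ
noncomputable def Tr (ρ : ℕ) (M : ℕ) (τ : ℤ_[5]) : ℤ_[5] := 5 * B M * Er ρ M τ - D M * Ur ρ M τ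

noncomputable def gam (ρ : ℕ) (M : ℕ) (τ : ℤ_[5]) : ℤ_[5] :=
  Tr B D ρ M τ * Ring.inverse (Vr A C ρ M τ)

noncomputable def G : List ℕ → ℕ → ℤ_[5] → ℤ_[5]
  | [], _, τ => τ
  | (ρ :: σ), M, τ => gam A B C D ρ M (G σ (5 * M + ρ) τ)

end

section
variable {A B C D : ℕ → ℤ_[5]}

theorem rd_A (hF : Frob A B C D) (n : ℕ) : rd (A n) = 1 := by
  have h := (rd_eq_zero _).2 (hF.A1 n)
  rw [map_sub, map_one, sub_eq_zero] at h
  exact h

theorem rd_D (hF : Frob A B C D) (n : ℕ) : rd (D n) = 1 := by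
  have h := (rd_eq_zero _).2 (hF.D1 n)
  rw [map_sub, map_one, sub_eq_zero] at h
  exact h

theorem rd_X3 (M τ : ℤ_[5]) : rd (X3 M τ) = 2 * (2 * rd M + 1) := by
  unfold X3 cc
  simp only [map_add, map_mul, map_one, map_pow, map_ofNat]
  generalize rd M = x
  generalize rd τ = y
  revert x y
  decide

theorem rd_Ur (ρ : ℕ) (M τ : ℤ_[5]) : rd (Ur ρ M τ) = 1 := by
  unfold Ur
  split_ifs
  · exact map_one _
  · simp only [map_sub, map_add, map_mul, map_one, map_pow, map_ofNat]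
    generalize rd M = x
    generalize rd (P (5 * M + 1)) = y
    generalize rd (X3 M τ) = t
    revert x y t
    decide

/-- sign of `Er` mod 5 -/
def sg (ρ : ℕ) : ZMod 5 := if ρ = 1 then 1 else -1

theorem sg_sq (ρ : ℕ) : sg ρ * sg ρ = 1 := by
  unfold sg; split_ifs <;> decide

theorem rd_Er (ρ : ℕ) (M τ : ℤ_[5]) : rd (Er ρ M τ) = sg ρ * (2 * rd M + 1) := by
  unfold Er sg
  split_ifs
  · unfold ee
    simp only [map_add, map_mul, map_one, map_pow, map_ofNat]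
    generalize rd M = x
    generalize rd τ = y
    revert x y
    decide
  · simp only [map_sub, map_mul, rd_Ur, rd_X3, map_pow, map_add, map_one, map_ofNat]
    unfold ee
    simp only [map_add, map_mul, map_one, map_pow, map_ofNat]
    generalize rd M = x
    revert x
    decide

theorem rd_Vr (hF : Frob A B C D) (ρ M : ℕ) (τ : ℤ_[5]) :
    rd (Vr A C ρ M τ) = sg ρ * (2 * rd (M : ℤ_[5]) + 1) := by
  unfold Vr
  simp only [map_sub, map_mul, rd_A hF, rd_Ur, rd_Er, map_ofNat, one_mul]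
  generalize rd (C M) = y
  have : (25 : ZMod 5) = 0 := by decide
  rw [this]; ring

theorem rd_Tr (hF : Frob A B C D) (ρ M : ℕ) (τ : ℤ_[5]) :
    rd (Tr B D ρ M τ) = -1 := by
  unfold Tr
  simp only [map_sub, map_mul, rd_D hF, rd_Ur, map_ofNat, one_mul]
  have : (5 : ZMod 5) = 0 := by decide
  rw [this]; ring

theorem sq_of_res {M : ℕ} (h : M % 5 = 1 ∨ M % 5 = 3) :
    (2 * rd (M : ℤ_[5]) + 1) * (2 * rd (M : ℤ_[5]) + 1) = -1 := by
  rw [rd_natCast]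
  have h1 : ((M : ℕ) : ZMod 5) = ((M % 5 : ℕ) : ZMod 5) := (ZMod.natCast_mod M 5).symm
  rw [h1]
  rcases h with h | h <;> rw [h] <;> decide

theorem isUnit_Vr (hF : Frob A B C D) (ρ : ℕ) {M : ℕ} (h : M % 5 = 1 ∨ M % 5 = 3) (τ : ℤ_[5]) :
    IsUnit (Vr A C ρ M τ) := by
  rw [isUnit_iff_rd, rd_Vr hF]
  have h1 := sq_of_res h
  have h2 := sg_sq ρ
  intro h0
  have : (sg ρ * (2 * rd (M : ℤ_[5]) + 1)) * (sg ρ * (2 * rd (M : ℤ_[5]) + 1)) = -1 := by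
    calc _ = (sg ρ * sg ρ) * ((2 * rd (M : ℤ_[5]) + 1) * (2 * rd (M : ℤ_[5]) + 1)) := by ring
      _ = -1 := by rw [h1, h2]; ring
  rw [h0] at this
  revert this
  decide

theorem gam_spec (hF : Frob A B C D) (ρ : ℕ) {M : ℕ} (h : M % 5 = 1 ∨ M % 5 = 3) (τ : ℤ_[5]) :
    Vr A C ρ M τ * gam A B C D ρ M τ = Tr B D ρ M τ := by
  unfold gam
  rw [mul_comm, mul_assoc, Ring.inverse_mul_cancel _ (isUnit_Vr hF ρ h τ), mul_one]

theorem cub_unit (ρ M : ℕ) : IsUnit (cub ρ (M : ℤ_[5])) := by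
  rw [isUnit_iff_rd]
  unfold cub
  split_ifs
  · simp only [map_pow, map_add, map_mul, map_one, map_ofNat]
    generalize rd (M : ℤ_[5]) = x
    revert x; decide
  · simp only [map_pow, map_add, map_mul, map_one, map_ofNat]
    generalize rd (M : ℤ_[5]) = x
    revert x; decide

theorem step_right (hF : Frob A B C D) {ρ : ℕ} (hρ : ρ = 1 ∨ ρ = 3) {M : ℕ}
    (h : M % 5 = 1 ∨ M % 5 = 3) (τ : ℤ_[5]) :
    cub ρ (M : ℤ_[5]) * (u (5 * M + ρ) + 25 * τ * w (5 * M + ρ))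
      = 5 * Vr A C ρ M τ * (u M + 25 * gam A B C D ρ M τ * w M) := by
  have hg := gam_spec hF ρ h τ
  have key : cub ρ (M : ℤ_[5]) * (u (5 * M + ρ) + 25 * τ * w (5 * M + ρ))
      = 5 * Er ρ M τ * u (5 * M) - Ur ρ M τ * w (5 * M) := by
    have r0 := hF.hrec (5 * M)
    have w1 := w_succ (5 * M)
    push_cast at r0 w1
    rw [P_five] at r0
    rcases hρ with rfl | rfl
    · simp only [cub, Er, Ur, if_true]
      rw [w1]
      linear_combination r0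
    · have r1 := hF.hrec (5 * M + 1)
      have w2 := w_succ (5 * M + 1)
      have r2 := hF.hrec (5 * M + 2)
      have w3 := w_succ (5 * M + 2)
      push_cast at r1 w2 r2 w3
      rw [P_five_two] at r2
      have e1 : (5 * (M : ℤ_[5]) + 1 + 1) = 5 * M + 2 := by ring
      have e2 : (5 * (M : ℤ_[5]) + 2 + 1) = 5 * M + 3 := by ring
      rw [e1] at r1 w2
      rw [e2] at r2 w3
      have i1 : 5 * M + 1 + 1 = 5 * M + 2 := by ring
      have i2 : 5 * M + 2 + 1 = 5 * M + 3 := by ring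
      rw [i1] at r1 w2
      rw [i2] at r2 w3
      simp only [cub, Er, Ur]
      norm_num
      -- abbreviations
      have a1 : (5 * (M : ℤ_[5]) + 3) ^ 3 * (u (5 * M + 3) + 25 * τ * w (5 * M + 3))
          = 5 * X3 M τ * u (5 * M + 2) - w (5 * M + 2) := by
        rw [w3]; unfold X3; linear_combination r2
      have a2 : (5 * (M : ℤ_[5]) + 2) ^ 3 * (5 * X3 M τ * u (5 * M + 2) - w (5 * M + 2))
          = (5 * P (5 * (M : ℤ_[5]) + 1) * X3 M τ - (5 * M + 2) ^ 6) * u (5 * M + 1)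
            - 5 * X3 M τ * w (5 * M + 1) := by
        rw [w2]; linear_combination (5 * X3 (M : ℤ_[5]) τ) * r1
      have a3 : (5 * (M : ℤ_[5]) + 1) ^ 3 *
          ((5 * P (5 * (M : ℤ_[5]) + 1) * X3 M τ - (5 * M + 2) ^ 6) * u (5 * M + 1)
            - 5 * X3 M τ * w (5 * M + 1))
          = 5 * ((5 * P (5 * (M : ℤ_[5]) + 1) * X3 M τ - (5 * M + 2) ^ 6) * ee (M : ℤ_[5])
            - (5 * M + 1) ^ 6 * X3 M τ) * u (5 * M)
            - (5 * P (5 * (M : ℤ_[5]) + 1) * X3 M τ - (5 * M + 2) ^ 6) * w (5 * M) := by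
        rw [w1]
        linear_combination (5 * P (5 * (M : ℤ_[5]) + 1) * X3 M τ - (5 * M + 2) ^ 6) * r0
      rw [← a3, ← a2, ← a1]
      ring
  rw [key, hF.hu, hF.hw]
  unfold Vr Tr at hg
  unfold Vr
  linear_combination (-125 * w M) * hg

/-- digits 1 and 3 only -/
def Dig (σ : List ℕ) : Prop := ∀ ρ ∈ σ, ρ = 1 ∨ ρ = 3

theorem Dig.cons {ρ : ℕ} {σ : List ℕ} (h : Dig (ρ :: σ)) : (ρ = 1 ∨ ρ = 3) ∧ Dig σ :=
  ⟨h ρ (by simp), fun x hx => h x (by simp [hx])⟩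

theorem res_step {ρ M : ℕ} (hρ : ρ = 1 ∨ ρ = 3) : (5 * M + ρ) % 5 = 1 ∨ (5 * M + ρ) % 5 = 3 := by
  omega

theorem u_val (hF : Frob A B C D) : ∀ (σ : List ℕ) (M : ℕ) (τ : ℤ_[5]), Dig σ →
    (M % 5 = 1 ∨ M % 5 = 3) →
    ∃ κ : ℤ_[5], IsUnit κ ∧ u (val σ M) + 25 * τ * w (val σ M)
      = 5 ^ σ.length * κ * (u M + 25 * G A B C D σ M τ * w M) := by
  intro σ
  induction σ with
  | nil => intro M τ _ _; exact ⟨1, isUnit_one, by simp [val, G]⟩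
  | cons ρ σ ih =>
    intro M τ hσ hM
    obtain ⟨hρ, hσ'⟩ := hσ.cons
    obtain ⟨κ, hκ, h⟩ := ih (5 * M + ρ) τ hσ' (res_step hρ)
    have hs := step_right hF hρ hM (G A B C D σ (5 * M + ρ) τ)
    obtain ⟨c, hc⟩ := cub_unit ρ M
    refine ⟨κ * ↑c⁻¹ * Vr A C ρ M (G A B C D σ (5 * M + ρ) τ),
      (hκ.mul (Units.isUnit _)).mul (isUnit_Vr hF ρ hM _), ?_⟩
    simp only [val, G, List.length_cons]
    rw [h]
    have h2 : u (5 * M + ρ) + 25 * G A B C D σ (5 * M + ρ) τ * w (5 * M + ρ)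
        = ↑c⁻¹ * (5 * Vr A C ρ M (G A B C D σ (5 * M + ρ) τ) *
          (u M + 25 * gam A B C D ρ M (G A B C D σ (5 * M + ρ) τ) * w M)) := by
      rw [← hs, ← hc, ← mul_assoc, Units.inv_mul, one_mul]
    rw [h2]
    ring

theorem gam_diff (hF : Frob A B C D) {ρ : ℕ} (hρ : ρ = 1 ∨ ρ = 3) {M : ℕ}
    (h : M % 5 = 1 ∨ M % 5 = 3) (τ τ' : ℤ_[5]) :
    ∃ η : ℤ_[5], rd η * rd η = 1 ∧
      gam A B C D ρ M τ - gam A B C D ρ M τ' = 5 * η * (τ - τ') := by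
  have hg := gam_spec hF ρ h τ
  have hg' := gam_spec hF ρ h τ'
  obtain ⟨v, hv⟩ := isUnit_Vr hF ρ h τ
  obtain ⟨v', hv'⟩ := isUnit_Vr hF ρ h τ'
  -- μ
  obtain ⟨μ, hμ1, hμ2⟩ : ∃ μ : ℤ_[5], rd μ = 1 ∧
      Er ρ M τ * Ur ρ M τ' - Er ρ M τ' * Ur ρ M τ = μ * (5 * (τ - τ')) := by
    rcases hρ with rfl | rfl
    · refine ⟨(5 * (M : ℤ_[5]) + 1) ^ 6, ?_, ?_⟩
      · simp only [map_pow, map_add, map_mul, map_one, map_ofNat]
        generalize rd (M : ℤ_[5]) = x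
        revert x; decide
      · simp only [Er, Ur, if_true]; ring
    · refine ⟨(5 * (M : ℤ_[5]) + 1) ^ 6 * (5 * (M : ℤ_[5]) + 2) ^ 6 * (5 * (M : ℤ_[5]) + 3) ^ 6, ?_, ?_⟩
      · simp only [map_pow, map_add, map_mul, map_one, map_ofNat]
        generalize rd (M : ℤ_[5]) = x
        revert x; decide
      · simp only [Er, Ur]; norm_num
        unfold X3
        ring
  have hdet : rd (A M * D M - 125 * B M * C M) = 1 := by
    simp only [map_sub, map_mul, rd_A hF, rd_D hF, map_ofNat]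
    have : (125 : ZMod 5) = 0 := by decide
    rw [this]; ring
  refine ⟨(A M * D M - 125 * B M * C M) * μ * ↑v⁻¹ * ↑v'⁻¹, ?_, ?_⟩
  · have h1 : rd (↑v⁻¹ : ℤ_[5]) * (sg ρ * (2 * rd (M : ℤ_[5]) + 1)) = 1 := by
      rw [← rd_Vr hF ρ M τ, ← hv, ← map_mul, Units.inv_mul, map_one]
    have h2 : rd (↑v'⁻¹ : ℤ_[5]) * (sg ρ * (2 * rd (M : ℤ_[5]) + 1)) = 1 := by
      rw [← rd_Vr hF ρ M τ', ← hv', ← map_mul, Units.inv_mul, map_one]
    have h3 := sq_of_res h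
    have h4 := sg_sq ρ
    simp only [map_mul, hdet, hμ1, one_mul]
    revert h1 h2 h3 h4
    generalize rd (↑v⁻¹ : ℤ_[5]) = a
    generalize rd (↑v'⁻¹ : ℤ_[5]) = b
    generalize sg ρ = s
    generalize (2 * rd (M : ℤ_[5]) + 1) = t
    revert a b s t
    decide
  · have hu1 : (v : ℤ_[5]) * ↑v⁻¹ = 1 := Units.mul_inv v
    have hu2 : (v' : ℤ_[5]) * ↑v'⁻¹ = 1 := Units.mul_inv v'
    have e1 : gam A B C D ρ M τ = Tr B D ρ M τ * ↑v⁻¹ := by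
      rw [← hg, ← hv]; linear_combination (-(gam A B C D ρ M τ)) * hu1
    have e2 : gam A B C D ρ M τ' = Tr B D ρ M τ' * ↑v'⁻¹ := by
      rw [← hg', ← hv']; linear_combination (-(gam A B C D ρ M τ')) * hu2
    have hid : Tr B D ρ M τ * Vr A C ρ M τ' - Tr B D ρ M τ' * Vr A C ρ M τ
        = (A M * D M - 125 * B M * C M) * (μ * (5 * (τ - τ'))) := by
      rw [← hμ2]; unfold Tr Vr; ring
    rw [← hv, ← hv'] at hid
    rw [e1, e2]
    have e3 : Tr B D ρ M τ * ↑v⁻¹ - Tr B D ρ M τ' * ↑v'⁻¹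
        = (Tr B D ρ M τ * ↑v' - Tr B D ρ M τ' * ↑v) * ↑v⁻¹ * ↑v'⁻¹ := by
      linear_combination (-(Tr B D ρ M τ) * ↑v⁻¹) * hu2 + (Tr B D ρ M τ' * ↑v'⁻¹) * hu1
    rw [e3, hid]; ring

theorem G_diff (hF : Frob A B C D) : ∀ (σ : List ℕ) (M : ℕ) (τ τ' : ℤ_[5]), Dig σ →
    (M % 5 = 1 ∨ M % 5 = 3) →
    ∃ η : ℤ_[5], rd η * rd η = 1 ∧
      G A B C D σ M τ - G A B C D σ M τ' = 5 ^ σ.length * η * (τ - τ') := by
  intro σ
  induction σ with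
  | nil => intro M τ τ' _ _; exact ⟨1, by simp, by simp [G]⟩
  | cons ρ σ ih =>
    intro M τ τ' hσ hM
    obtain ⟨hρ, hσ'⟩ := hσ.cons
    obtain ⟨η, h1, h2⟩ := ih (5 * M + ρ) τ τ' hσ' (res_step hρ)
    obtain ⟨η', h3, h4⟩ := gam_diff hF hρ hM (G A B C D σ (5 * M + ρ) τ) (G A B C D σ (5 * M + ρ) τ')
    refine ⟨η' * η, ?_, ?_⟩
    · rw [map_mul]
      calc rd η' * rd η * (rd η' * rd η) = (rd η' * rd η') * (rd η * rd η) := by ring
        _ = 1 := by rw [h1, h3]; ring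
    · simp only [G, List.length_cons]
      rw [h4, h2]; ring

/-- the two digits 1 and 3 give different values -/
theorem gam_one_three (hF : Frob A B C D) {M : ℕ} (h : M % 5 = 1 ∨ M % 5 = 3) (τ τ' : ℤ_[5]) :
    rd (gam A B C D 1 M τ - gam A B C D 3 M τ') * rd (gam A B C D 1 M τ - gam A B C D 3 M τ') = 1 := by
  have h1 := congrArg rd (gam_spec hF 1 h τ)
  have h3 := congrArg rd (gam_spec hF 3 h τ')
  rw [map_mul, rd_Vr hF, rd_Tr hF] at h1 h3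
  rw [map_sub]
  have h4 := sq_of_res h
  simp only [sg, if_true] at h1
  have e3 : sg 3 = -1 := by unfold sg; rfl
  rw [e3] at h3
  revert h1 h3 h4
  generalize rd (gam A B C D 1 M τ) = a
  generalize rd (gam A B C D 3 M τ') = b
  generalize (2 * rd (M : ℤ_[5]) + 1) = t
  revert a b t
  decide

end

section
variable {A B C D : ℕ → ℤ_[5]}

theorem X3_congr {d M M' τ τ' : ℤ_[5]} (hM : d ∣ M - M') (hτ : d ∣ 5 * (τ - τ')) :
    d ∣ X3 M τ - X3 M' τ' := by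
  unfold X3
  have h1 : d ∣ (2 * M + 1) * cc M - (2 * M' + 1) * cc M' :=
    mul_congr (lin_congr 2 1 hM) (cc_congr hM)
  have h2 : d ∣ (5 * M + 3) ^ 6 - (5 * M' + 3) ^ 6 := pow_congr' 6 (lin_congr 5 3 hM)
  have : (2 * M + 1) * cc M + 5 * (5 * M + 3) ^ 6 * τ - ((2 * M' + 1) * cc M' + 5 * (5 * M' + 3) ^ 6 * τ')
    = ((2 * M + 1) * cc M - (2 * M' + 1) * cc M') + ((5 * M + 3) ^ 6 - (5 * M' + 3) ^ 6) * (5 * τ)
      + (5 * M' + 3) ^ 6 * (5 * (τ - τ')) := by ring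
  rw [this]
  exact dvd_add (dvd_add h1 (Dvd.dvd.mul_right h2 _)) (Dvd.dvd.mul_left hτ _)

theorem Ur_congr {d M M' τ τ' : ℤ_[5]} (ρ : ℕ) (hM : d ∣ M - M') (hτ : d ∣ 5 * (τ - τ')) :
    d ∣ Ur ρ M τ - Ur ρ M' τ' := by
  unfold Ur
  split_ifs
  · simp
  · have h1 : d ∣ 5 * P (5 * M + 1) * X3 M τ - 5 * P (5 * M' + 1) * X3 M' τ' :=
      mul_congr (mul_congr (by simp) (P_congr (lin_congr 5 1 hM))) (X3_congr hM hτ)
    have h2 : d ∣ (5 * M + 2) ^ 6 - (5 * M' + 2) ^ 6 := pow_congr' 6 (lin_congr 5 2 hM)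
    have : 5 * P (5 * M + 1) * X3 M τ - (5 * M + 2) ^ 6 - (5 * P (5 * M' + 1) * X3 M' τ' - (5 * M' + 2) ^ 6)
      = (5 * P (5 * M + 1) * X3 M τ - 5 * P (5 * M' + 1) * X3 M' τ')
        - ((5 * M + 2) ^ 6 - (5 * M' + 2) ^ 6) := by ring
    rw [this]; exact dvd_sub h1 h2

theorem Er_congr {d M M' τ τ' : ℤ_[5]} (ρ : ℕ) (hM : d ∣ M - M') (hτ : d ∣ 5 * (τ - τ')) :
    d ∣ Er ρ M τ - Er ρ M' τ' := by
  unfold Er
  split_ifs
  · have h2 : d ∣ (5 * M + 1) ^ 6 - (5 * M' + 1) ^ 6 := pow_congr' 6 (lin_congr 5 1 hM)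
    have : ee M + 5 * (5 * M + 1) ^ 6 * τ - (ee M' + 5 * (5 * M' + 1) ^ 6 * τ')
      = (ee M - ee M') + ((5 * M + 1) ^ 6 - (5 * M' + 1) ^ 6) * (5 * τ)
        + (5 * M' + 1) ^ 6 * (5 * (τ - τ')) := by ring
    rw [this]
    exact dvd_add (dvd_add (ee_congr hM) (Dvd.dvd.mul_right h2 _)) (Dvd.dvd.mul_left hτ _)
  · have h1 : d ∣ Ur 3 M τ * ee M - Ur 3 M' τ' * ee M' := mul_congr (Ur_congr 3 hM hτ) (ee_congr hM)
    have h2 : d ∣ (5 * M + 1) ^ 6 * X3 M τ - (5 * M' + 1) ^ 6 * X3 M' τ' :=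
      mul_congr (pow_congr' 6 (lin_congr 5 1 hM)) (X3_congr hM hτ)
    have : Ur 3 M τ * ee M - (5 * M + 1) ^ 6 * X3 M τ - (Ur 3 M' τ' * ee M' - (5 * M' + 1) ^ 6 * X3 M' τ')
      = (Ur 3 M τ * ee M - Ur 3 M' τ' * ee M')
        - ((5 * M + 1) ^ 6 * X3 M τ - (5 * M' + 1) ^ 6 * X3 M' τ') := by ring
    rw [this]; exact dvd_sub h1 h2

theorem gam_congr (hF : Frob A B C D) (ρ : ℕ) {j M M' : ℕ} {τ τ' : ℤ_[5]}
    (hM : M % 5 = 1 ∨ M % 5 = 3) (hM' : M' % 5 = 1 ∨ M' % 5 = 3) (h : M ≡ M' [MOD 5 ^ j])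
    (hτ : (5 : ℤ_[5]) ^ j ∣ 5 * (τ - τ')) :
    (5 : ℤ_[5]) ^ j ∣ gam A B C D ρ M τ - gam A B C D ρ M' τ' := by
  have hn := natCast_dvd_of_modEq h
  have hE := Er_congr ρ hn hτ
  have hU := Ur_congr ρ hn hτ
  have hp : (5 : ℤ_[5]) ^ j ∣ 5 ^ (j + 1) := pow_dvd_pow 5 (by omega)
  have hA := hp.trans (hF.lipA j M M' h)
  have hD := hp.trans (hF.lipD j M M' h)
  have hB := hF.lipB j M M' h
  have hC := hF.lipC j M M' h
  refine div_congr (isUnit_Vr hF ρ hM τ) (gam_spec hF ρ hM τ) (gam_spec hF ρ hM' τ') ?_ ?_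
  · unfold Vr
    have h1 := mul_congr hA hE
    have h2 := mul_congr hC hU
    have : A M * Er ρ M τ - 25 * C M * Ur ρ M τ - (A M' * Er ρ M' τ' - 25 * C M' * Ur ρ M' τ')
      = (A M * Er ρ M τ - A M' * Er ρ M' τ') - 25 * (C M * Ur ρ M τ - C M' * Ur ρ M' τ') := by ring
    rw [this]; exact dvd_sub h1 (Dvd.dvd.mul_left h2 _)
  · unfold Tr
    have h1 := mul_congr hB hE
    have h2 := mul_congr hD hU
    have : 5 * B M * Er ρ M τ - D M * Ur ρ M τ - (5 * B M' * Er ρ M' τ' - D M' * Ur ρ M' τ')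
      = 5 * (B M * Er ρ M τ - B M' * Er ρ M' τ') - (D M * Ur ρ M τ - D M' * Ur ρ M' τ') := by ring
    rw [this]; exact dvd_sub (Dvd.dvd.mul_left h1 _) h2

theorem modEq_step {M M' j ρ : ℕ} (h : M ≡ M' [MOD 5 ^ j]) :
    5 * M + ρ ≡ 5 * M' + ρ [MOD 5 ^ (j + 1)] := by
  have h1 : 5 * M ≡ 5 * M' [MOD 5 * 5 ^ j] := Nat.ModEq.mul_left' 5 h
  rw [← pow_succ'] at h1
  exact Nat.ModEq.add_right ρ h1

theorem G_congr (hF : Frob A B C D) : ∀ (σ : List ℕ) (j M M' : ℕ) (τ : ℤ_[5]), Dig σ →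
    (M % 5 = 1 ∨ M % 5 = 3) → (M' % 5 = 1 ∨ M' % 5 = 3) → M ≡ M' [MOD 5 ^ j] →
    (5 : ℤ_[5]) ^ j ∣ G A B C D σ M τ - G A B C D σ M' τ := by
  intro σ
  induction σ with
  | nil => intro j M M' τ _ _ _ _; simp [G]
  | cons ρ σ ih =>
    intro j M M' τ hσ hM hM' h
    obtain ⟨hρ, hσ'⟩ := hσ.cons
    have h1 := ih (j + 1) (5 * M + ρ) (5 * M' + ρ) τ hσ' (res_step hρ) (res_step hρ) (modEq_step h)
    simp only [G]
    refine gam_congr hF ρ hM hM' h ?_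
    exact Dvd.dvd.mul_left ((pow_dvd_pow 5 (by omega)).trans h1) _

theorem G_append (σ σ' : List ℕ) (M : ℕ) (τ : ℤ_[5]) :
    G A B C D (σ ++ σ') M τ = G A B C D σ M (G A B C D σ' (val σ M) τ) := by
  induction σ generalizing M with
  | nil => simp [G, val]
  | cons ρ σ ih => simp only [List.cons_append, G, val, ih]

theorem val_append (σ σ' : List ℕ) (M : ℕ) : val (σ ++ σ') M = val σ' (val σ M) := by
  induction σ generalizing M with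
  | nil => simp [val]
  | cons ρ σ ih => simp only [List.cons_append, val, ih]

theorem val_res {σ : List ℕ} (hσ : Dig σ) {M : ℕ} (hM : M % 5 = 1 ∨ M % 5 = 3) :
    val σ M % 5 = 1 ∨ val σ M % 5 = 3 := by
  induction σ generalizing M with
  | nil => simpa [val] using hM
  | cons ρ σ ih =>
    obtain ⟨hρ, hσ'⟩ := hσ.cons
    exact ih hσ' (res_step hρ)

end

end Pool.Agent.Apery5
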